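import Pool.Agent.Lib_helper17.ED.Corona

/-!
Assembly: the total mass of a critical system without a `7 × 7` zero block is at most `1 + 2 √3`.
-/

namespace Pool.Agent.Lib_helper17.ED

open Finset

set_option linter.unusedSectionVars false

namespace Sys

/-- zero blocks offered by a list of complete components -/
def Zb : List ℕ → ℕ → ℕ → Prop
  | [], p, q => p = 0 ∧ q = 0
  | n :: L, p, q => (∃ p' q', p = p' + 1 ∧ q = q' + 1 ∧ Zb L p' q') ∨
      (∃ p', p = p' + n ∧ Zb L p' q) ∨ (∃ q', q = q' + n ∧ Zb L p q')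

theorem Zb_diag : ∀ L : List ℕ, Zb L L.length L.length
  | [] => ⟨rfl, rfl⟩
  | _ :: L => Or.inl ⟨L.length, L.length, rfl, rfl, Zb_diag L⟩

theorem Zb_zero : ∀ L : List ℕ, Zb L 0 L.sum
  | [] => ⟨rfl, rfl⟩
  | n :: L => Or.inr (Or.inr ⟨L.sum, by rw [List.sum_cons]; ring, Zb_zero L⟩)

theorem sum_ge (L : List ℕ) (hL : ∀ n ∈ L, 3 ≤ n) : 3 * L.length ≤ L.sum := by
  induction L with
  | nil => simp
  | cons n L ih =>
    have h1 := ih (fun k hk => hL k (List.mem_cons_of_mem _ hk))
    have h2 := hL n (List.mem_cons_self)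
    rw [List.sum_cons, List.length_cons]
    omega

theorem Zb_big (L : List ℕ) (hL : ∀ n ∈ L, 3 ≤ n) (n : ℕ) (hn : n ∈ L) :
    ∃ q, 3 * (L.length - 1) ≤ q ∧ Zb L n q := by
  induction L with
  | nil => simp at hn
  | cons k L ih =>
    rw [List.mem_cons] at hn
    rcases hn with rfl | hn
    · refine ⟨L.sum, ?_, Or.inr (Or.inl ⟨0, by simp, Zb_zero L⟩)⟩
      have := sum_ge L (fun k hk => hL k (List.mem_cons_of_mem _ hk))
      rw [List.length_cons]
      omega
    · obtain ⟨q, hq, hZ⟩ := ih (fun k hk => hL k (List.mem_cons_of_mem _ hk)) hn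
      refine ⟨q + k, ?_, Or.inr (Or.inr ⟨q, rfl, hZ⟩)⟩
      have h2 := hL k (List.mem_cons_self)
      have h3 : 0 < L.length := List.length_pos_of_mem hn
      rw [List.length_cons]
      omega

/-- the mass of a complete component of size `n` -/
noncomputable def gg (n : ℕ) : ℝ := (n : ℝ) / (n + (√3 - 1))

theorem gg_le_one (n : ℕ) : gg n ≤ 1 := by
  unfold gg
  have r1 := r3_gt
  have hn : (0 : ℝ) ≤ n := Nat.cast_nonneg n
  rw [div_le_one (by linarith)]
  linarith

theorem gg_le_six {n : ℕ} (h : n ≤ 6) : gg n ≤ 6 / (5 + √3) := by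
  unfold gg
  have r1 := r3_gt
  have hn : (0 : ℝ) ≤ n := Nat.cast_nonneg n
  have hn6 : (n : ℝ) ≤ 6 := by exact_mod_cast h
  rw [div_le_div_iff₀ (by linarith) (by linarith)]
  nlinarith

theorem sum_gg_le (L : List ℕ) : (L.map gg).sum ≤ L.length := by
  induction L with
  | nil => simp
  | cons n L ih =>
    rw [List.map_cons, List.sum_cons, List.length_cons]
    push_cast
    have := gg_le_one n
    linarith

theorem sum_gg_le_six (L : List ℕ) (h : ∀ n ∈ L, n ≤ 6) :
    (L.map gg).sum ≤ L.length * (6 / (5 + √3)) := by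
  induction L with
  | nil => simp
  | cons n L ih =>
    rw [List.map_cons, List.sum_cons, List.length_cons]
    push_cast
    have h1 := gg_le_six (h n (List.mem_cons_self))
    have h2 := ih (fun k hk => h k (List.mem_cons_of_mem _ hk))
    linarith

variable {V : Type*} [Fintype V] [DecidableEq V] {S : Sys V}

theorem summary : ∀ (k : ℕ) (F : Finset V), F.card = k → S.Cl F →
    ∃ (M j : ℕ) (L : List ℕ), (∀ n ∈ L, 3 ≤ n) ∧
      S.m F ≤ (√3 - 1) * M + j / √3 + (L.map gg).sum ∧
      ∀ a ≤ 2 * M, ∀ p q, Zb L p q → S.Blk F (a + j + p) (2 * M - a + j + q) := by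
  intro k
  induction k using Nat.strong_induction_on with
  | _ k ih =>
  intro F hFk hF
  have sy := S.symm
  rcases F.eq_empty_or_nonempty with rfl | hne
  · refine ⟨0, 0, [], by simp, by simp [m], ?_⟩
    intro a ha p q hZ
    obtain ⟨rfl, rfl⟩ := hZ
    have : a = 0 := by omega
    subst this
    exact ⟨∅, ∅, by simp, by simp, by simp, by simp, by simp⟩
  -- general induction step
  have step : ∀ C : Finset V, C ⊆ F → C.Nonempty → S.Cl C →
      ∃ F' : Finset V, Disjoint C F' ∧ C ∪ F' = F ∧ S.Cl F' ∧ ∃ (M j : ℕ) (L : List ℕ),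
        (∀ n ∈ L, 3 ≤ n) ∧ S.m F' ≤ (√3 - 1) * M + j / √3 + (L.map gg).sum ∧
      ∀ a ≤ 2 * M, ∀ p q, Zb L p q → S.Blk F' (a + j + p) (2 * M - a + j + q) := by
    intro C hCF hCne hC
    have hcl : S.Cl (F \ C) := by
      intro u hu w huw
      rw [Finset.mem_sdiff] at hu ⊢
      exact ⟨hF u hu.1 w huw, fun hw => hu.2 (hC w hw u (sy _ _ huw))⟩
    refine ⟨F \ C, Finset.disjoint_sdiff, Finset.union_sdiff_of_subset hCF, hcl, ?_⟩
    refine ih (F \ C).card ?_ _ rfl hcl
    rw [← hFk]
    apply Finset.card_lt_card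
    rw [Finset.ssubset_iff_subset_ne]
    refine ⟨Finset.sdiff_subset, fun h => ?_⟩
    obtain ⟨c, hc⟩ := hCne
    have : c ∈ F \ C := by rw [h]; exact hCF hc
    rw [Finset.mem_sdiff] at this
    exact this.2 hc
  -- components of type A
  have stepA : ∀ C : Finset V, C ⊆ F → C.Nonempty → S.Cl C → ∀ n, TypeA S C n →
      ∃ (M j : ℕ) (L : List ℕ), (∀ n ∈ L, 3 ≤ n) ∧
      S.m F ≤ (√3 - 1) * M + j / √3 + (L.map gg).sum ∧
      ∀ a ≤ 2 * M, ∀ p q, Zb L p q → S.Blk F (a + j + p) (2 * M - a + j + q) := by
    intro C hCF hCne hC n hA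
    obtain ⟨F', hd, hu, hF', M, j, L, hL, hm, hb⟩ := step C hCF hCne hC
    refine ⟨n + M, j, L, hL, ?_, ?_⟩
    · rw [← hu, S.m_union hd]
      have := hA.1
      push_cast
      linarith
    · intro a ha p q hZ
      rw [← hu]
      have h1 := hA.2 (min a (2 * n)) (min_le_right _ _)
      have h2 := hb (a - min a (2 * n)) (by omega) p q hZ
      have h3 := h1.union h2 hC hF' hd
      have e1 : min a (2 * n) + (a - min a (2 * n) + j + p) = a + j + p := by omega
      have e2 : 2 * n - min a (2 * n) + (2 * M - (a - min a (2 * n)) + j + q)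
        = 2 * (n + M) - a + j + q := by omega
      rw [e1, e2] at h3
      exact h3
  by_cases hP : ∃ a b c d, a ∈ F ∧ S.P4 a b c d
  · by_cases hno : S.NoC5 F
    · obtain ⟨a, b, c, d, ha, h⟩ := hP
      obtain ⟨C, hCF, hCne, hC, n, -, hA⟩ := corona hF hno h ha
      exact stepA C hCF hCne hC n hA
    · unfold NoC5 at hno
      push Not at hno
      obtain ⟨a, b, c, d, w, ha, h, wa, wd, wb, wc⟩ := hno
      have hwb : w ≠ b := by rintro rfl; exact h.bd.2 wd
      have hwc : w ≠ c := by rintro rfl; exact h.ac.2 (sy _ _ wa)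
      obtain ⟨hC, hA⟩ := c5 h wa wd wb wc hwb hwc
      refine stepA _ ?_ ⟨a, by simp⟩ hC 2 hA
      have hb := hF a ha b h.ab
      have hc := hF b hb c h.bc
      have hd := hF c hc d h.cd
      have hw := hF a ha w (sy _ _ wa)
      intro u hu
      simp only [Finset.mem_insert, Finset.mem_singleton] at hu
      rcases hu with rfl | rfl | rfl | rfl | rfl <;> assumption
  · push Not at hP
    obtain ⟨C, hCF, hCne, hC, hmC, hb11, hb0⟩ := clique hF hP hne
    have hpos : 0 < C.card := Finset.card_pos.mpr hCne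
    have r1 := r3_gt
    have r2 := r3_lt
    have s3 := sq3
    rcases Nat.lt_or_ge C.card 3 with hlt | hge
    · rcases Nat.lt_or_ge C.card 2 with hlt1 | hge2
      · -- an isolated vertex
        have h1 : C.card = 1 := by omega
        obtain ⟨F', hd, hu, hF', M, j, L, hL, hm, hb⟩ := step C hCF hCne hC
        refine ⟨M, j + 1, L, hL, ?_, ?_⟩
        · rw [← hu, S.m_union hd, hmC, h1]
          push_cast
          have e : (1 : ℝ) / (1 + (√3 - 1)) = 1 / √3 := by ring_nf
          rw [e, add_div]
          linarith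
        · intro a ha p q hZ
          rw [← hu]
          have h2 := hb a ha p q hZ
          have h3 := hb11.union h2 hC hF' hd
          have e1 : 1 + (a + j + p) = a + (j + 1) + p := by ring
          have e2 : 1 + (2 * M - a + j + q) = 2 * M - a + (j + 1) + q := by ring
          rw [e1, e2] at h3
          exact h3
      · -- an isolated edge
        have h2 : C.card = 2 := by omega
        refine stepA C hCF hCne hC 1 ⟨?_, ?_⟩
        · rw [hmC, h2]
          push_cast
          rw [div_le_iff₀ (by linarith)]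
          nlinarith
        · intro a ha
          have : a = 0 ∨ a = 1 ∨ a = 2 := by omega
          rw [h2] at hb0
          rcases this with rfl | rfl | rfl
          · exact hb0
          · exact hb11
          · exact hb0.swap
    · -- a large complete component
      obtain ⟨F', hd, hu, hF', M, j, L, hL, hm, hb⟩ := step C hCF hCne hC
      refine ⟨M, j, C.card :: L, ?_, ?_, ?_⟩
      · intro n hn
        rw [List.mem_cons] at hn
        rcases hn with rfl | hn
        · exact hge
        · exact hL n hn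
      · rw [← hu, S.m_union hd, hmC, List.map_cons, List.sum_cons]
        have : gg C.card = (C.card : ℝ) / (C.card + (√3 - 1)) := rfl
        rw [← this]
        linarith
      · intro a ha p q hZ
        rw [← hu]
        rcases hZ with ⟨p', q', rfl, rfl, hZ⟩ | ⟨p', rfl, hZ⟩ | ⟨q', rfl, hZ⟩
        · have h3 := hb11.union (hb a ha p' q' hZ) hC hF' hd
          have e1 : 1 + (a + j + p') = a + j + (p' + 1) := by ring
          have e2 : 1 + (2 * M - a + j + q') = 2 * M - a + j + (q' + 1) := by ring
          rw [e1, e2] at h3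
          exact h3
        · have h3 := hb0.swap.union (hb a ha p' q hZ) hC hF' hd
          have e1 : C.card + (a + j + p') = a + j + (p' + C.card) := by ring
          have e2 : 0 + (2 * M - a + j + q) = 2 * M - a + j + q := by ring
          rw [e1, e2] at h3
          exact h3
        · have h3 := hb0.union (hb a ha p q' hZ) hC hF' hd
          have e1 : 0 + (a + j + p) = a + j + p := by ring
          have e2 : C.card + (2 * M - a + j + q') = 2 * M - a + j + (q' + C.card) := by ring
          rw [e1, e2] at h3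
          exact h3

theorem total_le (h77 : ¬ S.Blk univ 7 7) : S.m univ ≤ 1 + 2 * √3 := by
  obtain ⟨M, j, L, hL, hm, hb⟩ := summary (S := S) _ univ rfl (fun _ _ w _ => Finset.mem_univ w)
  have hnb : ∀ a ≤ 2 * M, ∀ p q, Zb L p q → ¬ (7 ≤ a + j + p ∧ 7 ≤ 2 * M - a + j + q) := by
    intro a ha p q hZ h
    exact h77 ((hb a ha p q hZ).mono h.1 h.2)
  have r1 := r3_gt
  have r2 := r3_lt
  have s3 := sq3
  have hj : (j : ℝ) / √3 ≤ (√3 - 1) * j := by
    rw [div_le_iff₀ (by linarith)]
    have : (0 : ℝ) ≤ j := Nat.cast_nonneg j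
    nlinarith
  have hdiag := hnb M (by omega) _ _ (Zb_diag L)
  match L, hL, hm, hnb, hdiag with
  | [], _, hm, _, hdiag =>
    simp only [List.length_nil, List.map_nil, List.sum_nil] at hdiag hm
    have h1 : M + j ≤ 6 := by omega
    have h2 : (M : ℝ) + j ≤ 6 := by exact_mod_cast h1
    nlinarith
  | [n], hL, hm, hnb, hdiag =>
    simp only [List.length_singleton, List.map_cons, List.map_nil, List.sum_cons, List.sum_nil,
      add_zero] at hdiag hm
    have h1 : M + j ≤ 5 := by omega
    have hn3 : 3 ≤ n := hL n (by simp)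
    rcases Nat.lt_or_ge (M + j) 5 with hlt | hge
    · have h2 : (M : ℝ) + j ≤ 4 := by exact_mod_cast (by omega : M + j ≤ 4)
      have h3 := gg_le_one n
      nlinarith
    · have h5 : M + j = 5 := by omega
      have h5' : (M : ℝ) + j = 5 := by exact_mod_cast h5
      rcases Nat.lt_or_ge n 4 with hn | hn
      · have hn' : n = 3 := by omega
        subst hn'
        have h6 : gg 3 = 3 * (2 - √3) := by
          unfold gg
          push_cast
          rw [div_eq_iff (by linarith)]
          nlinarith
        rw [h6] at hm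
        nlinarith
      · rcases Nat.lt_or_ge j 4 with hj4 | hj4
        · exfalso
          have hZ : Zb [n] 0 n := by
            refine Or.inr (Or.inr ⟨0, by simp, rfl, rfl⟩)
          have := hnb (7 - j) (by omega) 0 n hZ
          omega
        · have h3 := gg_le_one n
          have hM1 : (M : ℝ) ≤ 1 := by exact_mod_cast (by omega : M ≤ 1)
          have hj5 : (j : ℝ) / √3 = (5 - M) / √3 := by
            rw [← h5']; ring
          rw [hj5] at hm
          have hd : (5 - (M : ℝ)) / √3 = (5 - M) * (√3 / 3) := by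
            rw [div_eq_iff (by linarith)]
            nlinarith
          rw [hd] at hm
          nlinarith
  | n1 :: n2 :: L', hL, hm, hnb, hdiag =>
    set LL := n1 :: n2 :: L' with hLL
    have hlen : LL.length = L'.length + 2 := by simp [hLL]
    have hn1 : 3 ≤ n1 := hL n1 (by simp [hLL])
    have hn2 : 3 ≤ n2 := hL n2 (by simp [hLL])
    have hZ : Zb LL (L'.length + n1) (L'.length + n2) := by
      refine Or.inr (Or.inl ⟨L'.length, rfl, ?_⟩)
      exact Or.inr (Or.inr ⟨L'.length, rfl, Zb_diag L'⟩)
    have h6 := hnb M (by omega) _ _ hZ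
    have hMj : M + j + LL.length ≤ 5 := by
      rw [hlen]
      omega
    have hMj' : (M : ℝ) + j + LL.length ≤ 5 := by exact_mod_cast hMj
    have hs := sum_gg_le LL
    rcases Nat.lt_or_ge LL.length 4 with hb4 | hb4
    · have hb3 : (LL.length : ℝ) ≤ 3 := by exact_mod_cast (by omega : LL.length ≤ 3)
      nlinarith
    · by_cases hall : ∀ n ∈ LL, n ≤ 6
      · have hs6 := sum_gg_le_six LL hall
        have hb4' : (4 : ℝ) ≤ LL.length := by exact_mod_cast hb4
        have hb5' : (LL.length : ℝ) ≤ 5 := by exact_mod_cast (by omega : LL.length ≤ 5)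
        have h6b : 6 / (5 + √3) ≤ (0.8914 : ℝ) := by
          rw [div_le_iff₀ (by linarith)]
          linarith
        have h7 : (LL.length : ℝ) * (6 / (5 + √3)) ≤ LL.length * 0.8914 :=
          mul_le_mul_of_nonneg_left h6b (by linarith)
        nlinarith
      · exfalso
        push Not at hall
        obtain ⟨n, hn, hn7⟩ := hall
        obtain ⟨q, hq, hZq⟩ := Zb_big LL hL n hn
        have := hnb 0 (by omega) n q hZq
        omega

end Sys

end Pool.Agent.Lib_helper17.ED
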