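import Pool.Agent.Lib_helper17.ED.Struct

/-!
Zero blocks, closed sets, and the components that are not complete graphs.
-/

namespace Pool.Agent.Lib_helper17.ED

open Finset

set_option linter.unusedSimpArgs false
set_option linter.unusedSectionVars false

namespace Sys

variable {V : Type*} [Fintype V] [DecidableEq V] (S : Sys V)

/-- closed under adjacency -/
def Cl (F : Finset V) : Prop := ∀ u ∈ F, ∀ w, S.A u w → w ∈ F

/-- zero block inside `F` -/
def Blk (F : Finset V) (p q : ℕ) : Prop :=
  ∃ P Q : Finset V, P ⊆ F ∧ Q ⊆ F ∧ P.card = p ∧ Q.card = q ∧ ∀ u ∈ P, ∀ w ∈ Q, ¬ S.A u w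

variable {S}

theorem Blk.swap {F : Finset V} {p q : ℕ} (h : S.Blk F p q) : S.Blk F q p := by
  obtain ⟨P, Q, h1, h2, h3, h4, h5⟩ := h
  exact ⟨Q, P, h2, h1, h4, h3, fun u hu w hw h' => h5 w hw u hu (S.symm _ _ h')⟩

theorem Blk.mono {F : Finset V} {p q p' q' : ℕ} (h : S.Blk F p q) (hp : p' ≤ p) (hq : q' ≤ q) :
    S.Blk F p' q' := by
  obtain ⟨P, Q, h1, h2, h3, h4, h5⟩ := h
  obtain ⟨P', hP', hP'c⟩ := Finset.exists_subset_card_eq (h3 ▸ hp : p' ≤ P.card)
  obtain ⟨Q', hQ', hQ'c⟩ := Finset.exists_subset_card_eq (h4 ▸ hq : q' ≤ Q.card)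
  exact ⟨P', Q', hP'.trans h1, hQ'.trans h2, hP'c, hQ'c,
    fun u hu w hw => h5 u (hP' hu) w (hQ' hw)⟩

theorem Blk.mono_set {F G : Finset V} {p q : ℕ} (h : S.Blk F p q) (hFG : F ⊆ G) :
    S.Blk G p q := by
  obtain ⟨P, Q, h1, h2, h3⟩ := h
  exact ⟨P, Q, h1.trans hFG, h2.trans hFG, h3⟩

theorem Blk.union {F G : Finset V} {p q p' q' : ℕ} (h : S.Blk F p q) (h' : S.Blk G p' q')
    (hF : S.Cl F) (hG : S.Cl G) (hd : Disjoint F G) : S.Blk (F ∪ G) (p + p') (q + q') := by
  obtain ⟨P, Q, h1, h2, h3, h4, h5⟩ := h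
  obtain ⟨P', Q', k1, k2, k3, k4, k5⟩ := h'
  refine ⟨P ∪ P', Q ∪ Q', Finset.union_subset_union h1 k1, Finset.union_subset_union h2 k2,
    ?_, ?_, ?_⟩
  · rw [Finset.card_union_of_disjoint (Finset.disjoint_of_subset_left h1
      (Finset.disjoint_of_subset_right k1 hd)), h3, k3]
  · rw [Finset.card_union_of_disjoint (Finset.disjoint_of_subset_left h2
      (Finset.disjoint_of_subset_right k2 hd)), h4, k4]
  · intro u hu w hw hA
    rw [Finset.mem_union] at hu hw
    rcases hu with hu | hu <;> rcases hw with hw | hw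
    · exact h5 u hu w hw hA
    · exact Finset.disjoint_left.mp hd (hF u (h1 hu) w hA) (k2 hw)
    · exact Finset.disjoint_left.mp hd (h2 hw) (hG u (k1 hu) w hA)
    · exact k5 u hu w hw hA

/-- a non-complete type of component -/
def TypeA (S : Sys V) (F : Finset V) (n : ℕ) : Prop :=
  S.m F ≤ (√3 - 1) * n ∧ ∀ a ≤ 2 * n, S.Blk F a (2 * n - a)

/-- the five-cycle component -/
theorem c5 {a b c d w : V} (h : S.P4 a b c d) (wa : S.A w a) (wd : S.A w d) (wb : ¬ S.A w b)
    (wc : ¬ S.A w c) (hwb : w ≠ b) (hwc : w ≠ c) :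
    S.Cl {a, b, c, d, w} ∧ TypeA S {a, b, c, d, w} 2 := by
  have sy := S.symm
  have hwa := A.ne wa
  have hwd := A.ne wd
  have Nwb : S.N w b := ⟨hwb, wb⟩
  have Nwc : S.N w c := ⟨hwc, wc⟩
  have p1 := h
  have p2 : S.P4 b c d w := ⟨h.bc, h.cd, sy _ _ wd, h.bd, Nwb.symm, Nwc.symm⟩
  have p3 : S.P4 c d w a := ⟨h.cd, sy _ _ wd, wa, Nwc.symm, h.ac.symm, h.ad.symm⟩
  have p4 : S.P4 d w a b := ⟨sy _ _ wd, wa, h.ab, h.ad.symm, h.bd.symm, Nwb⟩
  have p5 : S.P4 w a b c := ⟨wa, h.ab, h.bc, Nwb, Nwc, h.ac⟩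
  -- every other vertex is complete or anticomplete
  have hall : ∀ z, z ≠ a → z ≠ b → z ≠ c → z ≠ d → z ≠ w →
      (¬ S.A z a ∧ ¬ S.A z b ∧ ¬ S.A z c ∧ ¬ S.A z d ∧ ¬ S.A z w) ∨
      (S.A z a ∧ S.A z b ∧ S.A z c ∧ S.A z d ∧ S.A z w) := by
    intro z za zb zc zd zw
    have t1 := p1.trace za zb zc zd
    have t2 := p2.trace zb zc zd zw
    have t3 := p3.trace zc zd zw za
    have t4 := p4.trace zd zw za zb
    have t5 := p5.trace zw za zb zc
    by_cases qa : S.A z a <;> by_cases qb : S.A z b <;> by_cases qc : S.A z c <;>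
      by_cases qd : S.A z d <;> by_cases qw : S.A z w <;>
      simp only [qa, qb, qc, qd, qw, not_true_eq_false, not_false_eq_true, and_true, and_false,
        or_false, or_true, true_and, false_and] at t1 t2 t3 t4 t5 ⊢
  -- no complete vertex
  have hnone : ∀ z, z ≠ a → z ≠ b → z ≠ c → z ≠ d → z ≠ w → ¬ S.A z a := by
    intro z za zb zc zd zw hza
    classical
    set F : Finset V := univ.filter (fun u => S.A u a ∧ S.A u c) with hF
    -- F = full vertices together with b
    have hzF := (hall z za zb zc zd zw).resolve_left (fun h' => h'.1 hza)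
    set G : Finset V := univ.filter (fun u => u ≠ b ∧ u ≠ d ∧ u ≠ w ∧ S.A u a ∧ S.A u c) with hG
    have hGm : ∀ u, u ∈ G ↔ (u ≠ b ∧ u ≠ d ∧ u ≠ w ∧ S.A u a ∧ S.A u c) := by
      intro u; simp [hG]
    have hGout : ∀ u ∈ G, u ≠ a ∧ u ≠ b ∧ u ≠ c ∧ u ≠ d ∧ u ≠ w := by
      intro u hu
      rw [hGm] at hu
      exact ⟨A.ne hu.2.2.2.1, hu.1, A.ne hu.2.2.2.2, hu.2.1, hu.2.2.1⟩
    have hGall : ∀ u ∈ G, S.A u a ∧ S.A u b ∧ S.A u c ∧ S.A u d ∧ S.A u w := by
      intro u hu
      obtain ⟨o1, o2, o3, o4, o5⟩ := hGout u hu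
      rw [hGm] at hu
      exact (hall u o1 o2 o3 o4 o5).resolve_left (fun h' => h'.1 hu.2.2.2.1)
    have hGin : ∀ u, u ≠ a → u ≠ b → u ≠ c → u ≠ d → u ≠ w →
        (S.A u a ∨ S.A u b ∨ S.A u c ∨ S.A u d ∨ S.A u w) → u ∈ G := by
      intro u ua ub uc ud uw hu
      have := (hall u ua ub uc ud uw).resolve_left (by
        rintro ⟨q1, q2, q3, q4, q5⟩
        rcases hu with hu | hu | hu | hu | hu <;> contradiction)
      rw [hGm]
      exact ⟨ub, ud, uw, this.1, this.2.2.1⟩
    have hzG : z ∈ G := hGin z za zb zc zd zw (Or.inl hza)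
    have hGcl : ∀ u ∈ G, ∀ v ∈ G, u ≠ v → S.A u v := by
      intro u hu v hv huv
      by_contra hn
      have k1 := hGall u hu
      have k2 := hGall v hv
      exact S.no_c4 k1.1 (sy _ _ k2.1) k2.2.2.1 (sy _ _ k1.2.2.1) ⟨huv, hn⟩ h.ac
    have nG : a ∉ G ∧ b ∉ G ∧ c ∉ G ∧ d ∉ G ∧ w ∉ G :=
      ⟨fun h' => (hGout a h').1 rfl, fun h' => (hGout b h').2.1 rfl,
        fun h' => (hGout c h').2.2.1 rfl, fun h' => (hGout d h').2.2.2.1 rfl,
        fun h' => (hGout w h').2.2.2.2 rfl⟩
    have hab := A.ne h.ab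
    have hbc := A.ne h.bc
    have hcd := A.ne h.cd
    have hac := h.ac.1
    have had := h.ad.1
    have hbd := h.bd.1
    -- the equations on the cycle
    have cyc : ∀ x1 x2 x3 : V, S.A x1 x2 → S.A x1 x3 → x2 ≠ x3 → x2 ∉ G → x3 ∉ G →
        (∀ u ∈ G, S.A x1 u) →
        √3 * S.y x1 + (S.y x2 + (S.y x3 + S.m G)) ≤ 1 := by
      intro x1 x2 x3 q1 q2 q3 q4 q5 q6
      have := S.le_of (u := x1) (F := insert x2 (insert x3 G)) (by
        intro v hv
        simp only [Finset.mem_insert] at hv
        rcases hv with rfl | rfl | hv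
        · exact q1
        · exact q2
        · exact q6 v hv)
      rwa [S.m_insert (by simp [q3, q4]), S.m_insert q5] at this
    have cyc' : ∀ x1 x2 x3 : V, S.A x1 x2 → S.A x1 x3 → x2 ≠ x3 → x2 ∉ G → x3 ∉ G →
        (∀ u ∈ G, S.A x1 u) → (∀ u, S.A x1 u → u = x2 ∨ u = x3 ∨ u ∈ G) →
        √3 * S.y x1 + (S.y x2 + (S.y x3 + S.m G)) = 1 := by
      intro x1 x2 x3 q1 q2 q3 q4 q5 q6 q7
      have := S.eq_of (u := x1) (F := insert x2 (insert x3 G)) (by
        intro v
        simp only [Finset.mem_insert]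
        constructor
        · rintro (rfl | rfl | hv)
          · exact q1
          · exact q2
          · exact q6 v hv
        · exact q7 v)
      rwa [S.m_insert (by simp [q3, q4]), S.m_insert q5] at this
    have ea := cyc' a b w h.ab (sy _ _ wa) hwb.symm nG.2.1 nG.2.2.2.2
      (fun u hu => sy _ _ (hGall u hu).1) (by
        intro u hu
        by_cases q1 : u = b
        · exact Or.inl q1
        · by_cases q2 : u = w
          · exact Or.inr (Or.inl q2)
          · refine Or.inr (Or.inr (hGin u (A.ne hu).symm q1 ?_ ?_ q2 (Or.inl (sy _ _ hu))))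
            · rintro rfl; exact h.ac.2 hu
            · rintro rfl; exact h.ad.2 hu)
    have eb := cyc' b a c (sy _ _ h.ab) h.bc hac nG.1 nG.2.2.1
      (fun u hu => sy _ _ (hGall u hu).2.1) (by
        intro u hu
        by_cases q1 : u = a
        · exact Or.inl q1
        · by_cases q2 : u = c
          · exact Or.inr (Or.inl q2)
          · refine Or.inr (Or.inr (hGin u q1 (A.ne hu).symm q2 ?_ ?_
              (Or.inr (Or.inl (sy _ _ hu)))))
            · rintro rfl; exact h.bd.2 hu
            · rintro rfl; exact wb (sy _ _ hu))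
    have ec := cyc' c b d (sy _ _ h.bc) h.cd hbd nG.2.1 nG.2.2.2.1
      (fun u hu => sy _ _ (hGall u hu).2.2.1) (by
        intro u hu
        by_cases q1 : u = b
        · exact Or.inl q1
        · by_cases q2 : u = d
          · exact Or.inr (Or.inl q2)
          · refine Or.inr (Or.inr (hGin u ?_ q1 (A.ne hu).symm q2 ?_
              (Or.inr (Or.inr (Or.inl (sy _ _ hu))))))
            · rintro rfl; exact h.ac.2 (sy _ _ hu)
            · rintro rfl; exact wc (sy _ _ hu))
    have ed := cyc' d c w (sy _ _ h.cd) (sy _ _ wd) hwc.symm nG.2.2.1 nG.2.2.2.2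
      (fun u hu => sy _ _ (hGall u hu).2.2.2.1) (by
        intro u hu
        by_cases q1 : u = c
        · exact Or.inl q1
        · by_cases q2 : u = w
          · exact Or.inr (Or.inl q2)
          · refine Or.inr (Or.inr (hGin u ?_ ?_ q1 (A.ne hu).symm q2
              (Or.inr (Or.inr (Or.inr (Or.inl (sy _ _ hu)))))))
            · rintro rfl; exact h.ad.2 (sy _ _ hu)
            · rintro rfl; exact h.bd.2 (sy _ _ hu))
    have ew := cyc' w a d wa wd had nG.1 nG.2.2.2.1
      (fun u hu => sy _ _ (hGall u hu).2.2.2.2) (by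
        intro u hu
        by_cases q1 : u = a
        · exact Or.inl q1
        · by_cases q2 : u = d
          · exact Or.inr (Or.inl q2)
          · refine Or.inr (Or.inr (hGin u q1 ?_ ?_ q2 (A.ne hu).symm
              (Or.inr (Or.inr (Or.inr (Or.inr (sy _ _ hu)))))))
            · rintro rfl; exact wb hu
            · rintro rfl; exact wc hu)
    -- the equation at z
    have ez : √3 * S.y z + (S.y a + (S.y b + (S.y c + (S.y d + (S.y w + S.m (G.erase z)))))) ≤ 1 := by
      have := S.le_of (u := z) (F := insert a (insert b (insert c (insert d (insert w (G.erase z)))))) (by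
        intro v hv
        simp only [Finset.mem_insert] at hv
        have hz5 := hGall z hzG
        rcases hv with rfl | rfl | rfl | rfl | rfl | hv
        · exact hz5.1
        · exact hz5.2.1
        · exact hz5.2.2.1
        · exact hz5.2.2.2.1
        · exact hz5.2.2.2.2
        · rw [Finset.mem_erase] at hv
          exact hGcl z hzG v hv.2 hv.1.symm)
      rw [S.m_insert, S.m_insert, S.m_insert, S.m_insert, S.m_insert] at this
      · exact this
      · simp [nG.2.2.2.2]
      · simp [nG.2.2.2.1, hwd.symm]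
      · simp [nG.2.2.1, hcd, hwc.symm]
      · simp [nG.2.1, hbc, hbd, hwb.symm]
      · simp [nG.1, hab, hac, had, hwa.symm]
    have hmz : S.m G = S.y z + S.m (G.erase z) := by
      rw [← S.m_insert (Finset.notMem_erase z G), Finset.insert_erase hzG]
    have ya := S.pos a
    have yb := S.pos b
    have yc := S.pos c
    have yd := S.pos d
    have yw := S.pos w
    have yz := S.pos z
    have hGn := S.m_nonneg G
    have r1 := r3_gt
    have r2 := r3_lt
    have hG1 : S.m G < 1 := by nlinarith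
    set tot := S.y a + S.y b + S.y c + S.y d + S.y w with hs
    have e5 : (2 + √3) * tot + 5 * S.m G = 5 := by rw [hs]; linarith
    have e6 : tot + S.m G < 1 := by rw [hs]; nlinarith
    nlinarith
  have hab := A.ne h.ab
  have hbc := A.ne h.bc
  have hcd := A.ne h.cd
  have hac := h.ac.1
  have had := h.ad.1
  have hbd := h.bd.1
  have hcl : S.Cl {a, b, c, d, w} := by
    intro u hu v huv
    by_contra hv
    simp only [Finset.mem_insert, Finset.mem_singleton, not_or] at hu hv
    obtain ⟨v1, v2, v3, v4, v5⟩ := hv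
    have hz := (hall v v1 v2 v3 v4 v5).resolve_right
      (fun h' => hnone v v1 v2 v3 v4 v5 h'.1)
    have huv' := sy _ _ huv
    rcases hu with rfl | rfl | rfl | rfl | rfl
    · exact hz.1 huv'
    · exact hz.2.1 huv'
    · exact hz.2.2.1 huv'
    · exact hz.2.2.2.1 huv'
    · exact hz.2.2.2.2 huv'
  refine ⟨hcl, ?_, ?_⟩
  · -- mass
    have cyc : ∀ x1 x2 x3 : V, S.A x1 x2 → S.A x1 x3 → x2 ≠ x3 →
        √3 * S.y x1 + (S.y x2 + S.y x3) ≤ 1 := by
      intro x1 x2 x3 q1 q2 q3
      have := S.le_of (u := x1) (F := {x2, x3}) (by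
        intro v hv
        simp only [Finset.mem_insert, Finset.mem_singleton] at hv
        rcases hv with rfl | rfl
        · exact q1
        · exact q2)
      rwa [S.m_insert (by simp [q3]), S.m_sing] at this
    have ea := cyc a b w h.ab (sy _ _ wa) hwb.symm
    have eb := cyc b a c (sy _ _ h.ab) h.bc hac
    have ec := cyc c b d (sy _ _ h.bc) h.cd hbd
    have ed := cyc d c w (sy _ _ h.cd) (sy _ _ wd) hwc.symm
    have ew := cyc w a d wa wd had
    rw [S.m_insert, S.m_insert, S.m_insert, S.m_insert, S.m_sing]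
    · push_cast
      have r1 := r3_gt
      have r2 := r3_lt
      set tot := S.y a + S.y b + S.y c + S.y d + S.y w with hs
      have e5 : (2 + √3) * tot ≤ 5 := by rw [hs]; linarith
      have e6 : tot ≤ (√3 - 1) * 2 := by nlinarith [sq3]
      rw [hs] at e6
      linarith
    · simp [hwd.symm]
    · simp [hcd, hwc.symm]
    · simp [hbc, hbd, hwb.symm]
    · simp [hab, hac, had, hwa.symm]
  · -- blocks
    have b04 : S.Blk {a, b, c, d, w} 0 4 := by
      refine ⟨∅, {a, b, c, d}, by simp, ?_, by simp, ?_, by simp⟩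
      · intro v hv
        simp only [Finset.mem_insert, Finset.mem_singleton] at hv ⊢
        tauto
      · rw [Finset.card_insert_of_notMem, Finset.card_insert_of_notMem,
          Finset.card_insert_of_notMem, Finset.card_singleton]
        · simp [hcd]
        · simp [hbc, hbd]
        · simp [hab, hac, had]
    have b13 : S.Blk {a, b, c, d, w} 1 3 := by
      refine ⟨{a}, {a, c, d}, by simp, ?_, by simp, ?_, ?_⟩
      · intro v hv
        simp only [Finset.mem_insert, Finset.mem_singleton] at hv ⊢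
        tauto
      · rw [Finset.card_insert_of_notMem, Finset.card_insert_of_notMem, Finset.card_singleton]
        · simp [hcd]
        · simp [hac, had]
      · intro u hu v hv
        simp only [Finset.mem_insert, Finset.mem_singleton] at hu hv
        subst hu
        rcases hv with rfl | rfl | rfl
        · exact S.irr _
        · exact h.ac.2
        · exact h.ad.2
    have b22 : S.Blk {a, b, c, d, w} 2 2 := by
      refine ⟨{a, c}, {a, c}, ?_, ?_, ?_, ?_, ?_⟩
      · intro v hv
        simp only [Finset.mem_insert, Finset.mem_singleton] at hv ⊢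
        tauto
      · intro v hv
        simp only [Finset.mem_insert, Finset.mem_singleton] at hv ⊢
        tauto
      · rw [Finset.card_insert_of_notMem, Finset.card_singleton]
        simp [hac]
      · rw [Finset.card_insert_of_notMem, Finset.card_singleton]
        simp [hac]
      · intro u hu v hv
        simp only [Finset.mem_insert, Finset.mem_singleton] at hu hv
        rcases hu with rfl | rfl <;> rcases hv with rfl | rfl
        · exact S.irr _
        · exact h.ac.2
        · exact h.ac.symm.2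
        · exact S.irr _
    intro k hk
    have : k = 0 ∨ k = 1 ∨ k = 2 ∨ k = 3 ∨ k = 4 := by omega
    rcases this with rfl | rfl | rfl | rfl | rfl
    · exact b04
    · exact b13
    · exact b22
    · exact b13.swap
    · exact b04.swap

end Sys

end Pool.Agent.Lib_helper17.ED
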