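import Pool.Agent.Lib_helper17.ED.Blk

/-!
Components without five-cycle: coronas of complete graphs, and complete components.
-/

namespace Pool.Agent.Lib_helper17.ED

open Finset

set_option linter.unusedSimpArgs false
set_option linter.unusedSectionVars false

namespace Sys

variable {V : Type*} [Fintype V] [DecidableEq V] (S : Sys V)

/-- no five-cycle meeting `F` -/
def NoC5 (F : Finset V) : Prop := ∀ a b c d w, a ∈ F → S.P4 a b c d → S.A w a → S.A w d →
  S.A w b ∨ S.A w c

variable {S}

theorem no_full {F : Finset V} (hno : S.NoC5 F) {a b c d z : V}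
    (h : S.P4 a b c d) (ha : a ∈ F) (za : S.A z a) (zd : S.A z d) : False := by
  classical
  have sy := S.symm
  have hab := A.ne h.ab
  have hbc := A.ne h.bc
  have hcd := A.ne h.cd
  have hac := h.ac.1
  have had := h.ad.1
  have hbd := h.bd.1
  have hnb : ∀ u, S.A u a → S.A u d → u ≠ b ∧ u ≠ c := by
    intro u ua ud
    refine ⟨?_, ?_⟩
    · rintro rfl; exact h.bd.2 ud
    · rintro rfl; exact h.ac.2 (sy _ _ ua)
  have hfull : ∀ u, S.A u a → S.A u d → S.A u b ∧ S.A u c := by
    intro u ua ud
    obtain ⟨ub, uc⟩ := hnb u ua ud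
    have t := h.trace (A.ne ua) ub uc (A.ne ud)
    have t' := hno a b c d u ha h ua ud
    simp only [ua, ud, not_true_eq_false, false_and, true_and, and_true, and_false,
      false_or, or_false] at t
    rcases t with t | t
    · rcases t' with t' | t'
      · exact absurd t' t.1
      · exact absurd t' t.2
    · exact t
  set G : Finset V := univ.filter (fun u => S.A u a ∧ S.A u d) with hG
  have hGm : ∀ u, u ∈ G ↔ S.A u a ∧ S.A u d := by intro u; simp [hG]
  set X : Finset V := univ.filter (fun u => S.A u a ∧ u ≠ b) with hX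
  have hXm : ∀ u, u ∈ X ↔ S.A u a ∧ u ≠ b := by intro u; simp [hX]
  set X' : Finset V := univ.filter (fun u => S.A u d ∧ u ≠ c) with hX'
  have hXm' : ∀ u, u ∈ X' ↔ S.A u d ∧ u ≠ c := by intro u; simp [hX']
  have hinter : X ∩ X' = G := by
    ext u
    rw [Finset.mem_inter, hXm, hXm', hGm]
    constructor
    · rintro ⟨⟨q1, -⟩, q2, -⟩; exact ⟨q1, q2⟩
    · rintro ⟨q1, q2⟩
      exact ⟨⟨q1, (hnb u q1 q2).1⟩, q2, (hnb u q1 q2).2⟩
  have hzG : z ∈ G := (hGm z).mpr ⟨za, zd⟩
  obtain ⟨zb, zc⟩ := hfull z za zd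
  -- z is adjacent to X
  have hzX : ∀ u ∈ X, u ≠ z → S.A z u := by
    intro u hu huz
    rw [hXm] at hu
    have uc : u ≠ c := by rintro rfl; exact h.ac.2 (sy _ _ hu.1)
    have ud : u ≠ d := by rintro rfl; exact h.ad.2 (sy _ _ hu.1)
    by_contra hn
    by_cases hud : S.A u d
    · exact S.no_c4 za (sy _ _ hu.1) hud (sy _ _ zd) ⟨huz.symm, hn⟩ h.ad
    · have t := h.trace (A.ne hu.1) hu.2 uc ud
      simp only [hu.1, hud, not_true_eq_false, false_and, true_and, and_true, and_false,
        false_or, or_false, not_false_eq_true] at t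
      have h' : S.P4 u b c d := ⟨t.1, h.bc, h.cd, ⟨uc, t.2⟩, ⟨ud, hud⟩, h.bd⟩
      have t2 := h'.trace huz.symm (hnb z za zd).1 (hnb z za zd).2 (A.ne zd)
      simp only [hn, zb, zc, zd, not_true_eq_false, false_and, true_and, and_true, and_false,
        false_or, or_false, not_false_eq_true] at t2
  have hzX' : ∀ u ∈ X', u ≠ z → S.A z u := by
    intro u hu huz
    rw [hXm'] at hu
    have ub : u ≠ b := by rintro rfl; exact h.bd.2 hu.1
    have ua : u ≠ a := by rintro rfl; exact h.ad.2 hu.1
    by_contra hn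
    by_cases hua : S.A u a
    · exact S.no_c4 zd (sy _ _ hu.1) hua (sy _ _ za) ⟨huz.symm, hn⟩ h.ad.symm
    · have t := h.trace ua ub hu.2 (A.ne hu.1)
      simp only [hu.1, hua, not_true_eq_false, false_and, true_and, and_true, and_false,
        false_or, or_false, not_false_eq_true] at t
      have h' : S.P4 a b c u := ⟨h.ab, h.bc, sy _ _ t.2, h.ac, ⟨ua.symm, fun q => hua (sy _ _ q)⟩,
        ⟨ub.symm, fun q => t.1 (sy _ _ q)⟩⟩
      have t2 := h'.trace (A.ne za) (hnb z za zd).1 (hnb z za zd).2 huz.symm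
      simp only [hn, zb, zc, za, not_true_eq_false, false_and, true_and, and_true, and_false,
        false_or, or_false, not_false_eq_true] at t2
  -- equations
  have ea : √3 * S.y a + (S.y b + S.m X) = 1 := by
    rw [← S.m_insert (by simp [hXm])]
    apply S.eq_of
    intro u
    rw [Finset.mem_insert, hXm]
    constructor
    · rintro (rfl | hu)
      · exact h.ab
      · exact sy _ _ hu.1
    · intro hu
      by_cases hub : u = b
      · exact Or.inl hub
      · exact Or.inr ⟨sy _ _ hu, hub⟩
  have ed : √3 * S.y d + (S.y c + S.m X') = 1 := by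
    rw [← S.m_insert (by simp [hXm'])]
    apply S.eq_of
    intro u
    rw [Finset.mem_insert, hXm']
    constructor
    · rintro (rfl | hu)
      · exact sy _ _ h.cd
      · exact sy _ _ hu.1
    · intro hu
      by_cases hub : u = c
      · exact Or.inl hub
      · exact Or.inr ⟨sy _ _ hu, hub⟩
  have hXX : S.m X + S.m X' = S.m (X ∪ X') + S.m G := by
    rw [← hinter]
    exact (Finset.sum_union_inter).symm
  have hzU : z ∈ X ∪ X' := Finset.mem_union_left _ ((hXm z).mpr ⟨za, (hnb z za zd).1⟩)
  have hUe : S.m (X ∪ X') = S.y z + S.m ((X ∪ X').erase z) := by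
    rw [← S.m_insert (Finset.notMem_erase z _), Finset.insert_erase hzU]
  have nU : a ∉ X ∪ X' ∧ b ∉ X ∪ X' ∧ c ∉ X ∪ X' ∧ d ∉ X ∪ X' := by
    simp only [Finset.mem_union, hXm, hXm', not_or]
    refine ⟨⟨fun q => S.irr _ q.1, fun q => h.ad.2 q.1⟩, ⟨fun q => q.2 rfl, fun q => h.bd.2 q.1⟩,
      ⟨fun q => h.ac.2 (sy _ _ q.1), fun q => q.2 rfl⟩, ⟨fun q => h.ad.2 (sy _ _ q.1),
        fun q => S.irr _ q.1⟩⟩
  have ez : √3 * S.y z + (S.y a + (S.y b + (S.y c + (S.y d + S.m ((X ∪ X').erase z))))) ≤ 1 := by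
    rw [← S.m_insert, ← S.m_insert, ← S.m_insert, ← S.m_insert]
    · apply S.le_of
      intro v hv
      simp only [Finset.mem_insert, Finset.mem_erase, Finset.mem_union] at hv
      rcases hv with rfl | rfl | rfl | rfl | ⟨hv1, hv2 | hv2⟩
      · exact za
      · exact zb
      · exact zc
      · exact zd
      · exact hzX v hv2 hv1
      · exact hzX' v hv2 hv1
    · simp only [Finset.mem_insert, Finset.mem_erase, not_or, not_and]
      exact ⟨hab, hac, had, fun _ => nU.1⟩
    · simp only [Finset.mem_insert, Finset.mem_erase, not_or, not_and]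
      exact ⟨hbc, hbd, fun _ => nU.2.1⟩
    · simp only [Finset.mem_insert, Finset.mem_erase, not_or, not_and]
      exact ⟨hcd, fun _ => nU.2.2.1⟩
    · simp only [Finset.mem_erase, not_and]
      exact fun _ => nU.2.2.2
  have hGX : S.m G ≤ S.m X := S.m_mono (by rw [← hinter]; exact Finset.inter_subset_left)
  have hGX' : S.m G ≤ S.m X' := S.m_mono (by rw [← hinter]; exact Finset.inter_subset_right)
  have ya := S.pos a
  have yb := S.pos b
  have yc := S.pos c
  have yd := S.pos d
  have yz := S.pos z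
  have r1 := r3_gt
  have r2 := r3_lt
  set g := S.m G with hg
  have k1 : √3 * S.y a + g ≤ 1 := by linarith
  have k2 : √3 * S.y d + g ≤ 1 := by linarith
  have k3 : 1 < (√3 - 1) * (S.y a + S.y d) + g := by
    have : 0 < (√3 - 1) * S.y z := mul_pos (by linarith) yz
    nlinarith
  have k4 : (√3 - 1) * (√3 * S.y a + g) ≤ (√3 - 1) * 1 :=
    mul_le_mul_of_nonneg_left k1 (by linarith)
  have k5 : (√3 - 1) * (√3 * S.y d + g) ≤ (√3 - 1) * 1 :=
    mul_le_mul_of_nonneg_left k2 (by linarith)
  have k6 : √3 * 1 < √3 * ((√3 - 1) * (S.y a + S.y d) + g) :=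
    mul_lt_mul_of_pos_left k3 (by linarith)
  have k7 : g < 1 := by
    have : 0 < √3 * S.y a := mul_pos (by linarith) ya
    linarith
  have k8 : (2 - √3) * g < (2 - √3) * 1 := mul_lt_mul_of_pos_left k7 (by linarith)
  nlinarith

theorem no_12_34 {a b c d w z : V} (h : S.P4 a b c d)
    (wa : S.A w a) (wb : S.A w b) (wc : S.N w c) (wd : S.N w d)
    (zd : S.A z d) (zc : S.A z c) (zb : S.N z b) (za : S.N z a) : False := by
  have sy := S.symm
  have hwz : w ≠ z := by rintro rfl; exact wc.2 zc
  by_cases hA : S.A w z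
  · exact S.no_c4 h.bc (sy _ _ zc) (sy _ _ hA) wb ⟨zb.1.symm, fun q => zb.2 (sy _ _ q)⟩ 
      ⟨wc.1.symm, fun q => wc.2 (sy _ _ q)⟩
  · exact S.no_h (sy _ _ h.ab) (sy _ _ wb) (sy _ _ wa) h.cd (sy _ _ zc) (sy _ _ zd) h.bc
      h.bd zb.symm h.ac h.ad za.symm wc wd ⟨hwz, hA⟩

theorem no_12 {F : Finset V} (hF : S.Cl F) (hno : S.NoC5 F) {a b c d w : V}
    (h : S.P4 a b c d) (ha : a ∈ F) (wa : S.A w a) (wb : w ≠ b) : False := by
  classical
  have sy := S.symm
  have hab := A.ne h.ab
  have hbc := A.ne h.bc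
  have hcd := A.ne h.cd
  have hac := h.ac.1
  have had := h.ad.1
  have hbd := h.bd.1
  -- traces of the neighbours of `a`
  have t12 : ∀ u, S.A u a → u ≠ b → u ≠ c ∧ u ≠ d ∧ S.A u b ∧ ¬ S.A u c ∧ ¬ S.A u d := by
    intro u ua ub
    have uc : u ≠ c := by rintro rfl; exact h.ac.2 (sy _ _ ua)
    have ud : u ≠ d := by rintro rfl; exact h.ad.2 (sy _ _ ua)
    have hud : ¬ S.A u d := fun q => no_full hno h ha ua q
    have t := h.trace (A.ne ua) ub uc ud
    simp only [ua, hud, not_true_eq_false, false_and, true_and, and_true, and_false,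
        false_or, or_false, not_false_eq_true] at t
    exact ⟨uc, ud, t.1, t.2, hud⟩
  obtain ⟨wc, wd, wbA, wcA, wdA⟩ := t12 w wa wb
  have hP' : S.P4 w b c d := ⟨wbA, h.bc, h.cd, ⟨wc, wcA⟩, ⟨wd, wdA⟩, h.bd⟩
  have hwF : w ∈ F := hF a ha w (sy _ _ wa)
  -- d is a leaf
  have hd : ∀ u, S.A d u → u = c := by
    intro u hu
    by_contra huc
    have ua : u ≠ a := by rintro rfl; exact h.ad.2 (sy _ _ hu)
    have ub : u ≠ b := by rintro rfl; exact h.bd.2 (sy _ _ hu)
    have hua : ¬ S.A u a := fun q => no_full hno h ha q (sy _ _ hu)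
    have t := h.trace ua ub huc (A.ne hu).symm
    simp only [hua, sy _ _ hu, not_true_eq_false, false_and, true_and, and_true, and_false,
        false_or, or_false, not_false_eq_true] at t
    exact no_12_34 h wa wbA ⟨wc, wcA⟩ ⟨wd, wdA⟩ (sy _ _ hu) t.2 ⟨ub, t.1⟩ ⟨ua, hua⟩
  set X : Finset V := univ.filter (fun u => S.A u a ∧ u ≠ b) with hX
  have hXm : ∀ u, u ∈ X ↔ S.A u a ∧ u ≠ b := by intro u; simp [hX]
  set T : Finset V := univ.filter (fun u => S.A u b ∧ S.A u c) with hT
  have hTm : ∀ u, u ∈ T ↔ S.A u b ∧ S.A u c := by intro u; simp [hT]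
  have hwX : w ∈ X := (hXm w).mpr ⟨wa, wb⟩
  have ea : √3 * S.y a + (S.y b + S.m X) = 1 := by
    rw [← S.m_insert (by simp [hXm])]
    apply S.eq_of
    intro u
    rw [Finset.mem_insert, hXm]
    constructor
    · rintro (rfl | hu)
      · exact h.ab
      · exact sy _ _ hu.1
    · intro hu
      by_cases hub : u = b
      · exact Or.inl hub
      · exact Or.inr ⟨sy _ _ hu, hub⟩
  have ew : √3 * S.y w + (S.y b + (S.y a + S.m (X.erase w))) = 1 := by
    rw [← S.m_insert (by simp [hXm, S.irr]), ← S.m_insert (by simp [hXm, hab.symm])]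
    apply S.eq_of
    intro u
    simp only [Finset.mem_insert, Finset.mem_erase, hXm]
    constructor
    · rintro (rfl | rfl | ⟨q1, q2, q3⟩)
      · exact wbA
      · exact wa
      · obtain ⟨uc, ud, ub, uc', ud'⟩ := t12 u q2 q3
        have t := hP'.trace q1 q3 uc ud
        simp only [ub, uc', ud', not_true_eq_false, false_and, true_and, and_true, and_false,
          false_or, or_false, not_false_eq_true] at t
        exact sy _ _ t
    · intro hu
      by_cases q1 : u = b
      · exact Or.inl q1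
      by_cases q2 : u = a
      · exact Or.inr (Or.inl q2)
      have uc : u ≠ c := by rintro rfl; exact wcA hu
      have ud : u ≠ d := by rintro rfl; exact wdA hu
      have hud : ¬ S.A u d := fun q => no_full hno hP' hwF (sy _ _ hu) q
      have t := hP'.trace (A.ne hu).symm q1 uc ud
      simp only [sy _ _ hu, hud, not_true_eq_false, false_and, true_and, and_true, and_false,
        false_or, or_false, not_false_eq_true] at t
      have t2 := h.trace q2 q1 uc ud
      simp only [t.1, t.2, hud, not_true_eq_false, false_and, true_and, and_true, and_false,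
        false_or, or_false, not_false_eq_true] at t2
      exact Or.inr (Or.inr ⟨(A.ne hu).symm, t2, q1⟩)
  have hXe : S.m X = S.y w + S.m (X.erase w) := by
    rw [← S.m_insert (Finset.notMem_erase w _), Finset.insert_erase hwX]
  have hdXT : Disjoint X T := by
    rw [Finset.disjoint_left]
    intro u hu hu'
    rw [hXm] at hu
    rw [hTm] at hu'
    exact (t12 u hu.1 hu.2).2.2.2.1 hu'.2
  have eb : √3 * S.y b + (S.y c + (S.y a + (S.m X + S.m T))) = 1 := by
    rw [← S.m_union hdXT, ← S.m_insert, ← S.m_insert]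
    · apply S.eq_of
      intro u
      simp only [Finset.mem_insert, Finset.mem_union, hXm, hTm]
      constructor
      · rintro (rfl | rfl | q | q)
        · exact h.bc
        · exact sy _ _ h.ab
        · exact sy _ _ (t12 u q.1 q.2).2.2.1
        · exact sy _ _ q.1
      · intro hu
        by_cases q1 : u = c
        · exact Or.inl q1
        by_cases q2 : u = a
        · exact Or.inr (Or.inl q2)
        have ud : u ≠ d := by rintro rfl; exact h.bd.2 hu
        have t := h.trace q2 (A.ne hu).symm q1 ud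
        simp only [sy _ _ hu, not_true_eq_false, false_and, true_and, and_true, and_false,
          false_or, or_false, not_false_eq_true] at t
        rcases t with t | t | t
        · exact Or.inr (Or.inr (Or.inl ⟨t.1, (A.ne hu).symm⟩))
        · exact Or.inr (Or.inr (Or.inr ⟨sy _ _ hu, t.2.1⟩))
        · exact Or.inr (Or.inr (Or.inl ⟨t.1, (A.ne hu).symm⟩))
    · simp only [Finset.mem_insert, Finset.mem_union, hXm, hTm, not_or, not_and]
      exact ⟨hac.symm, fun q => absurd (sy _ _ q) h.ac.2, fun _ => S.irr _⟩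
    · simp only [Finset.mem_union, hXm, hTm, not_or, not_and]
      exact ⟨fun q => absurd q (S.irr _), fun _ => h.ac.2⟩
  have ec : √3 * S.y c + (S.y b + (S.y d + S.m T)) = 1 := by
    rw [← S.m_insert, ← S.m_insert]
    · apply S.eq_of
      intro u
      simp only [Finset.mem_insert, hTm]
      constructor
      · rintro (rfl | rfl | q)
        · exact sy _ _ h.bc
        · exact h.cd
        · exact sy _ _ q.2
      · intro hu
        by_cases q1 : u = b
        · exact Or.inl q1
        by_cases q2 : u = d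
        · exact Or.inr (Or.inl q2)
        have ua : u ≠ a := by rintro rfl; exact h.ac.2 (sy _ _ hu)
        have hud : ¬ S.A u d := fun q => (A.ne hu).symm (hd u (sy _ _ q))
        have t := h.trace ua q1 (A.ne hu).symm q2
        simp only [sy _ _ hu, hud, not_true_eq_false, false_and, true_and, and_true, and_false,
          false_or, or_false, not_false_eq_true] at t
        exact Or.inr (Or.inr ⟨t.2, sy _ _ hu⟩)
    · simp only [Finset.mem_insert, hTm, not_or, not_and]
      exact ⟨hbd, fun q => absurd q (S.irr _)⟩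
    · simp only [hTm, not_and]
      exact fun q => absurd (sy _ _ q) h.bd.2
  have ed : √3 * S.y d + S.y c = 1 := by
    rw [← S.m_sing c]
    apply S.eq_of
    intro u
    rw [Finset.mem_singleton]
    constructor
    · rintro rfl; exact sy _ _ h.cd
    · exact hd u
  have ya := S.pos a
  have yb := S.pos b
  have yc := S.pos c
  have yd := S.pos d
  have yw := S.pos w
  have hT0 := S.m_nonneg T
  have hXe0 := S.m_nonneg (X.erase w)
  have r1 := r3_gt
  have r2 := r3_lt
  set k := S.y a + S.m X with hk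
  set t := S.m T with ht
  have q1 : (√3 - 1) * S.y a + k = 1 - S.y b := by rw [hk]; linarith
  have q2 : (√3 - 1) * S.y w + k = 1 - S.y b := by rw [hk]; linarith
  have q3 : S.y a + S.y w ≤ k := by rw [hk]; linarith
  have q4 : 2 * (1 - S.y b) ≤ (√3 + 1) * k := by
    have := mul_le_mul_of_nonneg_left q3 (by linarith : (0:ℝ) ≤ √3 - 1)
    nlinarith
  have q5 : (√3 - 1) * (1 - S.y b) ≤ k := by
    have := mul_le_mul_of_nonneg_left q4 (by linarith : (0:ℝ) ≤ √3 - 1)
    have e : (√3 - 1) * ((√3 + 1) * k) = 2 * k := by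
      have := sq3
      nlinarith
    rw [e] at this
    linarith
  have q6 : √3 * S.y b + S.y c + k + t = 1 := by rw [hk]; linarith
  have q7 : S.y b + S.y c + t ≤ 2 - √3 := by nlinarith
  have q8 : √3 * (√3 * S.y c + (S.y b + (S.y d + t))) = √3 := by rw [ec]; ring
  have q9 : √3 * (S.y b + S.y c + t) ≤ √3 * (2 - √3) :=
    mul_le_mul_of_nonneg_left q7 (by linarith)
  have q10 : S.y c < 1 := by linarith
  have q11 : (2 - √3) * S.y c < (2 - √3) * 1 := mul_lt_mul_of_pos_left q10 (by linarith)
  have s3 := sq3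
  nlinarith

theorem leaf {F : Finset V} (hF : S.Cl F) (hno : S.NoC5 F) {a b c d : V}
    (h : S.P4 a b c d) (ha : a ∈ F) : ∀ u, S.A a u → u = b := by
  intro u hu
  by_contra hub
  exact no_12 hF hno h ha (S.symm _ _ hu) hub

theorem corona {F : Finset V} (hF : S.Cl F) (hno : S.NoC5 F) {a b c d : V}
    (h : S.P4 a b c d) (ha : a ∈ F) :
    ∃ C : Finset V, C ⊆ F ∧ C.Nonempty ∧ S.Cl C ∧ ∃ n, 1 ≤ n ∧ TypeA S C n := by
  classical
  have sy := S.symm
  have hbF : b ∈ F := hF a ha b h.ab
  have hla := leaf hF hno h ha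
  set D : Finset V := insert b ((S.nb b).erase a) with hD
  have hDm : ∀ u, u ∈ D ↔ u = b ∨ (u ≠ a ∧ S.A b u) := by
    intro u; simp [hD, S.mem_nb]
  have hbD : b ∈ D := (hDm b).mpr (Or.inl rfl)
  have haD : a ∉ D := by
    rw [hDm]
    rintro (q | q)
    · exact A.ne h.ab q
    · exact q.1 rfl
  have hDF : D ⊆ F := by
    intro u hu
    rw [hDm] at hu
    rcases hu with rfl | hu
    · exact hbF
    · exact hF b hbF u hu.2
  have hDcl : ∀ u ∈ D, ∀ v ∈ D, u ≠ v → S.A u v := by
    intro u hu v hv huv
    rw [hDm] at hu hv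
    rcases hu with rfl | hu
    · rcases hv with rfl | hv
      · exact absurd rfl huv
      · exact hv.2
    · rcases hv with rfl | hv
      · exact sy _ _ hu.2
      · by_contra hn
        refine S.no_claw (sy _ _ h.ab) hu.2 hv.2 ⟨hu.1.symm, fun q => ?_⟩
          ⟨hv.1.symm, fun q => ?_⟩ ⟨huv, hn⟩
        · exact (A.ne hu.2).symm (hla u q)
        · exact (A.ne hv.2).symm (hla v q)
  have hleaf : ∀ z, ∃ l, z ∈ D → l ∉ D ∧ l ∈ F ∧ (∀ u, S.A l u ↔ u = z) ∧
      (∀ u, S.A z u → u ∈ D ∨ u = l) := by
    intro z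
    by_cases hz : z ∈ D
    swap
    · exact ⟨z, fun q => absurd q hz⟩
    have hz' := hz
    rw [hDm] at hz'
    rcases hz' with rfl | hz'
    · refine ⟨a, fun _ => ⟨haD, ha, fun u => ⟨hla u, fun q => q ▸ h.ab⟩, fun u hu => ?_⟩⟩
      by_cases hua : u = a
      · exact Or.inr hua
      · exact Or.inl ((hDm u).mpr (Or.inr ⟨hua, hu⟩))
    · have hNaz : S.N a z := ⟨hz'.1.symm, fun q => (A.ne hz'.2).symm (hla z q)⟩
      obtain ⟨w, hw | hw⟩ := p3_ext h.ab hz'.2 hNaz
      · exact absurd (hla w (sy _ _ hw.ab)) hw.ac.1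
      · have hzF := hDF hz
        have hwF : w ∈ F := hF z hzF w hw.cd
        have hlw := leaf hF hno hw.rev hwF
        refine ⟨w, fun _ => ⟨?_, hwF, fun u => ⟨hlw u, fun q => q ▸ sy _ _ hw.cd⟩, fun u hu => ?_⟩⟩
        · rw [hDm]
          rintro (q | q)
          · exact hw.bd.1 q.symm
          · exact hw.bd.2 q.2
        · by_cases huw : u = w
          · exact Or.inr huw
          left
          rw [hDm]
          by_cases hub : u = b
          · exact Or.inl hub
          right
          have hua : u ≠ a := by rintro rfl; exact hNaz.2 (sy _ _ hu)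
          refine ⟨hua, ?_⟩
          have t := hw.trace hua hub (A.ne hu).symm huw
          have hua' : ¬ S.A u a := fun q => hub (hla u (sy _ _ q))
          have huw' : ¬ S.A u w := fun q => (A.ne hu).symm (hlw u (sy _ _ q))
          simp only [sy _ _ hu, hua', huw', not_true_eq_false, false_and, true_and, and_true,
            and_false, false_or, or_false, not_false_eq_true] at t
          exact sy _ _ t
  choose l hl using hleaf
  have hinj : Set.InjOn l (D : Set V) := by
    intro z hz z' hz' hzz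
    have h1 := (hl z hz).2.2.1 z
    have h2 := (hl z' hz').2.2.1 z
    rw [hzz] at h1
    exact h2.mp (h1.mpr rfl)
  have hdis : Disjoint D (D.image l) := by
    rw [Finset.disjoint_left]
    intro u hu hu'
    rw [Finset.mem_image] at hu'
    obtain ⟨z, hz, rfl⟩ := hu'
    exact (hl z hz).1 hu
  refine ⟨D ∪ D.image l, ?_, ⟨b, Finset.mem_union_left _ hbD⟩, ?_, D.card,
    Finset.card_pos.mpr ⟨b, hbD⟩, ?_, ?_⟩
  · intro u hu
    rw [Finset.mem_union, Finset.mem_image] at hu
    rcases hu with hu | ⟨z, hz, rfl⟩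
    · exact hDF hu
    · exact (hl z hz).2.1
  · intro u hu v huv
    rw [Finset.mem_union, Finset.mem_image] at hu ⊢
    rcases hu with hu | ⟨z, hz, rfl⟩
    · rcases (hl u hu).2.2.2 v huv with q | q
      · exact Or.inl q
      · exact Or.inr ⟨u, hu, q.symm⟩
    · left
      rw [((hl z hz).2.2.1 v).mp huv]
      exact hz
  · rw [S.m_union hdis]
    unfold m
    rw [Finset.sum_image hinj, ← Finset.sum_add_distrib]
    have : ∀ z ∈ D, S.y z + S.y (l z) ≤ √3 - 1 := by
      intro z hz
      have hA : S.A (l z) z := ((hl z hz).2.2.1 z).mpr rfl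
      have e1 := S.le_of (u := z) (F := {l z}) (by simpa using sy _ _ hA)
      have e2 := S.le_of (u := l z) (F := {z}) (by simpa using hA)
      rw [S.m_sing] at e1 e2
      have r1 := r3_gt
      have s3 := sq3
      have e3 : (√3 + 1) * (S.y z + S.y (l z)) ≤ 2 := by linarith
      have e4 := mul_le_mul_of_nonneg_left e3 (by linarith : (0:ℝ) ≤ √3 - 1)
      nlinarith
    calc _ ≤ ∑ z ∈ D, (√3 - 1) := Finset.sum_le_sum this
      _ = (√3 - 1) * (D.card : ℝ) := by rw [Finset.sum_const, nsmul_eq_mul]; ring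
  · -- blocks
    have main : ∀ k ≤ D.card, S.Blk (D ∪ D.image l) k (2 * D.card - k) := by
      intro k hk
      obtain ⟨D', hD', hD'c⟩ := Finset.exists_subset_card_eq hk
      refine ⟨D'.image l, (D \ D') ∪ D.image l, ?_, ?_, ?_, ?_, ?_⟩
      · exact (Finset.image_subset_image hD').trans Finset.subset_union_right
      · exact Finset.union_subset_union Finset.sdiff_subset subset_rfl
      · rw [Finset.card_image_of_injOn (hinj.mono (by exact_mod_cast hD')), hD'c]
      · rw [Finset.card_union_of_disjoint (Finset.disjoint_of_subset_left Finset.sdiff_subset hdis),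
          Finset.card_image_of_injOn hinj, Finset.card_sdiff_of_subset hD', hD'c]
        omega
      · intro u hu v hv hA
        rw [Finset.mem_image] at hu
        obtain ⟨z, hz, rfl⟩ := hu
        have hv' := ((hl z (hD' hz)).2.2.1 v).mp hA
        subst hv'
        rw [Finset.mem_union, Finset.mem_sdiff] at hv
        rcases hv with hv | hv
        · exact hv.2 hz
        · exact Finset.disjoint_left.mp hdis (hD' hz) hv
    intro k hk
    rcases le_or_gt k D.card with hk' | hk'
    · exact main k hk'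
    · have := (main (2 * D.card - k) (by omega)).swap
      have e : 2 * D.card - (2 * D.card - k) = k := by omega
      rwa [e] at this

theorem clique {F : Finset V} (hF : S.Cl F) (hno : ∀ a b c d, a ∈ F → ¬ S.P4 a b c d)
    (hne : F.Nonempty) :
    ∃ C : Finset V, C ⊆ F ∧ C.Nonempty ∧ S.Cl C ∧
      S.m C = (C.card : ℝ) / (C.card + (√3 - 1)) ∧ S.Blk C 1 1 ∧ S.Blk C 0 C.card := by
  classical
  have sy := S.symm
  obtain ⟨v, hv⟩ := hne
  have no3 : ∀ a b c, b ∈ F → S.A a b → S.A b c → ¬ S.N a c := by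
    intro a b c hb h1 h2 n
    obtain ⟨w, hw | hw⟩ := p3_ext h1 h2 n
    · have haF := hF b hb a (sy _ _ h1)
      exact hno w a b c (hF a haF w (sy _ _ hw.ab)) hw
    · exact hno a b c w (hF b hb a (sy _ _ h1)) hw
  set C : Finset V := insert v (S.nb v) with hC
  have hCm : ∀ u, u ∈ C ↔ u = v ∨ S.A v u := by intro u; simp [hC, S.mem_nb]
  have hCF : C ⊆ F := by
    intro u hu
    rw [hCm] at hu
    rcases hu with rfl | hu
    · exact hv
    · exact hF v hv u hu
  have hcl : ∀ u ∈ C, ∀ w ∈ C, u ≠ w → S.A u w := by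
    intro u hu w hw huw
    by_contra hn
    rw [hCm] at hu hw
    rcases hu with rfl | hu
    · rcases hw with rfl | hw
      · exact huw rfl
      · exact hn hw
    · rcases hw with rfl | hw
      · exact hn (sy _ _ hu)
      · exact no3 u v w hv (sy _ _ hu) hw ⟨huw, hn⟩
  have hclosed : S.Cl C := by
    intro u hu w huw
    by_cases huv : u = v
    · subst huv; exact (hCm w).mpr (Or.inr huw)
    · rw [hCm] at hu
      rcases hu with hu | hu
      · exact absurd hu huv
      rw [hCm]
      by_contra hw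
      rw [not_or] at hw
      exact no3 v u w (hF v hv u hu) hu huw ⟨fun q => hw.1 q.symm, hw.2⟩
  have hmass : ∀ u ∈ C, (√3 - 1) * S.y u + S.m C = 1 := by
    intro u hu
    have e1 : √3 * S.y u + S.m (C.erase u) = 1 := by
      apply S.eq_of
      intro w
      rw [Finset.mem_erase]
      constructor
      · rintro ⟨q1, q2⟩; exact hcl u hu w q2 q1.symm
      · intro q; exact ⟨(A.ne q).symm, hclosed u hu w q⟩
    have e2 : S.m C = S.y u + S.m (C.erase u) := by
      rw [← S.m_insert (Finset.notMem_erase u _), Finset.insert_erase hu]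
    linarith
  have hvC : v ∈ C := (hCm v).mpr (Or.inl rfl)
  refine ⟨C, hCF, ⟨v, hvC⟩, hclosed, ?_, ?_, ?_⟩
  · have hs : ∑ u ∈ C, ((√3 - 1) * S.y u + S.m C) = ∑ u ∈ C, (1 : ℝ) :=
      Finset.sum_congr rfl hmass
    rw [Finset.sum_add_distrib, ← Finset.mul_sum, Finset.sum_const, Finset.sum_const,
      nsmul_eq_mul, nsmul_eq_mul, mul_one] at hs
    have r1 := r3_gt
    have hpos : (0 : ℝ) < (C.card : ℝ) + (√3 - 1) := by
      have : (0 : ℝ) ≤ (C.card : ℝ) := Nat.cast_nonneg _
      linarith
    rw [eq_div_iff hpos.ne']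
    have : ∑ i ∈ C, S.y i = S.m C := rfl
    rw [this] at hs
    linarith
  · refine ⟨{v}, {v}, by simpa using hvC, by simpa using hvC, by simp, by simp, ?_⟩
    intro u hu w hw
    rw [Finset.mem_singleton] at hu hw
    subst hu; subst hw
    exact S.irr _
  · exact ⟨∅, C, by simp, subset_rfl, by simp, rfl, by simp⟩

end Sys

end Pool.Agent.Lib_helper17.ED
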