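import Pool.Agent.Lib_helper17.ED.FinThm

/-!
Coloured regularity graphs: if `K_{7,7}` does not embed then the quadratic form at
`p = (√3 - 1) / 2` is at least `(7 - 3 √3) / 22` on the simplex.
-/

namespace Pool.Agent.Lib_helper17.ED

open Finset

/-- the probability -/
noncomputable def pp : ℝ := (√3 - 1) / 2

/-- the value -/
noncomputable def qstar : ℝ := (7 - 3 * √3) / 22

open scoped Classical in
/-- the matrix of a coloured regularity graph: `wv` white vertices (others black),
`we` white edges, `be` black edges (others grey) -/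
noncomputable def mm {V : Type*} (wv : V → Prop) (we be : V → V → Prop) (u w : V) : ℝ :=
  if u = w then (if wv u then pp else 1 - pp)
  else if we u w then pp else if be u w then 1 - pp else 0

/-- `a`, `b` are the images of the two sides of `K_{7,7}` in a coloured regularity graph -/
structure Emb {V : Type*} (wv : V → Prop) (we be : V → V → Prop) (a b : Fin 7 → V) : Prop where
  ab_eq : ∀ i j, a i = b j → i = j ∧ ¬ wv (a i)
  ab_ne : ∀ i j, a i ≠ b j → ¬ we (a i) (b j) ∧ ¬ be (a i) (b j)
  aa_eq : ∀ i j, i ≠ j → a i = a j → wv (a i)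
  aa_ne : ∀ i j, i ≠ j → a i ≠ a j → ¬ be (a i) (a j)
  bb_eq : ∀ i j, i ≠ j → b i = b j → wv (b i)
  bb_ne : ∀ i j, i ≠ j → b i ≠ b j → ¬ be (b i) (b j)

theorem pp_pos : 0 < pp := by
  unfold pp
  have := Sys.r3_gt
  linarith

theorem pp_lt : pp < 1 / 2 := by
  unfold pp
  have := Sys.r3_lt
  linarith

theorem enum_pair {α : Type*} [DecidableEq α] (P Q : Finset α) (hP : P.card = 7)
    (hQ : Q.card = 7) : ∃ a b : Fin 7 → α, (∀ i, a i ∈ P) ∧ (∀ i, b i ∈ Q) ∧
      Function.Injective a ∧ Function.Injective b ∧ ∀ i j, a i = b j → i = j := by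
  classical
  let eP := P.equivFin.symm
  let a : Fin 7 → α := fun i => (eP (Fin.cast hP.symm i)).1
  have hainj : Function.Injective a := by
    intro i j hij
    have h1 := eP.injective (Subtype.ext hij)
    exact Fin.cast_injective _ h1
  have haP : ∀ i, a i ∈ P := fun i => (eP (Fin.cast hP.symm i)).2
  have hc : (P \ Q).card = (Q \ P).card := by
    have h1 := Finset.card_sdiff_add_card_inter P Q
    have h2 := Finset.card_sdiff_add_card_inter Q P
    rw [Finset.inter_comm] at h2
    omega
  let e := Finset.equivOfCardEq hc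
  let b : Fin 7 → α := fun i => if h : a i ∈ Q then a i
    else (e ⟨a i, Finset.mem_sdiff.mpr ⟨haP i, h⟩⟩).1
  have hb1 : ∀ i, a i ∈ Q → b i = a i := by
    intro i h
    simp only [b, h, dif_pos]
  have hb2 : ∀ i (h : a i ∉ Q), b i = (e ⟨a i, Finset.mem_sdiff.mpr ⟨haP i, h⟩⟩).1 := by
    intro i h
    simp only [b, h, dif_neg, not_false_eq_true]
  have hb3 : ∀ i, a i ∉ Q → b i ∈ Q ∧ b i ∉ P := by
    intro i h
    rw [hb2 i h]
    exact Finset.mem_sdiff.mp (e ⟨a i, Finset.mem_sdiff.mpr ⟨haP i, h⟩⟩).2
  refine ⟨a, b, haP, ?_, hainj, ?_, ?_⟩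
  · intro i
    by_cases h : a i ∈ Q
    · rw [hb1 i h]; exact h
    · exact (hb3 i h).1
  · intro i j hij
    by_cases hi : a i ∈ Q <;> by_cases hj : a j ∈ Q
    · rw [hb1 i hi, hb1 j hj] at hij
      exact hainj hij
    · exfalso
      rw [hb1 i hi] at hij
      exact (hb3 j hj).2 (hij ▸ haP i)
    · exfalso
      rw [hb1 j hj] at hij
      exact (hb3 i hi).2 (hij ▸ haP j)
    · rw [hb2 i hi, hb2 j hj] at hij
      have h1 := e.injective (Subtype.ext hij)
      have h2 : a i = a j := Subtype.mk.inj h1
      exact hainj h2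
  · intro i j hij
    by_cases hj : a j ∈ Q
    · rw [hb1 j hj] at hij
      exact hainj hij
    · exact absurd (hij ▸ haP i) (hb3 j hj).2

theorem crg_bound {V : Type*} [Fintype V] (wv : V → Prop) (we be : V → V → Prop)
    (hwe : ∀ u w, we u w → we w u) (hbe : ∀ u w, be u w → be w u)
    (hdis : ∀ u w, we u w → ¬ be u w)
    (hno : ∀ a b : Fin 7 → V, ¬ Emb wv we be a b)
    (x₀ : V → ℝ) (h0 : ∀ v, 0 ≤ x₀ v) (h1 : ∑ v, x₀ v = 1) :
    qstar ≤ qf (mm wv we be) x₀ := by
  classical
  by_contra hcon
  push Not at hcon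
  have hp0 := pp_pos
  have hp2 := pp_lt
  have r1 := Sys.r3_gt
  have r2 := Sys.r3_lt
  have s3 := Sys.sq3
  set M := mm wv we be with hM
  have hsymm : ∀ u w, M u w = M w u := by
    intro u w
    simp only [hM, mm]
    by_cases h : u = w
    · subst h; rfl
    · have h' : ¬ w = u := fun q => h q.symm
      have e1 : we u w ↔ we w u := ⟨hwe _ _, hwe _ _⟩
      have e2 : be u w ↔ be w u := ⟨hbe _ _, hbe _ _⟩
      simp only [h, h', if_false, e1, e2]
  have hMnn : ∀ u w, 0 ≤ M u w := by
    intro u w
    simp only [hM, mm]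
    split_ifs <;> linarith
  have hMuu : ∀ u, M u u ≤ 1 - pp := by
    intro u
    simp only [hM, mm, if_true]
    split_ifs <;> linarith
  have hMuup : ∀ u, pp ≤ M u u := by
    intro u
    simp only [hM, mm, if_true]
    split_ifs <;> linarith
  obtain ⟨F, x, q, hq, hxpos, hx0, hxs, hgrad, hpd⟩ := exists_min M hsymm x₀ h0 h1 _ hcon
  have hxn : ∀ v, 0 ≤ x v := by
    intro v
    by_cases hv : v ∈ F
    · exact (hxpos v hv).le
    · rw [hx0 v hv]
  have hFne : F.Nonempty := by
    by_contra h
    rw [Finset.not_nonempty_iff_eq_empty] at h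
    have : ∑ v, x v = 0 := Finset.sum_eq_zero fun v _ => hx0 v (by simp [h])
    linarith
  have hqpos : 0 < q := by
    obtain ⟨u, hu⟩ := hFne
    rw [← hgrad u hu]
    refine lt_of_lt_of_le (?_ : 0 < M u u * x u) (Finset.single_le_sum
      (f := fun w => M u w * x w) (fun w _ => mul_nonneg (hMnn u w) (hxn w))
      (Finset.mem_univ u))
    exact mul_pos (lt_of_lt_of_le hp0 (hMuup u)) (hxpos u hu)
  -- pairs
  have hpair : ∀ v ∈ F, ∀ w ∈ F, v ≠ w → 2 * M v w < M v v + M w w := by
    intro v hv w hw hvw
    have h := hpd (fun u => (if u = v then 1 else 0) - (if u = w then 1 else 0)) (by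
      intro u hu
      have h1 : u ≠ v := fun h => hu (h ▸ hv)
      have h2 : u ≠ w := fun h => hu (h ▸ hw)
      simp [h1, h2]) (by rw [Finset.sum_sub_distrib]; simp) (by
      intro h
      have := congrFun h v
      simp [hvw] at this)
    unfold qf at h
    simp only [sub_mul, mul_sub, Finset.sum_sub_distrib, ite_mul, mul_ite, one_mul, zero_mul,
      mul_one, mul_zero, Finset.sum_ite_eq', Finset.mem_univ, if_true] at h
    have e := hsymm v w
    linarith
  have hnb : ∀ v ∈ F, ∀ w ∈ F, v ≠ w → ¬ be v w := by
    intro v hv w hw hvw hb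
    have h := hpair v hv w hw hvw
    have e : M v w = 1 - pp := by
      have : ¬ we v w := fun q => hdis _ _ q hb
      simp [hM, mm, hvw, this, hb]
    have := hMuu v
    have := hMuu w
    linarith
  have hww : ∀ v ∈ F, ∀ w ∈ F, v ≠ w → wv v → wv w → ¬ we v w := by
    intro v hv w hw hvw h1 h2 hb
    have h := hpair v hv w hw hvw
    have e : M v w = pp := by simp [hM, mm, hvw, hb]
    have e1 : M v v = pp := by simp [hM, mm, h1]
    have e2 : M w w = pp := by simp [hM, mm, h2]
    linarith
  -- white vertices have only grey edges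
  have hwhite : ∀ w ∈ F, wv w → ∀ u ∈ F, u ≠ w → ¬ we w u := by
    intro w hw hwv u hu huw hwu
    set T : Finset V := F.filter (fun v => v = w ∨ we w v) with hT
    have hTm : ∀ v, v ∈ T ↔ v ∈ F ∧ (v = w ∨ we w v) := by intro v; simp [hT]
    have hwT : w ∈ T := (hTm w).mpr ⟨hw, Or.inl rfl⟩
    have huT : u ∈ T := (hTm u).mpr ⟨hu, Or.inr hwu⟩
    -- the sum over T
    have hrow : ∑ v, M w v * x v = pp * ∑ v ∈ T, x v := by
      rw [Finset.mul_sum, ← Finset.sum_subset (Finset.subset_univ T)]
      · refine Finset.sum_congr rfl fun v hv => ?_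
        rw [hTm] at hv
        congr 1
        by_cases hvw : v = w
        · subst hvw; simp [hM, mm, hwv]
        · have h1 : ¬ w = v := fun q => hvw q.symm
          have h2 : we w v := hv.2.resolve_left hvw
          simp [hM, mm, h1, h2]
      · intro v _ hv
        rw [hTm] at hv
        by_cases hvF : v ∈ F
        · have h1 : ¬ (v = w ∨ we w v) := fun q => hv ⟨hvF, q⟩
          rw [not_or] at h1
          have h2 : ¬ w = v := fun q => h1.1 q.symm
          have h3 : ¬ be w v := hnb w hw v hvF h2
          simp [hM, mm, h2, h1.2, h3]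
        · rw [hx0 v hvF]; ring
    have hTs : ∑ v ∈ T, x v = q / pp := by
      rw [hgrad w hw] at hrow
      rw [hrow]; field_simp
    set z : V → ℝ := fun v => if v ∈ T then x v else 0 with hz
    have hzs : ∑ v, z v = q / pp := by
      rw [← hTs, hz]
      simp [Finset.sum_ite_mem]
    have hf := hpd (fun v => z v + (-(q / pp)) * (if v = w then 1 else 0)) (by
      intro v hv
      have h1 : v ∉ T := fun q => hv ((hTm v).mp q).1
      have h2 : v ≠ w := fun q => hv (q ▸ hw)
      simp [hz, h1, h2]) (by
      rw [Finset.sum_add_distrib, ← Finset.mul_sum, hzs]; simp) (by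
      intro h
      have := congrFun h u
      simp only [huw, if_false, mul_zero, add_zero, Pi.zero_apply, hz, huT, if_true] at this
      exact (hxpos u hu).ne' this)
    rw [qf_add M hsymm] at hf
    have e1 : qf M (fun v => if v = w then (1 : ℝ) else 0) = pp := by
      have hMw : M w w = pp := by simp [hM, mm, hwv]
      unfold qf
      rw [Finset.sum_eq_single w, Finset.sum_eq_single w]
      · simp [hMw]
      · intro v _ hv; simp [hv]
      · intro hv; exact absurd (Finset.mem_univ w) hv
      · intro v _ hv; simp [hv]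
      · intro hv; exact absurd (Finset.mem_univ w) hv
    have e2 : bf M z (fun v => if v = w then (1 : ℝ) else 0) = q := by
      rw [bf_eq M _ _ hsymm]
      simp only [ite_mul, one_mul, zero_mul, Finset.sum_ite_eq', Finset.mem_univ, if_true]
      rw [← hgrad w hw]
      refine Finset.sum_congr rfl fun v _ => ?_
      by_cases hvT : v ∈ T
      · simp [hz, hvT]
      · have : z v = 0 := by simp [hz, hvT]
        rw [this]
        by_cases hvF : v ∈ F
        · have h1 : ¬ (v = w ∨ we w v) := fun q => hvT ((hTm v).mpr ⟨hvF, q⟩)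
          rw [not_or] at h1
          have h2 : ¬ w = v := fun q => h1.1 q.symm
          have h3 : ¬ be w v := hnb w hw v hvF h2
          simp [hM, mm, h2, h1.2, h3]
        · rw [hx0 v hvF]
    have e3 : qf M z ≤ q * (q / pp) := by
      have e4 : qf M z = bf M z z := rfl
      rw [e4, bf_eq M _ _ hsymm, ← hzs, Finset.mul_sum]
      refine Finset.sum_le_sum fun v _ => ?_
      by_cases hvT : v ∈ T
      · have hvF := ((hTm v).mp hvT).1
        have hzv : z v = x v := by simp [hz, hvT]
        have h5 : ∑ u, M v u * z u ≤ q := by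
          rw [← hgrad v hvF]
          refine Finset.sum_le_sum fun u _ => ?_
          refine mul_le_mul_of_nonneg_left ?_ (hMnn v u)
          simp only [hz]
          split_ifs
          · exact le_rfl
          · exact hxn u
        rw [hzv, mul_comm]
        exact mul_le_mul_of_nonneg_right h5 (hxn v)
      · have : z v = 0 := by simp [hz, hvT]
        rw [this]; simp
    rw [e1, e2] at hf
    have e5 : (-(q / pp)) ^ 2 * pp = q * (q / pp) := by field_simp
    have e6 : 2 * (-(q / pp)) * q = -2 * (q * (q / pp)) := by ring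
    rw [e5, e6] at hf
    linarith
  -- case distinction on the number of white vertices
  by_cases hW : ∃ w ∈ F, wv w
  · obtain ⟨w, hw, hwv⟩ := hW
    -- all the others are black
    have hblack : ∀ u ∈ F, u ≠ w → ¬ wv u := by
      intro u hu huw huv
      refine hno (fun _ => w) (fun _ => u) ⟨?_, ?_, ?_, ?_, ?_, ?_⟩
      · intro _ _ h; exact absurd h.symm huw
      · intro _ _ _; exact ⟨hwhite w hw hwv u hu huw, hnb w hw u hu (Ne.symm huw)⟩
      · intro _ _ _ _; exact hwv
      · intro _ _ _ h; exact absurd rfl h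
      · intro _ _ _ _; exact huv
      · intro _ _ _ h; exact absurd rfl h
    have hcard : (F.erase w).card ≤ 6 := by
      by_contra h7
      push Not at h7
      obtain ⟨B, hB, hBc⟩ := Finset.exists_subset_card_eq (by omega : 7 ≤ (F.erase w).card)
      let e := B.equivFin.symm
      have hcB : Fintype.card {x // x ∈ B} = 7 := by simp [hBc]
      let b : Fin 7 → V := fun i => (e (Fin.cast hBc.symm i)).1
      have hbB : ∀ i, b i ∈ B := fun i => (e (Fin.cast hBc.symm i)).2
      have hbinj : Function.Injective b := by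
        intro i j hij
        have h1 := e.injective (Subtype.ext hij)
        exact Fin.cast_injective _ h1
      have hbF : ∀ i, b i ∈ F ∧ b i ≠ w := fun i => by
        have := hB (hbB i)
        rw [Finset.mem_erase] at this
        exact ⟨this.2, this.1⟩
      refine hno (fun _ => w) b ⟨?_, ?_, ?_, ?_, ?_, ?_⟩
      · intro _ j h; exact absurd h.symm (hbF j).2
      · intro _ j _
        exact ⟨hwhite w hw hwv _ (hbF j).1 (hbF j).2, hnb w hw _ (hbF j).1 (Ne.symm (hbF j).2)⟩
      · intro _ _ _ _; exact hwv
      · intro _ _ _ h; exact absurd rfl h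
      · intro i j hij h; exact absurd (hbinj h) hij
      · intro i j hij h; exact hnb _ (hbF i).1 _ (hbF j).1 h
    -- the value
    have hxw : pp * x w ≤ q := by
      rw [← hgrad w hw]
      have e : M w w = pp := by simp [hM, mm, hwv]
      rw [← e]
      exact Finset.single_le_sum (f := fun v => M w v * x v)
        (fun v _ => mul_nonneg (hMnn w v) (hxn v)) (Finset.mem_univ w)
    have hxu : ∀ u ∈ F.erase w, x u ≤ q / (1 - pp) := by
      intro u hu
      rw [Finset.mem_erase] at hu
      have e : M u u = 1 - pp := by simp [hM, mm, hblack u hu.2 hu.1]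
      rw [le_div_iff₀ (by linarith), mul_comm, ← e, ← hgrad u hu.2]
      exact Finset.single_le_sum (f := fun v => M u v * x v)
        (fun v _ => mul_nonneg (hMnn u v) (hxn v)) (Finset.mem_univ u)
    have hsum : ∑ v, x v = x w + ∑ v ∈ F.erase w, x v := by
      rw [Finset.add_sum_erase F x hw]
      exact (Finset.sum_subset (Finset.subset_univ F) (fun v _ hv => hx0 v hv)).symm
    have hsum2 : ∑ v ∈ F.erase w, x v ≤ 6 * (q / (1 - pp)) := by
      have hnn : 0 ≤ q / (1 - pp) := div_nonneg hqpos.le (by linarith)
      calc ∑ v ∈ F.erase w, x v ≤ ∑ v ∈ F.erase w, q / (1 - pp) := Finset.sum_le_sum hxu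
        _ = ((F.erase w).card : ℝ) * (q / (1 - pp)) := by rw [Finset.sum_const, nsmul_eq_mul]
        _ ≤ 6 * (q / (1 - pp)) := by
          refine mul_le_mul_of_nonneg_right ?_ hnn
          exact_mod_cast hcard
    have hfin : 1 ≤ q / pp + 6 * (q / (1 - pp)) := by
      have : x w ≤ q / pp := by rw [le_div_iff₀ hp0]; linarith
      linarith
    have e7 : q / pp + 6 * (q / (1 - pp)) = q * ((1 + 5 * pp) / (pp * (1 - pp))) := by
      have : (1 : ℝ) - pp ≠ 0 := by linarith
      field_simp
      ring
    rw [e7] at hfin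
    have e8 : (1 + 5 * pp) / (pp * (1 - pp)) * qstar = 1 := by
      have h1 : pp * (1 - pp) ≠ 0 := mul_ne_zero hp0.ne' (by linarith)
      rw [div_mul_eq_mul_div, div_eq_one_iff_eq h1]
      unfold pp qstar
      nlinarith
    have e9 : 0 < (1 + 5 * pp) / (pp * (1 - pp)) := by
      apply div_pos (by linarith)
      exact mul_pos hp0 (by linarith)
    have e10 : q * ((1 + 5 * pp) / (pp * (1 - pp))) < qstar * ((1 + 5 * pp) / (pp * (1 - pp))) :=
      mul_lt_mul_of_pos_right hq e9
    linarith
  · push Not at hW
    -- only black vertices: the finite theorem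
    have hfb := fin_bound (V := {v // v ∈ F}) (fun a b => a ≠ b ∧ we a.1 b.1)
      (fun a b h => ⟨h.1.symm, hwe _ _ h.2⟩) (fun a h => h.1 rfl) (by
        intro P Q hP hQ
        by_contra hcon2
        push Not at hcon2
        obtain ⟨a, b, ha, hb, hainj, hbinj, hab⟩ := enum_pair P Q hP hQ
        refine hno (fun i => (a i).1) (fun i => (b i).1) ⟨?_, ?_, ?_, ?_, ?_, ?_⟩
        · intro i j h; exact ⟨hab i j (Subtype.ext h), hW _ (a i).2⟩
        · intro i j hij
          have hne : a i ≠ b j := fun q => hij (congrArg Subtype.val q)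
          exact ⟨hcon2 _ (ha i) _ (hb j) hne, hnb _ (a i).2 _ (b j).2 hij⟩
        · intro i j hij h; exact absurd (hainj (Subtype.ext h)) hij
        · intro i j hij h; exact hnb _ (a i).2 _ (a j).2 h
        · intro i j hij h; exact absurd (hbinj (Subtype.ext h)) hij
        · intro i j hij h; exact hnb _ (b i).2 _ (b j).2 h)
      (fun a => x a.1) (fun a => hxn a.1) (by
        rw [Finset.sum_coe_sort F (fun w => x w), ← hxs]
        exact Finset.sum_subset (Finset.subset_univ F) (fun w _ hw => hx0 w hw))
    have hval : qf M x = pp * qf (kk (fun a b : {v // v ∈ F} => a ≠ b ∧ we a.1 b.1))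
        (fun a => x a.1) := by
      unfold qf
      rw [Finset.mul_sum, ← Finset.sum_subset (Finset.subset_univ F)]
      · rw [← Finset.sum_coe_sort F]
        refine Finset.sum_congr rfl fun a _ => ?_
        rw [Finset.mul_sum, ← Finset.sum_subset (Finset.subset_univ F)]
        · rw [← Finset.sum_coe_sort F]
          refine Finset.sum_congr rfl fun b _ => ?_
          have : M a.1 b.1 = pp * kk (fun a b : {v // v ∈ F} => a ≠ b ∧ we a.1 b.1) a b := by
            by_cases hab : a = b
            · subst hab
              simp only [hM, mm, kk, if_true, hW a.1 a.2, if_false]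
              unfold pp
              nlinarith
            · have hab' : ¬ a.1 = b.1 := fun q => hab (Subtype.ext q)
              have hb : ¬ be a.1 b.1 := hnb _ a.2 _ b.2 hab'
              by_cases hwab : we a.1 b.1
              · simp [hM, mm, kk, hab, hab', hwab]
              · simp [hM, mm, kk, hab, hab', hwab, hb]
          rw [this]; ring
        · intro w _ hw
          rw [hx0 w hw]; ring
      · intro u _ hu
        rw [hx0 u hu]; simp
    have hqx : qf M x = q := by
      have e : qf M x = bf M x x := rfl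
      rw [e, bf_eq M x x hsymm]
      have h2 : ∀ w, x w * ∑ u, M w u * x u = x w * q := by
        intro w
        by_cases hw : w ∈ F
        · rw [hgrad w hw]
        · rw [hx0 w hw]; ring
      rw [Finset.sum_congr rfl fun w _ => h2 w, ← Finset.sum_mul, hxs, one_mul]
    have h3 : pp * (1 / (1 + 2 * √3)) ≤ q := by
      rw [← hqx, hval]
      exact mul_le_mul_of_nonneg_left hfb hp0.le
    have h4 : pp * (1 / (1 + 2 * √3)) = qstar := by
      have : (1 : ℝ) + 2 * √3 ≠ 0 := by linarith
      unfold pp qstar
      field_simp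
      nlinarith
    linarith

/-- uniform form -/
theorem crg_uniform {V : Type*} [Fintype V] [Nonempty V] (wv : V → Prop) (we be : V → V → Prop)
    (hwe : ∀ u w, we u w → we w u) (hbe : ∀ u w, be u w → be w u)
    (hdis : ∀ u w, we u w → ¬ be u w)
    (hno : ∀ a b : Fin 7 → V, ¬ Emb wv we be a b) :
    qstar * (Fintype.card V : ℝ) ^ 2 ≤ ∑ u, ∑ w, mm wv we be u w := by
  have hc : (0 : ℝ) < Fintype.card V := by exact_mod_cast Fintype.card_pos
  have h := crg_bound wv we be hwe hbe hdis hno (fun _ => 1 / (Fintype.card V : ℝ))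
    (fun _ => by positivity) (by
      rw [Finset.sum_const, Finset.card_univ, nsmul_eq_mul]
      field_simp)
  unfold qf at h
  simp only [← Finset.mul_sum] at h
  rw [le_iff_lt_or_eq] at h
  have e : 1 / (Fintype.card V : ℝ) * (1 / (Fintype.card V : ℝ)) * (Fintype.card V : ℝ) ^ 2 = 1 := by
    field_simp
  have h' : qstar ≤ 1 / (Fintype.card V : ℝ) * (1 / (Fintype.card V : ℝ))
      * ∑ u, ∑ w, mm wv we be u w := by
    rcases h with h | h
    · exact h.le
    · exact h.le
  have h'' := mul_le_mul_of_nonneg_right h' (sq_nonneg (Fintype.card V : ℝ))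
  calc qstar * (Fintype.card V : ℝ) ^ 2 ≤ _ := h''
    _ = (1 / (Fintype.card V : ℝ) * (1 / (Fintype.card V : ℝ)) * (Fintype.card V : ℝ) ^ 2)
      * ∑ u, ∑ w, mm wv we be u w := by ring
    _ = _ := by rw [e, one_mul]

end Pool.Agent.Lib_helper17.ED
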