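import Pool.Agent.Lib_helper17.ED.Crg

/-!
Definitions for the edit distance of the class of graphs without induced `K_{7,7}`.
-/

namespace Pool.Agent.Lib_helper17.ED

open Finset

/-- `K_{7,7}` -/
def K77 : SimpleGraph (Fin 7 ⊕ Fin 7) := completeBipartiteGraph (Fin 7) (Fin 7)

/-- no induced copy of `K_{7,7}` -/
def Free77 {V : Type*} (G : SimpleGraph V) : Prop := IsEmpty (K77 ↪g G)

/-- number of edge additions and deletions -/
noncomputable def edits {V : Type*} (G G' : SimpleGraph V) : ℕ :=
  (symmDiff G.edgeSet G'.edgeSet).ncard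

/-- distance to the class -/
noncomputable def dist77 {n : ℕ} (G : SimpleGraph (Fin n)) : ℕ :=
  sInf {k | ∃ G' : SimpleGraph (Fin n), Free77 G' ∧ edits G G' = k}

/-- the normalised maximum distance for graphs on `n` vertices -/
noncomputable def edn (n : ℕ) : ℝ :=
  ⨆ G : SimpleGraph (Fin n), (dist77 G : ℝ) / (n.choose 2 : ℝ)

open scoped Classical in
/-- number of ordered pairs `(x, y)`, `x ∈ X`, `y ∈ Y`, in relation `r` -/
noncomputable def eb {V : Type*} (r : V → V → Prop) (X Y : Finset V) : ℝ :=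
  ∑ x ∈ X, ∑ y ∈ Y, if r x y then (1 : ℝ) else 0

end Pool.Agent.Lib_helper17.ED
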