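import Pool.Agent.Lib_helper17.ED.Greedy

/-!
Embedding an induced `K_{7,7}` into the clusters.
-/

namespace Pool.Agent.Lib_helper17.ED

open Finset

/-- host cluster of a slot -/
def host {I : Type*} (a b : Fin 7 → I) (s : ℕ) : I :=
  if s % 2 = 0 then a (Fin.ofNat 7 (s / 2)) else b (Fin.ofNat 7 (s / 2))

theorem ofNat_inj {i j : ℕ} (hi : i < 7) (hj : j < 7) (h : Fin.ofNat 7 i = Fin.ofNat 7 j) :
    i = j := by
  have := congrArg Fin.val h
  simp only [Fin.val_ofNat] at this
  omega

section hosts

variable {I : Type*} {wv : I → Prop} {we be : I → I → Prop}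
  (hwe : ∀ u w, we u w → we w u) (hbe : ∀ u w, be u w → be w u)
  {a b : Fin 7 → I} (hE : Emb wv we be a b) {s t : ℕ}

include hE

theorem host_same_eq (hst : s < t) (ht : t < 14) (hp : s % 2 = t % 2)
    (h : host a b s = host a b t) : wv (host a b s) := by
  have hne : Fin.ofNat 7 (s / 2) ≠ Fin.ofNat 7 (t / 2) := by
    intro q
    have := ofNat_inj (by omega) (by omega) q
    omega
  unfold host at h ⊢
  by_cases hs : s % 2 = 0
  · have ht0 : t % 2 = 0 := by omega
    simp only [hs, ht0, if_true] at h ⊢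
    exact hE.aa_eq _ _ hne h
  · have ht0 : ¬ t % 2 = 0 := by omega
    simp only [hs, ht0, if_false] at h ⊢
    exact hE.bb_eq _ _ hne h

theorem host_same_ne (hst : s < t) (ht : t < 14) (hp : s % 2 = t % 2)
    (h : host a b s ≠ host a b t) : ¬ be (host a b s) (host a b t) := by
  have hne : Fin.ofNat 7 (s / 2) ≠ Fin.ofNat 7 (t / 2) := by
    intro q
    have := ofNat_inj (by omega) (by omega) q
    omega
  unfold host at h ⊢
  by_cases hs : s % 2 = 0
  · have ht0 : t % 2 = 0 := by omega
    simp only [hs, ht0, if_true] at h ⊢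
    exact hE.aa_ne _ _ hne h
  · have ht0 : ¬ t % 2 = 0 := by omega
    simp only [hs, ht0, if_false] at h ⊢
    exact hE.bb_ne _ _ hne h

theorem host_diff_eq (hst : s < t) (ht : t < 14) (hp : s % 2 ≠ t % 2)
    (h : host a b s = host a b t) : t = s + 1 ∧ s % 2 = 0 ∧ ¬ wv (host a b s) := by
  unfold host at h ⊢
  by_cases hs : s % 2 = 0
  · have ht0 : ¬ t % 2 = 0 := by omega
    simp only [hs, ht0, if_true, if_false] at h ⊢
    obtain ⟨h1, h2⟩ := hE.ab_eq _ _ h
    have := ofNat_inj (by omega) (by omega) h1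
    exact ⟨by omega, trivial, h2⟩
  · have ht0 : t % 2 = 0 := by omega
    simp only [hs, ht0, if_true, if_false] at h ⊢
    obtain ⟨h1, h2⟩ := hE.ab_eq _ _ h.symm
    have := ofNat_inj (by omega) (by omega) h1
    omega

include hwe hbe in
theorem host_diff_ne (hp : s % 2 ≠ t % 2)
    (h : host a b s ≠ host a b t) : ¬ we (host a b s) (host a b t) ∧
      ¬ be (host a b s) (host a b t) := by
  unfold host at h ⊢
  by_cases hs : s % 2 = 0
  · have ht0 : ¬ t % 2 = 0 := by omega
    simp only [hs, ht0, if_true, if_false] at h ⊢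
    exact hE.ab_ne _ _ h
  · have ht0 : t % 2 = 0 := by omega
    simp only [hs, ht0, if_true, if_false] at h ⊢
    have := hE.ab_ne _ _ h.symm
    exact ⟨fun q => this.1 (hwe _ _ q), fun q => this.2 (hbe _ _ q)⟩

end hosts

theorem embed {V I : Type*} [Fintype V] [DecidableEq V] (G : SimpleGraph V)
    (cl : I → Finset V) (hcl : ∀ i, (cl i).Nonempty)
    {wv : I → Prop} {we be : I → I → Prop}
    (hwe : ∀ u w, we u w → we w u) (hbe : ∀ u w, be u w → be w u)
    (δ γ d ε : ℝ) (hδ0 : 0 < δ) (hδ1 : δ ≤ 1 / 2) (hγ0 : 0 < γ) (hγ : 14 * γ ≤ δ ^ 14)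
    (hd0 : 0 < d) (hd : d * (3 / γ) ^ 6 ≤ γ ^ 2 / 2) (hε0 : 0 < ε)
    (hε1 : ε ≤ γ * (γ / 3) ^ 7)
    (hε : 14 * ε ≤ δ ^ 14 * d * (γ / 3) ^ 7)
    (hW : ∀ i, wv i → WG G.Adj (cl i) ((γ / 3) ^ 7) (d * (3 / γ) ^ 6) 7)
    (hB : ∀ i, ¬ wv i → BG G.Adj (cl i) ((γ / 3) ^ 7) γ d)
    (hgrey : ∀ i j, i ≠ j → ¬ we i j → ¬ be i j → ∀ X ⊆ cl i, ∀ Y ⊆ cl j,
      ε * (cl i).card ≤ X.card → ε * (cl j).card ≤ Y.card →
      δ * (X.card : ℝ) * Y.card ≤ eb G.Adj X Y)
    (hnb : ∀ i j, i ≠ j → ¬ be i j → ∀ X ⊆ cl i, ∀ Y ⊆ cl j,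
      ε * (cl i).card ≤ X.card → ε * (cl j).card ≤ Y.card →
      δ * (X.card : ℝ) * Y.card ≤ eb (fun x y => x ≠ y ∧ ¬ G.Adj x y) X Y)
    (a b : Fin 7 → I) (hE : Emb wv we be a b) : ¬ Free77 G := by
  classical
  set σ := (γ / 3) ^ 7 with hσ
  have hσ0 : 0 < σ := by positivity
  set η := d * (3 / γ) ^ 6 with hη
  have hδ14 : δ ^ 14 ≤ 1 := pow_le_one₀ hδ0.le (by linarith)
  have hZ' : ∀ i, ∃ Z : ℕ → Finset V, wv i → (∀ r, r < 7 → Z r ⊆ cl i ∧
      σ * (cl i).card ≤ (Z r).card) ∧ (∀ r r', r < r' → r' < 7 → Disjoint (Z r) (Z r')) ∧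
      (∀ r r', r < r' → r' < 7 → eb G.Adj (Z r) (Z r') ≤ η * (Z r).card * (Z r').card) := by
    intro i
    by_cases h : wv i
    · obtain ⟨Z, hZ⟩ := hW i h
      exact ⟨Z, fun _ => hZ⟩
    · exact ⟨fun _ => ∅, fun q => absurd q h⟩
  choose Z hZ using hZ'
  have hBB : ∀ i, ∃ W₁ W₂ : Finset V, ¬ wv i → W₁ ⊆ cl i ∧ W₂ ⊆ cl i ∧
      σ * (cl i).card ≤ W₁.card ∧ σ * (cl i).card ≤ W₂.card ∧
      ∀ X ⊆ W₁, ∀ Y ⊆ W₂, γ * W₁.card ≤ X.card → γ * W₂.card ≤ Y.card →
      d * (X.card : ℝ) * Y.card ≤ eb G.Adj X Y := by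
    intro i
    by_cases h : wv i
    · exact ⟨∅, ∅, fun q => absurd h q⟩
    · obtain ⟨W₁, W₂, hh⟩ := hB i h
      exact ⟨W₁, W₂, fun _ => hh⟩
  choose W₁ W₂ hWW using hBB
  let ho : ℕ → I := host a b
  let Ws : ℕ → Finset V := fun s => if wv (ho s) then Z (ho s) (s / 2)
    else if s % 2 = 0 then W₁ (ho s) else W₂ (ho s)
  have hWs : ∀ s, s < 14 → Ws s ⊆ cl (ho s) ∧ σ * (cl (ho s)).card ≤ (Ws s).card := by
    intro s hs
    simp only [Ws]
    by_cases h : wv (ho s)
    · simp only [h, if_true]
      exact (hZ _ h).1 _ (by omega)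
    · simp only [h, if_false]
      obtain ⟨q1, q2, q3, q4, -⟩ := hWW _ h
      split_ifs
      · exact ⟨q1, q3⟩
      · exact ⟨q2, q4⟩
  have hclpos : ∀ i, (0 : ℝ) < (cl i).card := fun i => by
    exact_mod_cast Finset.card_pos.mpr (hcl i)
  have hWpos : ∀ s, s < 14 → (0 : ℝ) < (Ws s).card := fun s hs =>
    lt_of_lt_of_le (mul_pos hσ0 (hclpos _)) (hWs s hs).2
  let Q : ℕ → ℕ → V → V → Prop := fun s t x y =>
    if s % 2 = t % 2 then (x ≠ y ∧ ¬ G.Adj x y) else G.Adj x y
  let dl : ℕ → ℕ → ℝ := fun s t => if ho s = ho t ∧ s % 2 ≠ t % 2 then d else δ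
  let aa : ℕ → ℕ → ℝ := fun s t => if ho s = ho t then γ * (Ws s).card
    else ε * (cl (ho s)).card
  let bb : ℕ → ℕ → ℝ := fun s t => if ho s = ho t then γ * (Ws t).card
    else ε * (cl (ho t)).card
  let ll : ℕ → ℕ → ℝ := fun k t => if k = t ∧ t % 2 = 1 ∧ ho (t - 1) = ho t then
    δ ^ (k - 1) * d * (Ws t).card else δ ^ k * (Ws t).card
  have hεW : ∀ s, s < 14 → ε * (cl (ho s)).card ≤ γ * (Ws s).card := by
    intro s hs
    calc ε * (cl (ho s)).card ≤ γ * σ * (cl (ho s)).card :=
          mul_le_mul_of_nonneg_right hε1 (hclpos _).le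
      _ = γ * (σ * (cl (ho s)).card) := by ring
      _ ≤ γ * (Ws s).card := mul_le_mul_of_nonneg_left (hWs s hs).2 hγ0.le
  have hpow : ∀ k, k ≤ 14 → δ ^ 14 ≤ δ ^ k := fun k hk =>
    pow_le_pow_of_le_one hδ0.le (by linarith) hk
  have hNV : Nonempty V := by
    obtain ⟨v, -⟩ := hcl (a 0)
    exact ⟨v⟩
  obtain ⟨f, hf1, hf2⟩ := greedy 14 Q Ws aa bb dl ll
    (by
      -- positivity of aa
      intro s t hst ht
      simp only [aa]
      split_ifs
      · exact mul_pos hγ0 (hWpos s (by omega))
      · exact mul_pos hε0 (hclpos _))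
    (by
      -- H1
      intro s t hst ht X hX Y hY hXc hYc
      simp only [aa, bb, dl, Q] at hXc hYc ⊢
      by_cases hh : ho s = ho t
      · simp only [hh, if_true, true_and] at hXc hYc ⊢
        by_cases hp : s % 2 = t % 2
        · simp only [hp, ne_eq, not_true_eq_false, if_false, if_true]
          have hwv := host_same_eq hE hst ht hp hh
          have hwvt : wv (ho t) := by rw [← hh]; exact hwv
          have hZh := hZ (ho t) hwvt
          have hi : s / 2 < t / 2 := by omega
          have hWs' : Ws s = Z (ho t) (s / 2) := by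
            simp only [Ws]
            rw [if_pos hwv]
            exact congrArg (fun i => Z i (s / 2)) hh
          have hWt' : Ws t = Z (ho t) (t / 2) := by
            simp only [Ws]
            rw [if_pos hwvt]
          have hdis := hZh.2.1 (s / 2) (t / 2) hi (by omega)
          have hsp := hZh.2.2 (s / 2) (t / 2) hi (by omega)
          rw [← hWs', ← hWt'] at hdis hsp
          have e1 : eb (fun x y => x ≠ y ∧ ¬ G.Adj x y) X Y
              = (X.card : ℝ) * Y.card - eb G.Adj X Y := by
            apply eb_compl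
            intro x hx y hy
            have : x ≠ y := by
              rintro rfl
              exact Finset.disjoint_left.mp hdis (hX hx) (hY hy)
            exact ⟨fun q => q.2, fun q => ⟨this, q⟩⟩
          have e2 : eb G.Adj X Y ≤ η * (Ws s).card * (Ws t).card := (eb_mono _ hX hY).trans hsp
          have hXn : (0 : ℝ) ≤ X.card := Nat.cast_nonneg _
          have hYn : (0 : ℝ) ≤ Y.card := Nat.cast_nonneg _
          have hsn := (hWpos s (by omega)).le
          have htn := (hWpos t ht).le
          have e3 : γ ^ 2 * ((Ws s).card * (Ws t).card) ≤ (X.card : ℝ) * Y.card := by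
            calc γ ^ 2 * ((Ws s).card * (Ws t).card)
                = (γ * (Ws s).card) * (γ * (Ws t).card) := by ring
              _ ≤ (X.card : ℝ) * Y.card := mul_le_mul hXc hYc (by positivity) hXn
          have e4 : η * ((Ws s).card * (Ws t).card) ≤ γ ^ 2 / 2 * ((Ws s).card * (Ws t).card) :=
            mul_le_mul_of_nonneg_right hd (by positivity)
          have e5 : δ * ((X.card : ℝ) * Y.card) ≤ 1 / 2 * ((X.card : ℝ) * Y.card) :=
            mul_le_mul_of_nonneg_right hδ1 (by positivity)
          have e6 : (fun x y => x ≠ y ∧ ¬ G.Adj x y) = (fun x y : V => ¬x = y ∧ ¬ G.Adj x y) := rfl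
          rw [← e6, e1]
          linarith
        · simp only [ne_eq, hp, not_false_eq_true, if_true, if_false]
          obtain ⟨h1, h2, h3⟩ := host_diff_eq hE hst ht hp hh
          have h3t : ¬ wv (ho t) := by rw [← hh]; exact h3
          have hWs' : Ws s = W₁ (ho t) := by
            simp only [Ws]
            rw [if_neg h3, if_pos h2]
            exact congrArg W₁ hh
          have hWt' : Ws t = W₂ (ho t) := by
            simp only [Ws]
            rw [if_neg h3t, if_neg (by omega)]
          rw [hWs'] at hX hXc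
          rw [hWt'] at hY hYc
          exact (hWW (ho t) h3t).2.2.2.2 X hX Y hY hXc hYc
      · simp only [hh, if_false, false_and] at hXc hYc ⊢
        have hX' := hX.trans (hWs s (by omega)).1
        have hY' := hY.trans (hWs t ht).1
        by_cases hp : s % 2 = t % 2
        · simp only [hp, if_true]
          exact hnb _ _ hh (host_same_ne hE hst ht hp hh) X hX' Y hY' hXc hYc
        · simp only [hp, if_false]
          obtain ⟨h1, h2⟩ := host_diff_ne hwe hbe hE hp hh
          exact hgrey _ _ hh h1 h2 X hX' Y hY' hXc hYc)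
    (by
      intro s t _ _
      simp only [dl]
      split_ifs
      · exact hd0.le
      · exact hδ0.le)
    (by
      -- H2
      intro t ht
      simp only [ll]
      rw [if_neg]
      · simp
      · rintro ⟨h1, h2, -⟩
        omega)
    (by
      -- H3
      intro k t hkt ht
      simp only [ll, dl]
      have hk : ¬ (k = t ∧ t % 2 = 1 ∧ ho (t - 1) = ho t) := fun q => by omega
      rw [if_neg hk]
      by_cases h : k + 1 = t ∧ t % 2 = 1 ∧ ho (t - 1) = ho t
      · rw [if_pos h]
        obtain ⟨h1, h2, h3⟩ := h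
        have hk1 : t - 1 = k := by omega
        rw [hk1] at h3
        rw [if_pos ⟨h3, by omega⟩]
        have : k + 1 - 1 = k := by omega
        rw [this]
        apply le_of_eq
        ring
      · rw [if_neg h, if_neg]
        · apply le_of_eq
          rw [pow_succ]; ring
        · rintro ⟨h1, h2⟩
          obtain ⟨q1, q2, -⟩ := host_diff_eq hE hkt ht h2 h1
          apply h
          refine ⟨q1.symm, by omega, ?_⟩
          have : t - 1 = k := by omega
          rw [this]; exact h1)
    (by
      -- H4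
      intro k hk
      simp only [ll]
      have hcard : ((Finset.Ioo k 14).card : ℝ) ≤ 13 := by
        rw [Nat.card_Ioo]
        have : 14 - k - 1 ≤ 13 := by omega
        exact_mod_cast this
      by_cases h : True ∧ k % 2 = 1 ∧ ho (k - 1) = ho k
      · rw [if_pos h]
        obtain ⟨-, h2, h3⟩ := h
        have hlt : k - 1 < k := by omega
        have hbk := (host_diff_eq hE hlt hk (by omega) h3).2.2
        have hbk' : ¬ wv (ho k) := by rw [← h3]; exact hbk
        have hval : ∀ t ∈ Finset.Ioo k 14, aa k t = ε * (cl (ho k)).card := by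
          intro t ht
          rw [Finset.mem_Ioo] at ht
          simp only [aa]
          rw [if_neg]
          intro hh
          by_cases hp : k % 2 = t % 2
          · exact hbk' (host_same_eq hE ht.1 ht.2 hp hh)
          · have := (host_diff_eq hE ht.1 ht.2 hp hh).2.1
            omega
        rw [Finset.sum_congr rfl hval, Finset.sum_const, nsmul_eq_mul]
        have hc := hclpos (ho k)
        have h1 : ((Finset.Ioo k 14).card : ℝ) * (ε * (cl (ho k)).card)
            ≤ 13 * (ε * (cl (ho k)).card) :=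
          mul_le_mul_of_nonneg_right hcard (by positivity)
        have h4 : 14 * ε * (cl (ho k)).card ≤ δ ^ 14 * d * σ * (cl (ho k)).card :=
          mul_le_mul_of_nonneg_right hε hc.le
        have h5 : δ ^ 14 * d * σ * (cl (ho k)).card ≤ δ ^ (k - 1) * d * (Ws k).card := by
          calc δ ^ 14 * d * σ * (cl (ho k)).card = δ ^ 14 * d * (σ * (cl (ho k)).card) := by ring
            _ ≤ δ ^ 14 * d * (Ws k).card :=
              mul_le_mul_of_nonneg_left (hWs k hk).2 (by positivity)
            _ ≤ δ ^ (k - 1) * d * (Ws k).card := by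
              have h7 := hpow (k - 1) (by omega)
              exact mul_le_mul_of_nonneg_right (mul_le_mul_of_nonneg_right h7 hd0.le)
                (Nat.cast_nonneg _)
        have h6 : 0 < ε * (cl (ho k)).card := mul_pos hε0 hc
        linarith
      · rw [if_neg h]
        have hval : ∀ t ∈ Finset.Ioo k 14, aa k t ≤ γ * (Ws k).card := by
          intro t _
          simp only [aa]
          split_ifs
          · exact le_rfl
          · exact hεW k hk
        have h0 := hWpos k hk
        have h1 : ∑ t ∈ Finset.Ioo k 14, aa k t ≤ 13 * (γ * (Ws k).card) := by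
          calc _ ≤ ∑ t ∈ Finset.Ioo k 14, γ * (Ws k).card := Finset.sum_le_sum hval
            _ = ((Finset.Ioo k 14).card : ℝ) * (γ * (Ws k).card) := by
              rw [Finset.sum_const, nsmul_eq_mul]
            _ ≤ _ := mul_le_mul_of_nonneg_right hcard (by positivity)
        have h2 : 14 * γ * (Ws k).card ≤ δ ^ k * (Ws k).card :=
          mul_le_mul_of_nonneg_right (hγ.trans (hpow k (by omega))) h0.le
        have h3 : 0 < γ * (Ws k).card := mul_pos hγ0 h0
        linarith)
    (by
      -- H5
      intro k t hkt ht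
      simp only [bb, ll]
      have hk : ¬ (k = t ∧ t % 2 = 1 ∧ ho (t - 1) = ho t) := fun q => by omega
      rw [if_neg hk]
      have h0 := hWpos t ht
      have h1 : γ * (Ws t).card ≤ δ ^ k * (Ws t).card := by
        have h2 := hpow k (by omega)
        refine mul_le_mul_of_nonneg_right ?_ h0.le
        linarith
      split_ifs
      · exact h1
      · exact (hεW t ht).trans h1)
  -- the embedding
  have hrel : ∀ s t, s < 14 → t < 14 → s ≠ t → Q s t (f s) (f t) := by
    intro s t hs ht hst
    rcases Nat.lt_or_gt_of_ne hst with h | h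
    · exact hf2 s t h ht
    · have := hf2 t s h hs
      simp only [Q] at this ⊢
      by_cases hp : s % 2 = t % 2
      · rw [if_pos hp.symm] at this
        rw [if_pos hp]
        exact ⟨this.1.symm, fun q => this.2 q.symm⟩
      · rw [if_neg (fun q => hp q.symm)] at this
        rw [if_neg hp]
        exact this.symm
  have hAA : ∀ i j : Fin 7, i ≠ j → f (2 * i.1) ≠ f (2 * j.1) ∧ ¬ G.Adj (f (2 * i.1)) (f (2 * j.1)) := by
    intro i j hij
    have hv : i.1 ≠ j.1 := fun q => hij (Fin.ext q)
    have := hrel (2 * i.1) (2 * j.1) (by omega) (by omega) (by omega)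
    simp only [Q] at this
    rwa [if_pos (by omega)] at this
  have hBBr : ∀ i j : Fin 7, i ≠ j → f (2 * i.1 + 1) ≠ f (2 * j.1 + 1) ∧
      ¬ G.Adj (f (2 * i.1 + 1)) (f (2 * j.1 + 1)) := by
    intro i j hij
    have hv : i.1 ≠ j.1 := fun q => hij (Fin.ext q)
    have := hrel (2 * i.1 + 1) (2 * j.1 + 1) (by omega) (by omega) (by omega)
    simp only [Q] at this
    rwa [if_pos (by omega)] at this
  have hAB : ∀ i j : Fin 7, G.Adj (f (2 * i.1)) (f (2 * j.1 + 1)) := by
    intro i j
    have := hrel (2 * i.1) (2 * j.1 + 1) (by omega) (by omega) (by omega)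
    simp only [Q] at this
    rwa [if_neg (by omega)] at this
  let F : Fin 7 ⊕ Fin 7 → V := Sum.elim (fun i => f (2 * i.1)) (fun i => f (2 * i.1 + 1))
  have hFinj : Function.Injective F := by
    intro x y hxy
    rcases x with i | i <;> rcases y with j | j
    · by_contra hne
      exact (hAA i j (fun q => hne (by rw [q]))).1 hxy
    · exfalso
      have := hAB i j
      rw [show f (2 * i.1) = f (2 * j.1 + 1) from hxy] at this
      exact G.irrefl this
    · exfalso
      have := hAB j i
      rw [show f (2 * i.1 + 1) = f (2 * j.1) from hxy] at this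
      exact G.irrefl this
    · by_contra hne
      exact (hBBr i j (fun q => hne (by rw [q]))).1 hxy
  intro hfree
  refine hfree.false ⟨⟨F, hFinj⟩, ?_⟩
  intro x y
  rcases x with i | i <;> rcases y with j | j
  · simp only [Function.Embedding.coeFn_mk, F, Sum.elim_inl, K77, completeBipartiteGraph_adj,
      Sum.isLeft_inl, Sum.isRight_inl]
    constructor
    · intro h
      exfalso
      by_cases hij : i = j
      · subst hij; exact G.irrefl h
      · exact (hAA i j hij).2 h
    · intro h; simp at h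
  · simp only [Function.Embedding.coeFn_mk, F, Sum.elim_inl, Sum.elim_inr, K77,
      completeBipartiteGraph_adj, Sum.isLeft_inl, Sum.isRight_inl, Sum.isLeft_inr, Sum.isRight_inr]
    constructor
    · intro _; simp
    · intro _; exact hAB i j
  · simp only [Function.Embedding.coeFn_mk, F, Sum.elim_inl, Sum.elim_inr, K77,
      completeBipartiteGraph_adj, Sum.isLeft_inl, Sum.isRight_inl, Sum.isLeft_inr, Sum.isRight_inr]
    constructor
    · intro _; simp
    · intro _; exact (hAB j i).symm
  · simp only [Function.Embedding.coeFn_mk, F, Sum.elim_inr, K77, completeBipartiteGraph_adj,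
      Sum.isLeft_inr, Sum.isRight_inr]
    constructor
    · intro h
      exfalso
      by_cases hij : i = j
      · subst hij; exact G.irrefl h
      · exact (hBBr i j hij).2 h
    · intro h; simp at h

end Pool.Agent.Lib_helper17.ED
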