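import Pool.Agent.Lib_helper17.ED.Assemble

/-!
The finite theorem: if `A` has no `7 × 7` zero block then `√3 |x|^2 + x^T A x ≥ 1 / (1 + 2 √3)`
on the simplex.
-/

namespace Pool.Agent.Lib_helper17.ED

open Finset

theorem kk_symm {V : Type*} (A : V → V → Prop) (symm : ∀ u w, A u w → A w u) (u w : V) :
    kk A u w = kk A w u := by
  unfold kk
  by_cases h : u = w
  · subst h; rfl
  · have h' : w ≠ u := Ne.symm h
    by_cases hA : A u w
    · simp [h, h', hA, symm _ _ hA]
    · have : ¬ A w u := fun q => hA (symm _ _ q)
      simp [h, h', hA, this]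

theorem kk_nonneg {V : Type*} (A : V → V → Prop) (u w : V) : 0 ≤ kk A u w := by
  unfold kk
  split_ifs
  · exact Real.sqrt_nonneg _
  · norm_num
  · norm_num

theorem fin_bound {V : Type*} [Fintype V] (A : V → V → Prop)
    (symm : ∀ u w, A u w → A w u) (irr : ∀ u, ¬ A u u)
    (h77 : ∀ P Q : Finset V, P.card = 7 → Q.card = 7 → ∃ u ∈ P, ∃ w ∈ Q, A u w)
    (x₀ : V → ℝ) (h0 : ∀ v, 0 ≤ x₀ v) (h1 : ∑ v, x₀ v = 1) :
    1 / (1 + 2 * √3) ≤ qf (kk A) x₀ := by
  classical
  by_contra hcon
  push Not at hcon
  obtain ⟨F, x, q, hq, hxpos, hx0, hxs, hgrad, hpd⟩ :=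
    exists_min (kk A) (kk_symm A symm) x₀ h0 h1 _ hcon
  have r1 := Sys.r3_gt
  have hxn : ∀ v, 0 ≤ x v := by
    intro v
    by_cases hv : v ∈ F
    · exact (hxpos v hv).le
    · rw [hx0 v hv]
  have hFne : F.Nonempty := by
    by_contra h
    rw [Finset.not_nonempty_iff_eq_empty] at h
    have : ∑ v, x v = 0 := Finset.sum_eq_zero fun v _ => hx0 v (by simp [h])
    linarith
  have hqpos : 0 < q := by
    obtain ⟨u, hu⟩ := hFne
    rw [← hgrad u hu]
    refine lt_of_lt_of_le (?_ : 0 < kk A u u * x u) (Finset.single_le_sum
      (f := fun w => kk A u w * x w) (fun w _ => mul_nonneg (kk_nonneg A u w) (hxn w))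
      (Finset.mem_univ u))
    have : kk A u u = √3 := by simp [kk]
    rw [this]
    exact mul_pos (by linarith) (hxpos u hu)
  -- full positive definiteness on the support
  have hbx : ∀ f : V → ℝ, (∀ v, v ∉ F → f v = 0) → bf (kk A) x f = q * ∑ v, f v := by
    intro f hf
    rw [bf_eq _ _ _ (kk_symm A symm), Finset.mul_sum]
    refine Finset.sum_congr rfl fun w _ => ?_
    by_cases hw : w ∈ F
    · rw [hgrad w hw]; ring
    · rw [hf w hw]; ring
  have hqx : qf (kk A) x = q := by
    have e : qf (kk A) x = bf (kk A) x x := rfl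
    rw [e, hbx x hx0, hxs, mul_one]
  have hpd' : ∀ f : V → ℝ, (∀ v, v ∉ F → f v = 0) → f ≠ 0 → 0 < qf (kk A) f := by
    intro f hf hfne
    set s := ∑ v, f v with hs
    have hzf : ∀ v, v ∉ F → f v + (-s) * x v = 0 := by
      intro v hv; rw [hf v hv, hx0 v hv]; ring
    have hzs : ∑ v, (f v + (-s) * x v) = 0 := by
      rw [Finset.sum_add_distrib, ← Finset.mul_sum, hxs, ← hs]; ring
    have hexp := qf_add (kk A) (kk_symm A symm) f x (-s)
    rw [bf_comm _ (kk_symm A symm) f x, hbx f hf, hqx, ← hs] at hexp
    -- qf (f - s x) = qf f - 2 s (q s) + s^2 q = qf f - s^2 q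
    have hval : qf (kk A) f = qf (kk A) (fun v => f v + (-s) * x v) + s ^ 2 * q := by
      rw [hexp]; ring
    by_cases hz : (fun v => f v + (-s) * x v) = 0
    · have hsne : s ≠ 0 := by
        intro hs0
        apply hfne
        funext v
        have := congrFun hz v
        simp only [hs0, neg_zero, zero_mul, add_zero, Pi.zero_apply] at this
        exact this
      have hnn : qf (kk A) (fun v => f v + (-s) * x v) = 0 := by
        rw [hz]; simp [qf]
      rw [hval, hnn, zero_add]
      positivity
    · have h3 := hpd _ hzf hzs hz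
      rw [hval]
      have : 0 ≤ s ^ 2 * q := by positivity
      linarith
  -- the system on the support
  let emb : {v // v ∈ F} → V := fun v => v.1
  have hkk : ∀ a b : {v // v ∈ F}, kk (fun a b : {v // v ∈ F} => A a.1 b.1) a b
      = kk A a.1 b.1 := by
    intro a b
    unfold kk
    by_cases h : a = b
    · simp [h]
    · have : a.1 ≠ b.1 := fun q => h (Subtype.ext q)
      simp [h, this]
  let S : Sys {v // v ∈ F} :=
    { A := fun a b => A a.1 b.1
      symm := fun a b h => symm _ _ h
      irr := fun a => irr _
      y := fun a => x a.1 / q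
      pos := fun a => div_pos (hxpos a.1 a.2) hqpos
      eqn := by
        intro a
        have e1 : ∑ w : {v // v ∈ F}, (if A a.1 w.1 then x w.1 / q else 0)
            = (∑ w, (if A a.1 w then x w else 0)) / q := by
          rw [Finset.sum_coe_sort F (fun w => if A a.1 w then x w / q else 0), Finset.sum_div]
          rw [← Finset.sum_subset (Finset.subset_univ F)]
          · refine Finset.sum_congr rfl fun w _ => ?_
            split_ifs <;> simp
          · intro w _ hw
            rw [hx0 w hw]; simp
        have e2 : ∑ w, kk A a.1 w * x w = √3 * x a.1 + ∑ w, (if A a.1 w then x w else 0) := by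
          have e3 : ∀ w, kk A a.1 w * x w
              = (if a.1 = w then √3 * x w else 0) + (if A a.1 w then x w else 0) := by
            intro w
            unfold kk
            by_cases h : a.1 = w
            · have h' : ¬ A a.1 w := by rw [← h]; exact irr _
              simp [h, fun q => h' (h ▸ q)]
              intro q
              exact absurd q (irr _)
            · simp [h]
          rw [Finset.sum_congr rfl fun w _ => e3 w, Finset.sum_add_distrib]
          simp
        have e4 := hgrad a.1 a.2
        rw [e2] at e4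
        rw [e1]
        have : √3 * (x a.1 / q) + (∑ w, (if A a.1 w then x w else 0)) / q
            = (√3 * x a.1 + ∑ w, (if A a.1 w then x w else 0)) / q := by ring
        rw [this, e4]
        field_simp
      pd := by
        intro f hf
        set g : V → ℝ := fun v => if h : v ∈ F then f ⟨v, h⟩ else 0 with hg
        have hg0 : ∀ v, v ∉ F → g v = 0 := by
          intro v hv; simp [hg, hv]
        have hgF : ∀ a : {v // v ∈ F}, g a.1 = f a := by
          intro a; simp [hg, a.2]
        have hgne : g ≠ 0 := by
          intro h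
          apply hf
          funext a
          rw [← hgF a, h]; rfl
        have h5 := hpd' g hg0 hgne
        have h6 : qf (kk A) g = qf (kk (fun a b : {v // v ∈ F} => A a.1 b.1)) f := by
          unfold qf
          rw [← Finset.sum_subset (Finset.subset_univ F)]
          · rw [← Finset.sum_coe_sort F]
            refine Finset.sum_congr rfl fun a _ => ?_
            rw [← Finset.sum_subset (Finset.subset_univ F)]
            · rw [← Finset.sum_coe_sort F]
              refine Finset.sum_congr rfl fun b _ => ?_
              rw [hgF, hgF, hkk]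
            · intro w _ hw
              rw [hg0 w hw]; ring
          · intro u _ hu
            rw [hg0 u hu]; simp
        rwa [h6] at h5 }
  have hno : ¬ S.Blk univ 7 7 := by
    rintro ⟨P, Q, -, -, hP, hQ, hPQ⟩
    have hinj : Function.Injective (fun v : {v // v ∈ F} => v.1) := Subtype.val_injective
    obtain ⟨u, hu, w, hw, hA⟩ := h77 (P.image (fun v => v.1)) (Q.image (fun v => v.1))
      (by rw [Finset.card_image_of_injective _ hinj, hP])
      (by rw [Finset.card_image_of_injective _ hinj, hQ])
    rw [Finset.mem_image] at hu hw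
    obtain ⟨u', hu', rfl⟩ := hu
    obtain ⟨w', hw', rfl⟩ := hw
    exact hPQ u' hu' w' hw' hA
  have htot := Sys.total_le (S := S) hno
  have hm : S.m univ = 1 / q := by
    have e : S.m univ = ∑ a : {v // v ∈ F}, x a.1 / q := rfl
    rw [e, ← Finset.sum_div, Finset.sum_coe_sort F (fun w => x w)]
    congr 1
    rw [← hxs]
    exact Finset.sum_subset (Finset.subset_univ F) (fun w _ hw => hx0 w hw)
  rw [hm, div_le_iff₀ hqpos] at htot
  have hpos : (0 : ℝ) < 1 + 2 * √3 := by linarith
  rw [lt_div_iff₀ hpos] at hq
  linarith

end Pool.Agent.Lib_helper17.ED
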