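import Pool.Agent.Lib_helper17.ED.Lower
import Pool.Agent.Lib_helper73.ED.QR

/-!
The lower bound and the limit.
-/

namespace Pool.Agent.Lib_helper17.ED

open Finset

theorem qstar_pos : 0 < qstar := by
  unfold qstar
  have := Sys.r3_lt
  linarith

theorem qstar_lt : qstar < 1 := by
  unfold qstar
  have := Sys.r3_gt
  linarith

theorem lower (ε : ℝ) (hε : 0 < ε) : ∃ N : ℕ, ∀ n : ℕ, N ≤ n → ∃ G : SimpleGraph (Fin n),
    ∀ G' : SimpleGraph (Fin n), Free77 G' →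
      (qstar - ε) * (n : ℝ) ^ 2 ≤ 2 * (edits G G' : ℝ) := by
  classical
  -- constants
  set δ : ℝ := min (ε / 16) (1 / 4) with hδ
  have hδ0 : 0 < δ := lt_min (by linarith) (by norm_num)
  have hδε : δ ≤ ε / 16 := min_le_left _ _
  have hδ4 : δ ≤ 1 / 4 := min_le_right _ _
  set γ : ℝ := δ ^ 14 / 14 with hγ
  have hγ0 : 0 < γ := by positivity
  have hγ14 : 14 * γ ≤ δ ^ 14 := by rw [hγ]; linarith
  set d : ℝ := γ ^ 2 / 2 / (3 / γ) ^ 6 with hd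
  have h3γ : 0 < (3 / γ) ^ 6 := by positivity
  have hd0 : 0 < d := by positivity
  have hd1 : d * (3 / γ) ^ 6 ≤ γ ^ 2 / 2 := by
    rw [hd, div_mul_cancel₀ _ h3γ.ne']
  set σ : ℝ := (γ / 3) ^ 7 with hσ
  have hσ0 : 0 < σ := by positivity
  set ε₁ : ℝ := min (min (γ * σ) (δ ^ 14 * d * σ / 14)) (min δ (ε / 32)) with hε₁
  have hε₁0 : 0 < ε₁ := by
    refine lt_min (lt_min (by positivity) (by positivity)) (lt_min hδ0 (by linarith))
  have hε₁a : ε₁ ≤ γ * σ := (min_le_left _ _).trans (min_le_left _ _)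
  have hε₁b : 14 * ε₁ ≤ δ ^ 14 * d * σ := by
    have : ε₁ ≤ δ ^ 14 * d * σ / 14 := (min_le_left _ _).trans (min_le_right _ _)
    linarith
  have hε₁c : ε₁ ≤ δ := (min_le_right _ _).trans (min_le_left _ _)
  have hε₁d : ε₁ ≤ ε / 32 := (min_le_right _ _).trans (min_le_right _ _)
  obtain ⟨l, hl⟩ := exists_nat_ge (8 / ε + 1)
  set M : ℕ := SzemerediRegularity.bound ε₁ l with hM
  have hMpos : 0 < M := SzemerediRegularity.bound_pos _ _
  have hMR : (0 : ℝ) < M := by exact_mod_cast hMpos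
  set ε₂ : ℝ := ε / (8 * (M : ℝ) ^ 2) with hε₂
  have hε₂0 : 0 < ε₂ := by positivity
  obtain ⟨N₁, hN₁⟩ := qr_pr ε₂ hε₂0
  obtain ⟨N₂, hN₂⟩ := exists_nat_ge ((M : ℝ) * (2 * (3 / γ) ^ 6 + 1))
  obtain ⟨N₃, hN₃⟩ := exists_nat_ge (16 * (M : ℝ) / ε + 8 / ε)
  refine ⟨max (max N₁ (max N₂ N₃)) (max l (M + 1)), fun n hn => ?_⟩
  have hn1 : N₁ ≤ n := (le_max_left _ _).trans ((le_max_left _ _).trans hn)
  have hn2 : N₂ ≤ n := (le_max_left _ _).trans ((le_max_right _ _).trans ((le_max_left _ _).trans hn))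
  have hn3 : N₃ ≤ n := (le_max_right _ _).trans ((le_max_right _ _).trans ((le_max_left _ _).trans hn))
  have hn4 : l ≤ n := (le_max_left _ _).trans ((le_max_right _ _).trans hn)
  have hn5 : M + 1 ≤ n := (le_max_right _ _).trans ((le_max_right _ _).trans hn)
  obtain ⟨G, hG⟩ := hN₁ n hn1
  refine ⟨G, fun G' hfree => ?_⟩
  obtain ⟨P, hPe, hPl, hPM, hPu⟩ := szemeredi_regularity G' hε₁0
    (by rw [Fintype.card_fin]; exact hn4 : l ≤ Fintype.card (Fin n))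
  have hn0 : 0 < n := by omega
  have hnR : (0 : ℝ) < n := by exact_mod_cast hn0
  set k := P.parts.card with hk
  have hkM : k ≤ M := hPM
  have hkn : k ≤ n := by omega
  have hlR : (8 / ε + 1) ≤ (k : ℝ) := hl.trans (by exact_mod_cast hPl)
  have hkR : (0 : ℝ) < k := by
    have : 0 < 8 / ε := by positivity
    linarith
  have hkMR : (k : ℝ) ≤ M := by exact_mod_cast hkM
  have hcore := lower_core G G' hfree δ γ d ε₁ ε₂ hδ0 hδ4 hγ0 hγ14 hd0 hd1 hε₁0 hε₁a hε₁b hε₁c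
    hε₂0.le P hPe (by
      intro p hp
      have h1 := hPe.average_le_card_part hp
      have hc : (univ : Finset (Fin n)).card = n := by simp
      rw [hc] at h1
      have h2 : (n : ℝ) / k - 1 < ((n / k : ℕ) : ℝ) := by
        have h3 : (n : ℝ) / k < (n / k : ℕ) + 1 := by
          rw [div_lt_iff₀ hkR]
          have h4 : n < (n / k + 1) * k := by
            have hkpos : 0 < k := by exact_mod_cast hkR
            have := Nat.div_add_mod n k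
            have := Nat.mod_lt n hkpos
            nlinarith
          exact_mod_cast h4
        linarith
      have h5 : 2 * (3 / γ) ^ 6 + 1 ≤ (n : ℝ) / k := by
        rw [le_div_iff₀ hkR]
        calc (2 * (3 / γ) ^ 6 + 1) * k ≤ (2 * (3 / γ) ^ 6 + 1) * M := by gcongr
          _ = M * (2 * (3 / γ) ^ 6 + 1) := by ring
          _ ≤ N₂ := hN₂
          _ ≤ n := by exact_mod_cast hn2
      have h6 : ((n / k : ℕ) : ℝ) ≤ p.card := by exact_mod_cast h1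
      linarith) hPu hn0 hkn hG
  refine le_trans ?_ hcore
  rw [← hk]
  -- numerical estimate
  have hq0 := qstar_pos
  have hq1 := qstar_lt
  have e1 : (n : ℝ) ^ 2 / k ≤ ε / 8 * (n : ℝ) ^ 2 := by
    rw [div_le_iff₀ hkR]
    have : 1 ≤ ε / 8 * k := by
      have h1 : ε / 8 * (8 / ε + 1) ≤ ε / 8 * k := mul_le_mul_of_nonneg_left hlR (by positivity)
      have h2 : ε / 8 * (8 / ε + 1) = 1 + ε / 8 := by field_simp
      linarith
    nlinarith [sq_nonneg (n : ℝ)]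
  have hN3 : 16 * (M : ℝ) / ε + 8 / ε ≤ n := hN₃.trans (by exact_mod_cast hn3)
  have hN3' : 16 * (M : ℝ) + 8 ≤ ε * n := by
    have h1 : ε * (16 * (M : ℝ) / ε + 8 / ε) ≤ ε * n := mul_le_mul_of_nonneg_left hN3 hε.le
    have h2 : ε * (16 * (M : ℝ) / ε + 8 / ε) = 16 * M + 8 := by field_simp
    linarith
  have e2 : (n : ℝ) ≤ ε / 8 * (n : ℝ) ^ 2 := by nlinarith
  have e3 : (k : ℝ) ^ 2 * (ε₂ * (n : ℝ) ^ 2) ≤ ε / 8 * (n : ℝ) ^ 2 := by
    have h1 : (k : ℝ) ^ 2 * ε₂ ≤ ε / 8 := by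
      calc (k : ℝ) ^ 2 * ε₂ ≤ (M : ℝ) ^ 2 * ε₂ := by gcongr
        _ = ε / 8 := by rw [hε₂]; field_simp
    calc (k : ℝ) ^ 2 * (ε₂ * (n : ℝ) ^ 2) = (k : ℝ) ^ 2 * ε₂ * (n : ℝ) ^ 2 := by ring
      _ ≤ _ := mul_le_mul_of_nonneg_right h1 (sq_nonneg _)
  have e4 : 2 * δ * (n : ℝ) ^ 2 ≤ ε / 8 * (n : ℝ) ^ 2 :=
    mul_le_mul_of_nonneg_right (by linarith) (sq_nonneg _)
  have e5 : 4 * ε₁ * (n : ℝ) ^ 2 ≤ ε / 8 * (n : ℝ) ^ 2 :=
    mul_le_mul_of_nonneg_right (by linarith) (sq_nonneg _)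
  have e6 : (n : ℝ) ^ 2 - ε / 8 * (n : ℝ) ^ 2 ≤ ((n : ℝ) - k) ^ 2 := by
    have h1 : 2 * (n : ℝ) * k ≤ ε / 8 * (n : ℝ) ^ 2 := by
      have h2 : 16 * (k : ℝ) ≤ ε * n := by linarith
      nlinarith
    nlinarith [sq_nonneg (k : ℝ)]
  have e7 : qstar * ((n : ℝ) ^ 2 - ε / 8 * (n : ℝ) ^ 2) ≤ qstar * ((n : ℝ) - k) ^ 2 :=
    mul_le_mul_of_nonneg_left e6 hq0.le
  have e8 : qstar * (ε / 8 * (n : ℝ) ^ 2) ≤ 1 * (ε / 8 * (n : ℝ) ^ 2) :=
    mul_le_mul_of_nonneg_right hq1.le (by positivity)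
  have e9 : 0 ≤ ε * (n : ℝ) ^ 2 := by positivity
  linarith

end Pool.Agent.Lib_helper17.ED
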