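import Mathlib

/-!
Minimisers of quadratic forms on the simplex with minimal support.
-/

namespace Pool.Agent.Lib_helper17.ED

open Finset

variable {V : Type*} [Fintype V]

/-- the quadratic form of `K` -/
def qf (K : V → V → ℝ) (x : V → ℝ) : ℝ := ∑ u, ∑ w, x u * x w * K u w

/-- the bilinear form of `K` -/
def bf (K : V → V → ℝ) (x f : V → ℝ) : ℝ := ∑ u, ∑ w, x u * f w * K u w

theorem bf_comm (K : V → V → ℝ) (hK : ∀ u w, K u w = K w u) (x f : V → ℝ) :
    bf K x f = bf K f x := by
  unfold bf
  rw [Finset.sum_comm]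
  refine Finset.sum_congr rfl fun u _ => Finset.sum_congr rfl fun w _ => ?_
  rw [hK w u]; ring

theorem qf_add (K : V → V → ℝ) (hK : ∀ u w, K u w = K w u) (x f : V → ℝ) (t : ℝ) :
    qf K (fun v => x v + t * f v) = qf K x + 2 * t * bf K x f + t ^ 2 * qf K f := by
  have h1 : qf K (fun v => x v + t * f v)
      = qf K x + t * bf K x f + t * bf K f x + t ^ 2 * qf K f := by
    unfold qf bf
    simp only [Finset.mul_sum, ← Finset.sum_add_distrib]
    refine Finset.sum_congr rfl fun u _ => Finset.sum_congr rfl fun w _ => ?_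
    ring
  rw [h1, bf_comm K hK f x]; ring

theorem bf_eq (K : V → V → ℝ) (x f : V → ℝ) (hK : ∀ u w, K u w = K w u) :
    bf K x f = ∑ w, f w * ∑ u, K w u * x u := by
  unfold bf
  rw [Finset.sum_comm]
  refine Finset.sum_congr rfl fun w _ => ?_
  rw [Finset.mul_sum]
  refine Finset.sum_congr rfl fun u _ => ?_
  rw [hK u w]; ring

theorem continuous_qf (K : V → V → ℝ) : Continuous (qf K) := by
  unfold qf
  refine continuous_finsetSum _ fun u _ => continuous_finsetSum _ fun w _ => ?_
  exact ((continuous_apply u).mul (continuous_apply w)).mul continuous_const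

theorem exists_min [DecidableEq V] (K : V → V → ℝ) (hK : ∀ u w, K u w = K w u)
    (x₀ : V → ℝ) (h0 : ∀ v, 0 ≤ x₀ v) (h1 : ∑ v, x₀ v = 1) (c0 : ℝ) (hc : qf K x₀ < c0) :
    ∃ (S : Finset V) (x : V → ℝ) (q : ℝ), q < c0 ∧ (∀ v ∈ S, 0 < x v) ∧
      (∀ v, v ∉ S → x v = 0) ∧ ∑ v, x v = 1 ∧ (∀ u ∈ S, ∑ w, K u w * x w = q) ∧
      (∀ f : V → ℝ, (∀ v, v ∉ S → f v = 0) → ∑ v, f v = 0 → f ≠ 0 → 0 < qf K f) := by
  classical
  set T : Finset V → Set (V → ℝ) := fun S =>
    {x | (∀ v, 0 ≤ x v) ∧ (∀ v, v ∉ S → x v = 0) ∧ ∑ v, x v = 1} with hT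
  obtain ⟨S, hS⟩ := (Set.toFinite {S : Finset V | ∃ x ∈ T S, qf K x < c0}).exists_minimal
    ⟨univ, x₀, ⟨h0, fun v hv => absurd (Finset.mem_univ v) hv, h1⟩, hc⟩
  obtain ⟨⟨x1, hx1, hx1c⟩, hmin⟩ := hS
  -- compactness
  have hcomp : IsCompact (T S) := by
    have hsub : T S ⊆ Set.Icc (fun _ => (0 : ℝ)) (fun _ => (1 : ℝ)) := by
      rintro x ⟨hx0, -, hx1⟩
      refine ⟨fun v => hx0 v, fun v => ?_⟩
      rw [← hx1]
      exact Finset.single_le_sum (fun i _ => hx0 i) (Finset.mem_univ v)
    refine IsCompact.of_isClosed_subset isCompact_Icc ?_ hsub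
    have e : T S = (⋂ v, {x : V → ℝ | 0 ≤ x v}) ∩
        ((⋂ v, ⋂ (_ : v ∉ S), {x : V → ℝ | x v = 0}) ∩ {x : V → ℝ | ∑ v, x v = 1}) := by
      ext x; simp [hT]
    rw [e]
    refine IsClosed.inter (isClosed_iInter fun v => ?_) (IsClosed.inter ?_ ?_)
    · exact isClosed_le continuous_const (continuous_apply v)
    · exact isClosed_iInter fun v => isClosed_iInter fun _ =>
        isClosed_eq (continuous_apply v) continuous_const
    · exact isClosed_eq (continuous_finsetSum _ fun v _ => continuous_apply v) continuous_const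
  obtain ⟨x, hxT, hxmin⟩ := hcomp.exists_isMinOn ⟨x1, hx1⟩ (continuous_qf K).continuousOn
  have hxmin' : ∀ z ∈ T S, qf K x ≤ qf K z := fun z hz => hxmin hz
  have hxc : qf K x < c0 := lt_of_le_of_lt (hxmin' x1 hx1) hx1c
  obtain ⟨hx0, hxS, hxs⟩ := hxT
  -- minimality of the support
  have hkey : ∀ z ∈ T S, qf K z < c0 → ∀ v ∈ S, 0 < z v := by
    intro z hz hzc v hv
    by_contra hcon
    have hzv : z v = 0 := le_antisymm (not_lt.mp hcon) (hz.1 v)
    have hmem : S.erase v ∈ {S : Finset V | ∃ x ∈ T S, qf K x < c0} := by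
      refine ⟨z, ⟨hz.1, ?_, hz.2.2⟩, hzc⟩
      intro w hw
      by_cases hwv : w = v
      · rw [hwv]; exact hzv
      · exact hz.2.1 w (fun hwS => hw (Finset.mem_erase.mpr ⟨hwv, hwS⟩))
    have := hmin hmem (Finset.erase_subset v S)
    exact absurd (this hv) (Finset.notMem_erase v S)
  have hxpos : ∀ v ∈ S, 0 < x v := hkey x ⟨hx0, hxS, hxs⟩ hxc
  -- moving
  have hmove : ∀ f : V → ℝ, (∀ v, v ∉ S → f v = 0) → ∑ v, f v = 0 → ∀ t : ℝ,
      (∀ v, 0 ≤ x v + t * f v) → (fun v => x v + t * f v) ∈ T S := by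
    intro f hf hfs t ht
    refine ⟨ht, fun v hv => ?_, ?_⟩
    · show x v + t * f v = 0
      rw [hxS v hv, hf v hv]; ring
    · rw [Finset.sum_add_distrib, ← Finset.mul_sum, hfs, hxs]; ring
  have hB : ∀ f : V → ℝ, (∀ v, v ∉ S → f v = 0) → ∑ v, f v = 0 → bf K x f = 0 := by
    intro f hf hfs
    by_contra hne
    -- choose a small step
    obtain ⟨ε, hε, hεle⟩ : ∃ ε : ℝ, 0 < ε ∧ ∀ v ∈ S, ε * |f v| ≤ x v := by
      rcases S.eq_empty_or_nonempty with hSe | hSn
      · exact ⟨1, one_pos, by simp [hSe]⟩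
      · refine ⟨S.inf' hSn (fun v => x v / (|f v| + 1)), ?_, ?_⟩
        · rw [Finset.lt_inf'_iff]
          intro v hv
          have := hxpos v hv
          positivity
        · intro v hv
          have h1 : S.inf' hSn (fun v => x v / (|f v| + 1)) ≤ x v / (|f v| + 1) :=
            Finset.inf'_le _ hv
          have h2 : 0 ≤ |f v| := abs_nonneg _
          have h3 := hxpos v hv
          calc _ ≤ x v / (|f v| + 1) * |f v| := mul_le_mul_of_nonneg_right h1 h2
            _ ≤ x v := by
              rw [div_mul_eq_mul_div, div_le_iff₀ (by positivity)]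
              nlinarith
    set B := bf K x f with hBdef
    set Q := qf K f with hQdef
    have hstep : ∀ t : ℝ, |t| ≤ ε → 0 ≤ 2 * t * B + t ^ 2 * Q := by
      intro t ht
      have hmem := hmove f hf hfs t (by
        intro v
        by_cases hv : v ∈ S
        · have h1 := hεle v hv
          have h2 : |t * f v| ≤ ε * |f v| := by
            rw [abs_mul]; exact mul_le_mul_of_nonneg_right ht (abs_nonneg _)
          have h3 := neg_abs_le (t * f v)
          linarith
        · rw [hxS v hv, hf v hv]; simp)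
      have h4 := hxmin' _ hmem
      rw [qf_add K hK] at h4
      linarith
    have hBpos : 0 < |B| := abs_pos.mpr hne
    set δ := min (ε / |B|) (1 / (|Q| + 1)) with hδ
    have hδpos : 0 < δ := by
      refine lt_min (div_pos hε hBpos) ?_
      have := abs_nonneg Q
      positivity
    have hd1 : |(-δ * B)| ≤ ε := by
      rw [abs_mul, abs_neg, abs_of_pos hδpos]
      calc δ * |B| ≤ ε / |B| * |B| := mul_le_mul_of_nonneg_right (min_le_left _ _) hBpos.le
        _ = ε := by field_simp
    have hd2 : δ * Q ≤ 1 := by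
      have hq : Q ≤ |Q| := le_abs_self Q
      have hq0 : 0 ≤ |Q| := abs_nonneg Q
      calc δ * Q ≤ δ * |Q| := mul_le_mul_of_nonneg_left hq hδpos.le
        _ ≤ 1 / (|Q| + 1) * |Q| := mul_le_mul_of_nonneg_right (min_le_right _ _) hq0
        _ ≤ 1 := by
          rw [div_mul_eq_mul_div, one_mul, div_le_one (by positivity)]
          linarith
    have h5 := hstep _ hd1
    have h6 : 2 * (-δ * B) * B + (-δ * B) ^ 2 * Q = δ * B ^ 2 * (-2 + δ * Q) := by ring
    rw [h6] at h5
    have hB2 : 0 < B ^ 2 := by positivity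
    have : δ * B ^ 2 * (-2 + δ * Q) < 0 := by
      apply mul_neg_of_pos_of_neg (by positivity)
      linarith
    linarith
  -- strict positivity
  have hpd : ∀ f : V → ℝ, (∀ v, v ∉ S → f v = 0) → ∑ v, f v = 0 → f ≠ 0 → 0 < qf K f := by
    intro f hf hfs hfne
    by_contra hcon
    have hcon' : qf K f ≤ 0 := not_lt.mp hcon
    -- there is a negative coordinate
    have hneg : ∃ v, f v < 0 := by
      by_contra hall
      push Not at hall
      apply hfne
      have := (Finset.sum_eq_zero_iff_of_nonneg (fun v _ => hall v)).mp hfs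
      funext v
      exact this v (Finset.mem_univ v)
    set N : Finset V := univ.filter (fun v => f v < 0) with hN
    have hNn : N.Nonempty := by
      obtain ⟨v, hv⟩ := hneg
      exact ⟨v, by simp [hN, hv]⟩
    obtain ⟨v, hvN, hv⟩ := Finset.exists_min_image N (fun v => x v / (-f v)) hNn
    have hfv : f v < 0 := by simpa [hN] using hvN
    have hvS : v ∈ S := by
      by_contra h
      have := hf v h
      linarith
    set t := x v / (-f v) with ht
    have htpos : 0 < t := div_pos (hxpos v hvS) (by linarith)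
    have hnn : ∀ w, 0 ≤ x w + t * f w := by
      intro w
      by_cases hw : f w < 0
      · have h1 : t ≤ x w / (-f w) := hv w (by simp [hN, hw])
        have h2 : 0 < - f w := by linarith
        rw [le_div_iff₀ h2] at h1
        linarith
      · have h1 : 0 ≤ f w := not_lt.mp hw
        have := hx0 w
        positivity
    have hmem := hmove f hf hfs t hnn
    have hval : qf K (fun v => x v + t * f v) < c0 := by
      rw [qf_add K hK, hB f hf hfs]
      have : t ^ 2 * qf K f ≤ 0 := mul_nonpos_of_nonneg_of_nonpos (by positivity) hcon'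
      linarith
    have h7 := hkey _ hmem hval v hvS
    have h8 : x v + t * f v = 0 := by
      rw [ht]
      have : f v ≠ 0 := hfv.ne
      field_simp
      ring
    have h9 : 0 < x v + t * f v := h7
    linarith
  -- the gradient
  have hSne : S.Nonempty := by
    by_contra h
    rw [Finset.not_nonempty_iff_eq_empty] at h
    have : ∑ v, x v = 0 := Finset.sum_eq_zero fun v _ => hxS v (by simp [h])
    linarith
  obtain ⟨s, hs⟩ := hSne
  set q := ∑ w, K s w * x w with hq
  have hgrad : ∀ u ∈ S, ∑ w, K u w * x w = q := by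
    intro u hu
    by_cases hus : u = s
    · rw [hus]
    · have hz := hB (fun v => (if v = u then 1 else 0) - (if v = s then 1 else 0)) (by
          intro v hv
          have h1 : v ≠ u := fun h => hv (h ▸ hu)
          have h2 : v ≠ s := fun h => hv (h ▸ hs)
          simp [h1, h2]) (by
          rw [Finset.sum_sub_distrib]; simp)
      rw [bf_eq K x _ hK] at hz
      simp only [sub_mul, Finset.sum_sub_distrib, ite_mul, one_mul, zero_mul,
        Finset.sum_ite_eq', Finset.mem_univ, if_true] at hz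
      linarith
  refine ⟨S, x, q, ?_, hxpos, hxS, hxs, hgrad, hpd⟩
  have : qf K x = q := by
    have h1 : qf K x = bf K x x := rfl
    rw [h1, bf_eq K x x hK]
    have h2 : ∀ w, x w * ∑ u, K w u * x u = x w * q := by
      intro w
      by_cases hw : w ∈ S
      · rw [hgrad w hw]
      · rw [hxS w hw]; ring
    rw [Finset.sum_congr rfl fun w _ => h2 w, ← Finset.sum_mul, hxs, one_mul]
  linarith

end Pool.Agent.Lib_helper17.ED
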