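import Pool.Agent.Lib_helper17.ED.Defs

/-!
Greedy embedding and the inner gadgets of a cluster.
-/

namespace Pool.Agent.Lib_helper17.ED

open Finset

section eb

variable {V : Type*} (r : V → V → Prop)

theorem eb_nonneg (X Y : Finset V) : 0 ≤ eb r X Y := by
  unfold eb
  refine Finset.sum_nonneg fun x _ => Finset.sum_nonneg fun y _ => ?_
  split_ifs <;> norm_num

open scoped Classical in
theorem eb_mono {X X' Y Y' : Finset V} (hX : X ⊆ X') (hY : Y ⊆ Y') : eb r X Y ≤ eb r X' Y' := by
  unfold eb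
  calc _ ≤ ∑ x ∈ X, ∑ y ∈ Y', (if r x y then (1 : ℝ) else 0) := by
        refine Finset.sum_le_sum fun x _ => ?_
        refine Finset.sum_le_sum_of_subset_of_nonneg hY fun y _ _ => ?_
        split_ifs <;> norm_num
    _ ≤ _ := by
        refine Finset.sum_le_sum_of_subset_of_nonneg hX fun x _ _ => ?_
        refine Finset.sum_nonneg fun y _ => ?_
        split_ifs <;> norm_num

open scoped Classical in
theorem eb_row (x : V) (Y : Finset V) :
    ∑ y ∈ Y, (if r x y then (1 : ℝ) else 0) = ((Y.filter (fun y => r x y)).card : ℝ) := by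
  rw [Finset.sum_boole]

/-- complementary relations -/
theorem eb_compl (r' : V → V → Prop) (X Y : Finset V)
    (h : ∀ x ∈ X, ∀ y ∈ Y, (r' x y ↔ ¬ r x y)) :
    eb r' X Y = (X.card : ℝ) * Y.card - eb r X Y := by
  classical
  have : eb r' X Y + eb r X Y = (X.card : ℝ) * Y.card := by
    unfold eb
    rw [← Finset.sum_add_distrib]
    have : ∀ x ∈ X, (∑ y ∈ Y, (if r' x y then (1 : ℝ) else 0)) +
        ∑ y ∈ Y, (if r x y then (1 : ℝ) else 0) = (Y.card : ℝ) := by
      intro x hx
      rw [← Finset.sum_add_distrib]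
      have h2 : ∀ y ∈ Y, ((if r' x y then (1 : ℝ) else 0) + (if r x y then (1 : ℝ) else 0)) = 1 := by
        intro y hy
        have := h x hx y hy
        by_cases hr : r x y
        · have : ¬ r' x y := fun q => (this.mp q) hr
          simp [hr, this]
        · have : r' x y := this.mpr hr
          simp [hr, this]
      rw [Finset.sum_congr rfl h2, Finset.sum_const, nsmul_eq_mul, mul_one]
    rw [Finset.sum_congr rfl this, Finset.sum_const, nsmul_eq_mul]
  linarith

end eb

/-- greedy embedding lemma -/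
theorem greedy {V : Type*} [DecidableEq V] [Nonempty V] (m : ℕ) (Q : ℕ → ℕ → V → V → Prop)
    (W : ℕ → Finset V) (a b δ l : ℕ → ℕ → ℝ)
    (ha : ∀ s t, s < t → t < m → 0 < a s t)
    (H1 : ∀ s t, s < t → t < m → ∀ X ⊆ W s, ∀ Y ⊆ W t, a s t ≤ X.card → b s t ≤ Y.card →
      δ s t * (X.card : ℝ) * Y.card ≤ eb (Q s t) X Y)
    (hδ : ∀ s t, s < t → t < m → 0 ≤ δ s t)
    (H2 : ∀ t, t < m → l 0 t ≤ (W t).card)
    (H3 : ∀ k t, k < t → t < m → l (k + 1) t ≤ δ k t * l k t)
    (H4 : ∀ k, k < m → ∑ t ∈ Finset.Ioo k m, a k t < l k k)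
    (H5 : ∀ k t, k < t → t < m → b k t ≤ l k t) :
    ∃ f : ℕ → V, (∀ s, s < m → f s ∈ W s) ∧ ∀ s t, s < t → t < m → Q s t (f s) (f t) := by
  classical
  have main : ∀ k, k ≤ m → ∃ f : ℕ → V, (∀ s, s < k → f s ∈ W s) ∧
      (∀ s t, s < t → t < k → Q s t (f s) (f t)) ∧
      ∀ t, k ≤ t → t < m → l k t ≤ ((W t).filter (fun v => ∀ s, s < k → Q s t (f s) v)).card := by
    intro k
    induction k with
    | zero =>
      intro _
      refine ⟨fun _ => Classical.arbitrary V, by simp, by simp, ?_⟩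
      intro t _ ht
      refine (H2 t ht).trans ?_
      exact_mod_cast Finset.card_le_card (fun v hv => Finset.mem_filter.mpr
        ⟨hv, fun s hs => absurd hs (Nat.not_lt_zero s)⟩)
    | succ k ih =>
      intro hk
      obtain ⟨f, hf1, hf2, hf3⟩ := ih (by omega)
      have hkm : k < m := by omega
      set D : ℕ → Finset V := fun t => (W t).filter (fun v => ∀ s, s < k → Q s t (f s) v) with hD
      have hDW : ∀ t, D t ⊆ W t := fun t => Finset.filter_subset _ _
      have hDl : ∀ t, k ≤ t → t < m → l k t ≤ (D t).card := hf3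
      -- bad vertices
      set B : ℕ → Finset V := fun t => (D k).filter
        (fun x => (((D t).filter (fun y => Q k t x y)).card : ℝ) < δ k t * (D t).card) with hB
      have hBa : ∀ t, k < t → t < m → ((B t).card : ℝ) < a k t := by
        intro t hkt htm
        by_contra hcon
        push Not at hcon
        have h1 := H1 k t hkt htm (B t) ((Finset.filter_subset _ _).trans (hDW k)) (D t) (hDW t)
          hcon ((H5 k t hkt htm).trans (hDl t hkt.le htm))
        have hne : (B t).Nonempty := by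
          rw [← Finset.card_pos]
          have := ha k t hkt htm
          have h2 : (0 : ℝ) < (B t).card := lt_of_lt_of_le this hcon
          exact_mod_cast h2
        have h3 : eb (Q k t) (B t) (D t) < ∑ x ∈ B t, δ k t * (D t).card := by
          unfold eb
          refine Finset.sum_lt_sum_of_nonempty hne fun x hx => ?_
          rw [eb_row]
          exact (Finset.mem_filter.mp hx).2
        rw [Finset.sum_const, nsmul_eq_mul] at h3
        have h4 : (↑(#(B t)) : ℝ) * (δ k t * ↑(#(D t))) = δ k t * ↑(#(B t)) * ↑(#(D t)) := by ring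
        rw [h4] at h3
        linarith
      have hex : ∃ x ∈ D k, ∀ t, k < t → t < m → x ∉ B t := by
        by_contra hcon
        push Not at hcon
        have hsub : D k ⊆ (Finset.Ioo k m).biUnion B := by
          intro x hx
          obtain ⟨t, h1, h2, h3⟩ := hcon x hx
          exact Finset.mem_biUnion.mpr ⟨t, Finset.mem_Ioo.mpr ⟨h1, h2⟩, h3⟩
        have h1 : (D k).card ≤ ∑ t ∈ Finset.Ioo k m, (B t).card :=
          (Finset.card_le_card hsub).trans Finset.card_biUnion_le
        have h2 : ((D k).card : ℝ) ≤ ∑ t ∈ Finset.Ioo k m, ((B t).card : ℝ) := by exact_mod_cast h1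
        have h3 : ∑ t ∈ Finset.Ioo k m, ((B t).card : ℝ) ≤ ∑ t ∈ Finset.Ioo k m, a k t := by
          refine Finset.sum_le_sum fun t ht => ?_
          rw [Finset.mem_Ioo] at ht
          exact (hBa t ht.1 ht.2).le
        have h4 := H4 k hkm
        have h5 := hDl k le_rfl hkm
        linarith
      obtain ⟨x, hxD, hxB⟩ := hex
      refine ⟨Function.update f k x, ?_, ?_, ?_⟩
      · intro s hs
        by_cases hsk : s = k
        · subst hsk
          rw [Function.update_self]
          exact hDW _ hxD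
        · rw [Function.update_of_ne hsk]
          exact hf1 s (by omega)
      · intro s t hst ht
        have hsk : s ≠ k := by omega
        rw [Function.update_of_ne hsk]
        by_cases htk : t = k
        · subst htk
          rw [Function.update_self]
          exact (Finset.mem_filter.mp hxD).2 s hst
        · rw [Function.update_of_ne htk]
          exact hf2 s t hst (by omega)
      · intro t hkt htm
        have hkt' : k < t := by omega
        have hnB := hxB t hkt' htm
        have h1 : δ k t * (D t).card ≤ (((D t).filter (fun y => Q k t x y)).card : ℝ) := by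
          by_contra hcon
          push Not at hcon
          exact hnB (Finset.mem_filter.mpr ⟨hxD, hcon⟩)
        have h2 : (D t).filter (fun y => Q k t x y) ⊆
            (W t).filter (fun v => ∀ s, s < k + 1 → Q s t (Function.update f k x s) v) := by
          intro y hy
          rw [Finset.mem_filter] at hy ⊢
          have hyD := Finset.mem_filter.mp hy.1
          refine ⟨hyD.1, ?_⟩
          intro s hs
          by_cases hsk : s = k
          · subst hsk
            rw [Function.update_self]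
            exact hy.2
          · rw [Function.update_of_ne hsk]
            exact hyD.2 s (by omega)
        have h3 : (((D t).filter (fun y => Q k t x y)).card : ℝ) ≤
            ((W t).filter (fun v => ∀ s, s < k + 1 → Q s t (Function.update f k x s) v)).card := by
          exact_mod_cast Finset.card_le_card h2
        have h4 := H3 k t hkt' htm
        have h5 := hDl t hkt'.le htm
        have h6 : δ k t * l k t ≤ δ k t * (D t).card :=
          mul_le_mul_of_nonneg_left h5 (hδ k t hkt' htm)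
        linarith
  obtain ⟨f, hf1, hf2, -⟩ := main m le_rfl
  exact ⟨f, hf1, hf2⟩

/-- black gadget: a bipartite subpair which is dense on all large subsets -/
def BG {V : Type*} (r : V → V → Prop) (U : Finset V) (σ γ d : ℝ) : Prop :=
  ∃ W₁ W₂ : Finset V, W₁ ⊆ U ∧ W₂ ⊆ U ∧ σ * U.card ≤ W₁.card ∧ σ * U.card ≤ W₂.card ∧
    ∀ X ⊆ W₁, ∀ Y ⊆ W₂, γ * W₁.card ≤ X.card → γ * W₂.card ≤ Y.card →
      d * (X.card : ℝ) * Y.card ≤ eb r X Y

/-- white gadget: seven disjoint sets with very few edges between them -/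
def WG {V : Type*} (r : V → V → Prop) (U : Finset V) (σ η : ℝ) (k : ℕ) : Prop :=
  ∃ Z : ℕ → Finset V, (∀ i, i < k → Z i ⊆ U ∧ σ * U.card ≤ (Z i).card) ∧
    (∀ i j, i < j → j < k → Disjoint (Z i) (Z j)) ∧
    (∀ i j, i < j → j < k → eb r (Z i) (Z j) ≤ η * (Z i).card * (Z j).card)

theorem gadget_aux {V : Type*} (r : V → V → Prop) (γ d s : ℝ) (hγ : 0 < γ)
    (hγ1 : γ ≤ 1) (hd : 0 < d) (k : ℕ) :
    ∀ U : Finset V, 2 * (3 / γ) ^ k ≤ U.card → s * (3 / γ) ^ k * 3 ≤ U.card →
    (∀ W₁ ⊆ U, ∀ W₂ ⊆ U, s ≤ W₁.card → s ≤ W₂.card →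
      ∃ X ⊆ W₁, ∃ Y ⊆ W₂, γ * W₁.card ≤ X.card ∧ γ * W₂.card ≤ Y.card ∧
        eb r X Y < d * (X.card : ℝ) * Y.card) →
    WG r U ((γ / 3) ^ k) (d * (3 / γ) ^ k) (k + 1) := by
  classical
  have h3g : 1 ≤ 3 / γ := by rw [le_div_iff₀ hγ]; linarith
  have hg3 : γ / 3 ≤ 1 := by linarith
  have hinv : (3 / γ) * (γ / 3) = 1 := by field_simp
  induction k with
  | zero =>
    intro U _ _ _
    refine ⟨fun _ => U, ?_, ?_, ?_⟩
    · intro i _; exact ⟨subset_rfl, by simp⟩
    · intro i j hij hj; omega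
    · intro i j hij hj; omega
  | succ k ih =>
    intro U hU2 hUs hNB
    have hpk : 1 ≤ (3 / γ) ^ k := one_le_pow₀ h3g
    have hU6 : (6 : ℝ) ≤ U.card := by
      have : (3 : ℝ) ≤ 3 / γ := by rw [le_div_iff₀ hγ]; nlinarith
      calc (6 : ℝ) = 2 * (1 * 3) := by norm_num
        _ ≤ 2 * ((3 / γ) ^ k * (3 / γ)) := by gcongr
        _ = 2 * (3 / γ) ^ (k + 1) := by rw [pow_succ]
        _ ≤ U.card := hU2
    have hU6' : 6 ≤ U.card := by exact_mod_cast hU6
    -- split U
    obtain ⟨W₁, hW₁U, hW₁c⟩ := Finset.exists_subset_card_eq (by omega : U.card / 2 ≤ U.card)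
    set W₂ := U \ W₁ with hW₂
    have hW₂c : W₂.card = U.card - U.card / 2 := by
      rw [hW₂, Finset.card_sdiff_of_subset hW₁U, hW₁c]
    have hc1 : (U.card : ℝ) / 3 ≤ W₁.card := by
      rw [hW₁c]
      have : U.card ≤ 3 * (U.card / 2) := by omega
      have : (U.card : ℝ) ≤ 3 * ((U.card / 2 : ℕ) : ℝ) := by exact_mod_cast this
      linarith
    have hc2 : (U.card : ℝ) / 3 ≤ W₂.card := by
      rw [hW₂c]
      have : U.card ≤ 3 * (U.card - U.card / 2) := by omega
      have : (U.card : ℝ) ≤ 3 * ((U.card - U.card / 2 : ℕ) : ℝ) := by exact_mod_cast this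
      linarith
    have hs3 : s ≤ (U.card : ℝ) / 3 := by
      by_cases hs0 : 0 ≤ s
      · have h1 : 1 ≤ (3 / γ) ^ (k + 1) := one_le_pow₀ h3g
        have : s * 1 ≤ s * (3 / γ) ^ (k + 1) := mul_le_mul_of_nonneg_left h1 hs0
        linarith
      · push Not at hs0
        linarith
    obtain ⟨X, hX, Y, hY, hXc, hYc, hXY⟩ := hNB W₁ hW₁U W₂ Finset.sdiff_subset
      (hs3.trans hc1) (hs3.trans hc2)
    have hXU : (γ / 3) * U.card ≤ X.card := by
      calc (γ / 3) * U.card = γ * (U.card / 3) := by ring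
        _ ≤ γ * W₁.card := mul_le_mul_of_nonneg_left hc1 hγ.le
        _ ≤ X.card := hXc
    have hYU : (γ / 3) * U.card ≤ Y.card := by
      calc (γ / 3) * U.card = γ * (U.card / 3) := by ring
        _ ≤ γ * W₂.card := mul_le_mul_of_nonneg_left hc2 hγ.le
        _ ≤ Y.card := hYc
    have hYsub : Y ⊆ U := hY.trans Finset.sdiff_subset
    have hg0 : 0 ≤ γ / 3 := by positivity
    have hY2 : 2 * (3 / γ) ^ k ≤ Y.card := by
      have h1 := mul_le_mul_of_nonneg_left hU2 hg0
      have h2 : γ / 3 * (2 * (3 / γ) ^ (k + 1)) = 2 * (3 / γ) ^ k * ((3 / γ) * (γ / 3)) := by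
        rw [pow_succ]; ring
      rw [h2, hinv, mul_one] at h1
      linarith
    have hYs : s * (3 / γ) ^ k * 3 ≤ Y.card := by
      have h1 := mul_le_mul_of_nonneg_left hUs hg0
      have h2 : γ / 3 * (s * (3 / γ) ^ (k + 1) * 3) = s * (3 / γ) ^ k * 3 * ((3 / γ) * (γ / 3)) := by
        rw [pow_succ]; ring
      rw [h2, hinv, mul_one] at h1
      linarith
    obtain ⟨Z, hZ1, hZ2, hZ3⟩ := ih Y hY2 hYs (fun W₁ h1 W₂ h2 => hNB W₁ (h1.trans hYsub) W₂
      (h2.trans hYsub))
    have hpow : (γ / 3) ^ (k + 1) ≤ γ / 3 := by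
      calc (γ / 3) ^ (k + 1) = (γ / 3) ^ k * (γ / 3) := pow_succ _ _
        _ ≤ 1 * (γ / 3) := mul_le_mul_of_nonneg_right (pow_le_one₀ hg0 hg3) hg0
        _ = γ / 3 := one_mul _
    refine ⟨fun i => Nat.casesOn i X Z, ?_, ?_, ?_⟩
    · intro i hi
      cases i with
      | zero =>
        refine ⟨hX.trans hW₁U, ?_⟩
        calc (γ / 3) ^ (k + 1) * (U.card : ℝ) ≤ (γ / 3) * U.card :=
              mul_le_mul_of_nonneg_right hpow (Nat.cast_nonneg _)
          _ ≤ X.card := hXU
      | succ i =>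
        obtain ⟨h1, h2⟩ := hZ1 i (by omega)
        refine ⟨h1.trans hYsub, ?_⟩
        calc (γ / 3) ^ (k + 1) * (U.card : ℝ) = (γ / 3) ^ k * ((γ / 3) * U.card) := by
              rw [pow_succ]; ring
          _ ≤ (γ / 3) ^ k * Y.card := mul_le_mul_of_nonneg_left hYU (pow_nonneg hg0 _)
          _ ≤ _ := h2
    · intro i j hij hj
      cases j with
      | zero => omega
      | succ j =>
        cases i with
        | zero =>
          have h1 := (hZ1 j (by omega)).1
          refine Finset.disjoint_of_subset_left hX (Finset.disjoint_of_subset_right (h1.trans hY) ?_)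
          exact Finset.disjoint_sdiff
        | succ i => exact hZ2 i j (by omega) (by omega)
    · intro i j hij hj
      cases j with
      | zero => omega
      | succ j =>
        cases i with
        | zero =>
          obtain ⟨h1, h2⟩ := hZ1 j (by omega)
          show eb r X (Z j) ≤ _ * (X.card : ℝ) * (Z j).card
          have h3 : eb r X (Z j) ≤ d * (X.card : ℝ) * Y.card :=
            (eb_mono r subset_rfl h1).trans hXY.le
          have h4 : (Y.card : ℝ) ≤ (3 / γ) ^ k * (Z j).card := by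
            have h5 := mul_le_mul_of_nonneg_left h2 (by positivity : (0 : ℝ) ≤ (3 / γ) ^ k)
            rw [← mul_assoc, ← mul_pow, hinv, one_pow, one_mul] at h5
            exact h5
          have h6 : (3 / γ) ^ k ≤ (3 / γ) ^ (k + 1) := pow_le_pow_right₀ h3g (by omega)
          have hXn : (0 : ℝ) ≤ X.card := Nat.cast_nonneg _
          have hZn : (0 : ℝ) ≤ (Z j).card := Nat.cast_nonneg _
          calc eb r X (Z j) ≤ d * (X.card : ℝ) * Y.card := h3
            _ ≤ d * (X.card : ℝ) * ((3 / γ) ^ k * (Z j).card) := by gcongr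
            _ ≤ d * (X.card : ℝ) * ((3 / γ) ^ (k + 1) * (Z j).card) := by gcongr
            _ = _ := by ring
        | succ i =>
          have h1 := hZ3 i j (by omega) (by omega)
          have h6 : (3 / γ) ^ k ≤ (3 / γ) ^ (k + 1) := pow_le_pow_right₀ h3g (by omega)
          have hXn : (0 : ℝ) ≤ (Z i).card := Nat.cast_nonneg _
          have hZn : (0 : ℝ) ≤ (Z j).card := Nat.cast_nonneg _
          show eb r (Z i) (Z j) ≤ _ * ((Z i).card : ℝ) * (Z j).card
          calc eb r (Z i) (Z j) ≤ d * (3 / γ) ^ k * (Z i).card * (Z j).card := h1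
            _ ≤ _ := by gcongr

/-- every large set contains a black or a white gadget -/
theorem gadget {V : Type*} (r : V → V → Prop) (γ d : ℝ) (hγ : 0 < γ)
    (hγ1 : γ ≤ 1) (hd : 0 < d) (U : Finset V) (hU : 2 * (3 / γ) ^ 6 ≤ U.card) :
    BG r U ((γ / 3) ^ 7) γ d ∨ WG r U ((γ / 3) ^ 7) (d * (3 / γ) ^ 6) 7 := by
  classical
  by_cases hB : BG r U ((γ / 3) ^ 7) γ d
  · exact Or.inl hB
  right
  unfold BG at hB
  push Not at hB
  have hinv : (3 / γ) * (γ / 3) = 1 := by field_simp
  have hg3 : γ / 3 ≤ 1 := by linarith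
  have hg0 : 0 ≤ γ / 3 := by positivity
  have h := gadget_aux r γ d ((γ / 3) ^ 7 * U.card) hγ hγ1 hd 6 U hU (by
    have e : (γ / 3) ^ 7 * (U.card : ℝ) * (3 / γ) ^ 6 * 3
        = ((3 / γ) * (γ / 3)) ^ 6 * γ * U.card := by ring
    rw [e, hinv, one_pow, one_mul]
    have hUn : (0 : ℝ) ≤ U.card := Nat.cast_nonneg _
    nlinarith) (by
    intro W₁ h1 W₂ h2 h3 h4
    obtain ⟨X, hX, Y, hY, q1, q2, q3⟩ := hB W₁ W₂ h1 h2 h3 h4
    exact ⟨X, hX, Y, hY, q1, q2, q3⟩)
  obtain ⟨Z, hZ1, hZ2, hZ3⟩ := h
  refine ⟨Z, fun i hi => ⟨(hZ1 i hi).1, ?_⟩, hZ2, hZ3⟩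
  refine le_trans ?_ (hZ1 i hi).2
  refine mul_le_mul_of_nonneg_right ?_ (Nat.cast_nonneg _)
  exact pow_le_pow_of_le_one hg0 hg3 (by norm_num)

end Pool.Agent.Lib_helper17.ED
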