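import Pool.Agent.Lib_helper17.ED.Final

/-!
The limit, given the upper bound.
-/

namespace Pool.Agent.Lib_helper17.ED

open Finset

theorem limit_of_upper
    (hup : ∀ (n : ℕ), 2 ≤ n → ∀ G : SimpleGraph (Fin n),
      ∃ G' : SimpleGraph (Fin n), Free77 G' ∧ (edits G G' : ℝ) ≤ qstar * (n.choose 2 : ℝ)) :
    Filter.Tendsto edn Filter.atTop (nhds qstar) := by
  have hchoose : ∀ n : ℕ, 2 ≤ n → (0 : ℝ) < (n.choose 2 : ℝ) := by
    intro n hn
    exact_mod_cast Nat.choose_pos hn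
  have hq0 := qstar_pos
  have hbdd : ∀ n, BddAbove (Set.range fun G : SimpleGraph (Fin n) =>
      (dist77 G : ℝ) / (n.choose 2 : ℝ)) := fun n => (Set.finite_range _).bddAbove
  have hU : ∀ n, 2 ≤ n → edn n ≤ qstar := by
    intro n hn
    refine ciSup_le fun G => ?_
    obtain ⟨G', hf, he⟩ := hup n hn G
    rw [div_le_iff₀ (hchoose n hn)]
    have h1 : dist77 G ≤ edits G G' := Nat.sInf_le ⟨G', hf, rfl⟩
    have h2 : (dist77 G : ℝ) ≤ edits G G' := by exact_mod_cast h1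
    linarith
  rw [Metric.tendsto_atTop]
  intro ε hε
  obtain ⟨N, hN⟩ := lower (min (ε / 2) (qstar / 2)) (lt_min (by linarith) (by linarith))
  refine ⟨max N 2, fun n hn => ?_⟩
  have hn2 : 2 ≤ n := (le_max_right _ _).trans hn
  obtain ⟨G, hG⟩ := hN n ((le_max_left _ _).trans hn)
  have h1 : edn n ≤ qstar := hU n hn2
  -- the distance is attained
  have hne : {k | ∃ G' : SimpleGraph (Fin n), Free77 G' ∧ edits G G' = k}.Nonempty := by
    obtain ⟨G', hf, -⟩ := hup n hn2 G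
    exact ⟨_, G', hf, rfl⟩
  obtain ⟨G', hf, he⟩ := Nat.sInf_mem hne
  have h2 := hG G' hf
  have h3 : (dist77 G : ℝ) = edits G G' := by
    rw [he]; rfl
  have h4 : (qstar - min (ε / 2) (qstar / 2)) * (n.choose 2 : ℝ) ≤ dist77 G := by
    rw [h3]
    have h5 : (n.choose 2 : ℝ) = (n : ℝ) * (n - 1) / 2 := Nat.cast_choose_two ℝ n
    have h6 : (0 : ℝ) ≤ qstar - min (ε / 2) (qstar / 2) := by
      have := min_le_right (ε / 2) (qstar / 2)
      linarith
    have h7 : (n.choose 2 : ℝ) ≤ (n : ℝ) ^ 2 / 2 := by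
      rw [h5]
      have : (0 : ℝ) ≤ n := Nat.cast_nonneg n
      nlinarith
    have h8 := mul_le_mul_of_nonneg_left h7 h6
    linarith
  have h5 : qstar - min (ε / 2) (qstar / 2) ≤ edn n := by
    have h6 : (dist77 G : ℝ) / (n.choose 2 : ℝ) ≤ edn n := le_ciSup (hbdd n) G
    refine le_trans ?_ h6
    rw [le_div_iff₀ (hchoose n hn2)]
    exact h4
  rw [Real.dist_eq, abs_lt]
  have h6 := min_le_left (ε / 2) (qstar / 2)
  constructor <;> linarith

end Pool.Agent.Lib_helper17.ED
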