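import Pool.Agent.Lib_helper17.ED.Embed

/-!
The lower bound from Szemerédi's regularity lemma.
-/

namespace Pool.Agent.Lib_helper17.ED

open Finset

theorem eb_density {V : Type*} [DecidableEq V] (G : SimpleGraph V) [DecidableRel G.Adj]
    (X Y : Finset V) : eb G.Adj X Y = (G.edgeDensity X Y : ℝ) * X.card * Y.card := by
  have h1 : eb G.Adj X Y = ((G.interedges X Y).card : ℝ) := by
    unfold eb
    rw [SimpleGraph.interedges_def, ← Finset.sum_product', Finset.card_filter, Nat.cast_sum]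
    refine Finset.sum_congr rfl fun e _ => ?_
    by_cases h : G.Adj e.1 e.2 <;> simp [h]
  rw [h1, SimpleGraph.edgeDensity_def]
  rcases X.eq_empty_or_nonempty with rfl | hX
  · simp
  rcases Y.eq_empty_or_nonempty with rfl | hY
  · simp [SimpleGraph.interedges_def]
  have hX' : (X.card : ℝ) ≠ 0 := by exact_mod_cast (Finset.card_pos.mpr hX).ne'
  have hY' : (Y.card : ℝ) ≠ 0 := by exact_mod_cast (Finset.card_pos.mpr hY).ne'
  push_cast
  field_simp

/-- uniformity in terms of `eb`: lower bound for the number of edges -/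
theorem unif_adj {V : Type*} [DecidableEq V] (G : SimpleGraph V) [DecidableRel G.Adj]
    {ε δ : ℝ} {s t : Finset V} (h : G.IsUniform ε s t) (hεδ : ε ≤ δ)
    (hd : 2 * δ ≤ (G.edgeDensity s t : ℝ)) (X Y : Finset V) (hX : X ⊆ s) (hY : Y ⊆ t)
    (hXc : ε * s.card ≤ X.card) (hYc : ε * t.card ≤ Y.card) :
    δ * (X.card : ℝ) * Y.card ≤ eb G.Adj X Y := by
  have h1 := h hX hY (by linarith) (by linarith)
  rw [eb_density]
  have h2 := (abs_lt.mp h1).1
  have h3 : δ ≤ (G.edgeDensity X Y : ℝ) := by linarith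
  gcongr

/-- uniformity in terms of `eb`: lower bound for the number of non-edges -/
theorem unif_non {V : Type*} [DecidableEq V] (G : SimpleGraph V) [DecidableRel G.Adj]
    {ε δ : ℝ} {s t : Finset V} (h : G.IsUniform ε s t) (hεδ : ε ≤ δ) (hdis : Disjoint s t)
    (hd : (G.edgeDensity s t : ℝ) ≤ 1 - 2 * δ) (X Y : Finset V) (hX : X ⊆ s) (hY : Y ⊆ t)
    (hXc : ε * s.card ≤ X.card) (hYc : ε * t.card ≤ Y.card) :
    δ * (X.card : ℝ) * Y.card ≤ eb (fun x y => x ≠ y ∧ ¬ G.Adj x y) X Y := by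
  have h1 := h hX hY (by linarith) (by linarith)
  have h2 := (abs_lt.mp h1).2
  have h3 : (G.edgeDensity X Y : ℝ) ≤ 1 - δ := by linarith
  rw [eb_compl G.Adj _ X Y, eb_density]
  · have hXn : (0 : ℝ) ≤ X.card := Nat.cast_nonneg _
    have hYn : (0 : ℝ) ≤ Y.card := Nat.cast_nonneg _
    have h4 : (G.edgeDensity X Y : ℝ) * X.card * Y.card ≤ (1 - δ) * X.card * Y.card := by gcongr
    linarith
  · intro x hx y hy
    have : x ≠ y := by
      rintro rfl
      exact Finset.disjoint_left.mp hdis (hX hx) (hY hy)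
    exact ⟨fun q => q.2, fun q => ⟨this, q⟩⟩

/-- the number of ordered pairs on which two graphs differ is twice the number of edits -/
theorem eb_edits {n : ℕ} (G G' : SimpleGraph (Fin n)) :
    eb (fun x y => ¬ (G.Adj x y ↔ G'.Adj x y)) univ univ = 2 * (edits G G' : ℝ) := by
  classical
  set H : SimpleGraph (Fin n) := symmDiff G G' with hH
  have hHadj : ∀ x y, H.Adj x y ↔ ¬ (G.Adj x y ↔ G'.Adj x y) := by
    intro x y
    rw [hH, symmDiff_def]
    simp only [SimpleGraph.sup_adj, SimpleGraph.sdiff_adj]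
    tauto
  have hHe : H.edgeSet = symmDiff G.edgeSet G'.edgeSet := by
    ext e
    induction e using Sym2.ind with
    | _ x y =>
      rw [SimpleGraph.mem_edgeSet, hHadj, Set.mem_symmDiff, SimpleGraph.mem_edgeSet,
        SimpleGraph.mem_edgeSet]
      tauto
  have h1 : edits G G' = H.edgeFinset.card := by
    unfold edits
    rw [← hHe, ← SimpleGraph.coe_edgeFinset, Set.ncard_coe_finset]
  have h2 := H.sum_degrees_eq_twice_card_edges
  have h3 : eb (fun x y => ¬ (G.Adj x y ↔ G'.Adj x y)) univ univ = ∑ x, (H.degree x : ℝ) := by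
    unfold eb
    refine Finset.sum_congr rfl fun x _ => ?_
    rw [eb_row (fun x y => ¬ (G.Adj x y ↔ G'.Adj x y)) x univ]
    congr 1
    rw [← SimpleGraph.card_neighborFinset_eq_degree]
    congr 1
    ext y
    simp only [Finset.mem_filter, Finset.mem_univ, true_and, SimpleGraph.mem_neighborFinset]
    exact (hHadj x y).symm
  rw [h3, h1]
  exact_mod_cast h2

theorem eb_univ {V : Type*} [Fintype V] [DecidableEq V] (P : Finpartition (univ : Finset V))
    (r : V → V → Prop) :
    eb r univ univ = ∑ p : {p // p ∈ P.parts}, ∑ q : {p // p ∈ P.parts}, eb r p.1 q.1 := by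
  classical
  have h1 : ∀ F : V → ℝ, ∑ x, F x = ∑ p : {p // p ∈ P.parts}, ∑ x ∈ p.1, F x := by
    intro F
    rw [Finset.sum_coe_sort P.parts (fun p => ∑ x ∈ p, F x)]
    conv_lhs => rw [← P.biUnion_parts]
    exact Finset.sum_biUnion P.disjoint
  unfold eb
  rw [h1]
  refine Finset.sum_congr rfl fun p _ => ?_
  rw [Finset.sum_comm]
  rw [h1]
  refine Finset.sum_congr rfl fun q _ => ?_
  rw [Finset.sum_comm]

open scoped Classical in
theorem lower_core {n : ℕ} (G G' : SimpleGraph (Fin n)) (hfree : Free77 G')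
    (δ γ d ε₁ ε₂ : ℝ) (hδ0 : 0 < δ) (hδ1 : δ ≤ 1 / 4) (hγ0 : 0 < γ) (hγ : 14 * γ ≤ δ ^ 14)
    (hd0 : 0 < d) (hd : d * (3 / γ) ^ 6 ≤ γ ^ 2 / 2) (hε0 : 0 < ε₁)
    (hε1 : ε₁ ≤ γ * (γ / 3) ^ 7) (hε2 : 14 * ε₁ ≤ δ ^ 14 * d * (γ / 3) ^ 7) (hε3 : ε₁ ≤ δ)
    (hε₂ : 0 ≤ ε₂)
    (P : Finpartition (univ : Finset (Fin n))) (hPe : P.IsEquipartition)
    (hsize : ∀ p ∈ P.parts, 2 * (3 / γ) ^ 6 ≤ (p.card : ℝ))
    (hunif : P.IsUniform G' ε₁) (hn : 0 < n) (hkn : P.parts.card ≤ n)
    (hG : ∀ X Y : Finset (Fin n),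
      |eb G.Adj X Y - pp * (X.card : ℝ) * (Y.card : ℝ)| ≤ ε₂ * (n : ℝ) ^ 2) :
    qstar * ((n : ℝ) - P.parts.card) ^ 2 - ((n : ℝ) ^ 2 / P.parts.card + n)
      - 2 * δ * (n : ℝ) ^ 2 - (P.parts.card : ℝ) ^ 2 * (ε₂ * (n : ℝ) ^ 2)
      - 4 * ε₁ * (n : ℝ) ^ 2 ≤ 2 * (edits G G' : ℝ) := by
  have hp0 := pp_pos
  have hp2 := pp_lt
  set k := P.parts.card with hk
  have hnR : (0 : ℝ) < n := by exact_mod_cast hn
  have hn1 : (univ : Finset (Fin n)).card = n := by simp
  have hknat : 0 < k := by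
    rw [hk, Finset.card_pos, P.parts_nonempty_iff]
    intro h
    have : (univ : Finset (Fin n)).card = 0 := by rw [h]; rfl
    omega
  have hkR : (0 : ℝ) < k := by exact_mod_cast hknat
  let I := {p // p ∈ P.parts}
  have hIcard : Fintype.card I = k := by simp [I, hk]
  let U : I → I → Prop := fun p q => G'.IsUniform ε₁ p.1 q.1
  let dens : I → I → ℝ := fun p q => (G'.edgeDensity p.1 q.1 : ℝ)
  have hUsymm : ∀ p q, U p q → U q p := fun p q h => h.symm
  have hdsymm : ∀ p q, dens p q = dens q p := fun p q => by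
    simp only [dens]; rw [SimpleGraph.edgeDensity_comm]
  let wv : I → Prop := fun p => WG G'.Adj p.1 ((γ / 3) ^ 7) (d * (3 / γ) ^ 6) 7
  let we : I → I → Prop := fun p q => U p q ∧ dens p q < 2 * δ
  let be : I → I → Prop := fun p q => ¬ U p q ∨ 1 - 2 * δ < dens p q
  have hwe : ∀ p q, we p q → we q p := fun p q h => ⟨hUsymm _ _ h.1, by rw [hdsymm]; exact h.2⟩
  have hbe : ∀ p q, be p q → be q p := by
    rintro p q (h | h)
    · exact Or.inl fun h' => h (hUsymm _ _ h')
    · exact Or.inr (by rw [hdsymm]; exact h)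
  have hdisj : ∀ p q, we p q → ¬ be p q := by
    rintro p q ⟨h1, h2⟩ (h | h)
    · exact h h1
    · linarith
  have hpd : ∀ p q : I, p ≠ q → Disjoint p.1 q.1 := by
    intro p q hpq
    exact P.disjoint p.2 q.2 (fun h => hpq (Subtype.ext h))
  have hne : ∀ p : I, p.1.Nonempty := fun p => P.nonempty_of_mem_parts p.2
  have hγ1 : γ ≤ 1 := by
    have : δ ^ 14 ≤ 1 := pow_le_one₀ hδ0.le (by linarith)
    linarith
  have hno : ∀ a b : Fin 7 → I, ¬ Emb wv we be a b := by
    intro a b hE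
    refine embed G' (fun p : I => p.1) hne hwe hbe δ γ d ε₁ hδ0 (by linarith) hγ0 hγ hd0 hd hε0
      hε1 hε2 ?_ ?_ ?_ ?_ a b hE hfree
    · intro p hp; exact hp
    · intro p hp
      exact (gadget G'.Adj γ d hγ0 hγ1 hd0 p.1 (hsize p.1 p.2)).resolve_right hp
    · intro p q hpq h1 h2 X hX Y hY hXc hYc
      have hu : U p q := by
        by_contra h
        exact h2 (Or.inl h)
      have hdd : 2 * δ ≤ dens p q := by
        by_contra h
        push Not at h
        exact h1 ⟨hu, h⟩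
      exact unif_adj G' hu hε3 hdd X Y hX hY hXc hYc
    · intro p q hpq h2 X hX Y hY hXc hYc
      have hu : U p q := by
        by_contra h
        exact h2 (Or.inl h)
      have hdd : dens p q ≤ 1 - 2 * δ := by
        by_contra h
        push Not at h
        exact h2 (Or.inr h)
      exact unif_non G' hu hε3 (hpd p q hpq) hdd X Y hX hY hXc hYc
  have hI : Nonempty I := by
    rw [← Fintype.card_pos_iff, hIcard]; exact hknat
  have hcrg := crg_uniform wv we be hwe hbe hdisj hno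
  rw [hIcard] at hcrg
  -- pointwise lower bound
  set D : Fin n → Fin n → Prop := fun x y => ¬ (G.Adj x y ↔ G'.Adj x y) with hD
  have hDG : ∀ X Y : Finset (Fin n), eb G.Adj X Y - eb G'.Adj X Y ≤ eb D X Y := by
    intro X Y
    unfold eb
    rw [← Finset.sum_sub_distrib]
    refine Finset.sum_le_sum fun x _ => ?_
    rw [← Finset.sum_sub_distrib]
    refine Finset.sum_le_sum fun y _ => ?_
    by_cases h1 : G.Adj x y <;> by_cases h2 : G'.Adj x y <;> simp [hD, h1, h2]
  have hDG' : ∀ X Y : Finset (Fin n), eb G'.Adj X Y - eb G.Adj X Y ≤ eb D X Y := by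
    intro X Y
    unfold eb
    rw [← Finset.sum_sub_distrib]
    refine Finset.sum_le_sum fun x _ => ?_
    rw [← Finset.sum_sub_distrib]
    refine Finset.sum_le_sum fun y _ => ?_
    by_cases h1 : G.Adj x y <;> by_cases h2 : G'.Adj x y <;> simp [hD, h1, h2]
  have hn2 : 0 ≤ ε₂ * (n : ℝ) ^ 2 := by positivity
  have hpt : ∀ p q : I, mm wv we be p q * ((p.1.card : ℝ) * q.1.card)
      - (if p = q then ((p.1.card : ℝ) * q.1.card) else 0)
      - 2 * δ * ((p.1.card : ℝ) * q.1.card) - ε₂ * (n : ℝ) ^ 2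
      - (if p ≠ q ∧ ¬ U p q then ((p.1.card : ℝ) * q.1.card) else 0) ≤ eb D p.1 q.1 := by
    intro p q
    have hcc : (0 : ℝ) ≤ (p.1.card : ℝ) * q.1.card := by positivity
    have hE0 := eb_nonneg D p.1 q.1
    have hδc : 0 ≤ 2 * δ * ((p.1.card : ℝ) * q.1.card) := by positivity
    have hm1 : mm wv we be p q ≤ 1 := by
      unfold mm
      split_ifs <;> linarith
    have hm1' : mm wv we be p q * ((p.1.card : ℝ) * q.1.card) ≤ 1 * ((p.1.card : ℝ) * q.1.card) :=
      mul_le_mul_of_nonneg_right hm1 hcc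
    by_cases hpq : p = q
    · have : ¬ (p ≠ q ∧ ¬ U p q) := fun h => h.1 hpq
      rw [if_pos hpq, if_neg this]
      linarith
    · rw [if_neg hpq]
      by_cases hu : U p q
      · have : ¬ (p ≠ q ∧ ¬ U p q) := fun h => h.2 hu
        rw [if_neg this]
        have hq := hG p.1 q.1
        have hq' := abs_le.mp hq
        have hd' : eb G'.Adj p.1 q.1 = dens p q * ((p.1.card : ℝ) * q.1.card) := by
          rw [eb_density]; simp only [dens]; ring
        by_cases h1 : we p q
        · have hm : mm wv we be p q = pp := by simp only [mm, hpq, h1, if_true, if_false]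
          rw [hm]
          have h3 := hDG p.1 q.1
          have h4 : dens p q * ((p.1.card : ℝ) * q.1.card) ≤ 2 * δ * ((p.1.card : ℝ) * q.1.card) :=
            mul_le_mul_of_nonneg_right h1.2.le hcc
          rw [hd'] at h3
          linarith [hq'.1]
        · by_cases h2 : be p q
          · have hm : mm wv we be p q = 1 - pp := by
              simp only [mm, hpq, h1, h2, if_true, if_false]
            rw [hm]
            have h3 := hDG' p.1 q.1
            have h5 : 1 - 2 * δ < dens p q := h2.resolve_left (fun h => h hu)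
            have h4 : (1 - 2 * δ) * ((p.1.card : ℝ) * q.1.card)
                ≤ dens p q * ((p.1.card : ℝ) * q.1.card) :=
              mul_le_mul_of_nonneg_right h5.le hcc
            rw [hd'] at h3
            linarith [hq'.2]
          · have hm : mm wv we be p q = 0 := by simp only [mm, hpq, h1, h2, if_false]
            rw [hm]
            linarith
      · rw [if_pos ⟨hpq, hu⟩]
        linarith
  -- sum up
  have htot : eb D univ univ = 2 * (edits G G' : ℝ) := eb_edits G G'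
  rw [← htot, eb_univ P D]
  refine le_trans ?_ (Finset.sum_le_sum fun p _ => Finset.sum_le_sum fun q _ => hpt p q)
  simp only [Finset.sum_sub_distrib]
  have hsz : ∀ p : I, n / k ≤ p.1.card ∧ p.1.card ≤ n / k + 1 := by
    intro p
    have h1 := hPe.average_le_card_part p.2
    have h2 := hPe.card_part_le_average_add_one p.2
    rw [hn1] at h1 h2
    exact ⟨h1, h2⟩
  have hsumc : ∑ p : I, (p.1.card : ℝ) = n := by
    have h1 := P.sum_card_parts
    rw [hn1] at h1
    rw [Finset.sum_coe_sort P.parts (fun p => (p.card : ℝ))]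
    exact_mod_cast h1
  -- term A
  have hfl : ((n : ℝ) - k) ≤ k * ((n / k : ℕ) : ℝ) := by
    have h1 : n < k * (n / k) + k := by
      have := Nat.div_add_mod n k
      have := Nat.mod_lt n hknat
      omega
    have h2 : (n : ℝ) < k * ((n / k : ℕ) : ℝ) + k := by exact_mod_cast h1
    linarith
  have hmmn : ∀ p q, 0 ≤ mm wv we be p q := by
    intro p q
    unfold mm
    split_ifs <;> linarith
  have hA : qstar * ((n : ℝ) - k) ^ 2 ≤
      ∑ p : I, ∑ q : I, mm wv we be p q * ((p.1.card : ℝ) * q.1.card) := by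
    have h1 : ∑ p : I, ∑ q : I, mm wv we be p q * (((n / k : ℕ) : ℝ) * ((n / k : ℕ) : ℝ)) ≤
        ∑ p : I, ∑ q : I, mm wv we be p q * ((p.1.card : ℝ) * q.1.card) := by
      refine Finset.sum_le_sum fun p _ => Finset.sum_le_sum fun q _ => ?_
      refine mul_le_mul_of_nonneg_left ?_ (hmmn p q)
      have h2 : ((n / k : ℕ) : ℝ) ≤ p.1.card := by exact_mod_cast (hsz p).1
      have h3 : ((n / k : ℕ) : ℝ) ≤ q.1.card := by exact_mod_cast (hsz q).1
      exact mul_le_mul h2 h3 (Nat.cast_nonneg _) (Nat.cast_nonneg _)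
    refine le_trans ?_ h1
    simp only [← Finset.sum_mul]
    have hq0 : 0 ≤ qstar := by
      unfold qstar
      have := Sys.r3_lt
      linarith
    have hnk : (0 : ℝ) ≤ (n : ℝ) - k := by
      have : (k : ℝ) ≤ n := by exact_mod_cast hkn
      linarith
    calc qstar * ((n : ℝ) - k) ^ 2 ≤ qstar * (k * ((n / k : ℕ) : ℝ)) ^ 2 := by gcongr
      _ = qstar * (k : ℝ) ^ 2 * (((n / k : ℕ) : ℝ) * ((n / k : ℕ) : ℝ)) := by ring
      _ ≤ _ := mul_le_mul_of_nonneg_right hcrg (by positivity)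
  -- term B
  have hB : ∑ p : I, ∑ q : I, (if p = q then ((p.1.card : ℝ) * q.1.card) else 0)
      ≤ (n : ℝ) ^ 2 / k + n := by
    have h1 : ∀ p : I, ∑ q : I, (if p = q then ((p.1.card : ℝ) * q.1.card) else 0)
        ≤ ((n : ℝ) / k + 1) * p.1.card := by
      intro p
      rw [Finset.sum_ite_eq]
      simp only [Finset.mem_univ, if_true]
      have h2 : (p.1.card : ℝ) ≤ ((n / k : ℕ) : ℝ) + 1 := by exact_mod_cast (hsz p).2
      have h3 : ((n / k : ℕ) : ℝ) ≤ (n : ℝ) / k := Nat.cast_div_le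
      exact mul_le_mul_of_nonneg_right (by linarith) (Nat.cast_nonneg _)
    calc _ ≤ ∑ p : I, ((n : ℝ) / k + 1) * p.1.card := Finset.sum_le_sum fun p _ => h1 p
      _ = ((n : ℝ) / k + 1) * n := by rw [← Finset.mul_sum, hsumc]
      _ = _ := by ring
  -- term C
  have hC : ∑ p : I, ∑ q : I, 2 * δ * ((p.1.card : ℝ) * q.1.card) = 2 * δ * (n : ℝ) ^ 2 := by
    simp only [← Finset.mul_sum]
    rw [← Finset.sum_mul, hsumc]
    ring
  have hC2 : ∑ _p : I, ∑ _q : I, ε₂ * (n : ℝ) ^ 2 = (k : ℝ) ^ 2 * (ε₂ * (n : ℝ) ^ 2) := by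
    simp only [Finset.sum_const, Finset.card_univ, hIcard, nsmul_eq_mul]
    ring
  -- term E
  have hE : ∑ p : I, ∑ q : I, (if p ≠ q ∧ ¬ U p q then ((p.1.card : ℝ) * q.1.card) else 0)
      ≤ 4 * ε₁ * (n : ℝ) ^ 2 := by
    have h1 : ∑ p : I, ∑ q : I, (if p ≠ q ∧ ¬ U p q then ((p.1.card : ℝ) * q.1.card) else 0)
        = ∑ i ∈ P.nonUniforms G' ε₁, ((i.1.card : ℝ) * i.2.card) := by
      have e1 : ∀ p : I, ∑ q : I, (if p ≠ q ∧ ¬ U p q then ((p.1.card : ℝ) * q.1.card) else 0)
          = ∑ q ∈ P.parts, (if p.1 ≠ q ∧ ¬ G'.IsUniform ε₁ p.1 q then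
            ((p.1.card : ℝ) * q.card) else 0) := by
        intro p
        rw [← Finset.sum_coe_sort P.parts]
        refine Finset.sum_congr rfl fun q _ => ?_
        have hiff : (p = q) ↔ (p.1 = q.1) := ⟨fun h => congrArg Subtype.val h, Subtype.ext⟩
        simp only [U, ne_eq, hiff]
      rw [Finset.sum_congr rfl fun p _ => e1 p]
      rw [Finset.sum_coe_sort P.parts (fun p => ∑ q ∈ P.parts,
        (if p ≠ q ∧ ¬ G'.IsUniform ε₁ p q then ((p.card : ℝ) * q.card) else 0))]
      rw [← Finset.sum_product', ← Finset.sum_filter]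
      refine Finset.sum_congr ?_ fun _ _ => rfl
      ext ⟨p, q⟩
      rw [Finset.mem_filter, Finpartition.mk_mem_nonUniforms, Finset.mem_product]
      tauto
    rw [h1]
    have h2 := hPe.sum_nonUniforms_lt' (A := univ) (⟨⟨0, hn⟩, Finset.mem_univ _⟩) hε0 hunif
    refine h2.le.trans ?_
    rw [hn1]
    have h3 : (k : ℝ) ≤ n := by exact_mod_cast hkn
    calc ε₁ * ((n : ℝ) + k) ^ 2 ≤ ε₁ * ((n : ℝ) + n) ^ 2 := by gcongr
      _ = _ := by ring
  rw [hC, hC2]
  linarith

end Pool.Agent.Lib_helper17.ED
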