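import Pool.Agent.Lib_helper17.ED.Sys

/-!
Local structure around an induced path on four vertices.
-/

namespace Pool.Agent.Lib_helper17.ED

open Finset

namespace Sys

variable {V : Type*} [Fintype V] (S : Sys V)

theorem no_h {d1 u1 v1 d2 u2 v2 : V} (h1 : S.A d1 u1) (h2 : S.A d1 v1) (h3 : S.A u1 v1)
    (h4 : S.A d2 u2) (h5 : S.A d2 v2) (h6 : S.A u2 v2) (h7 : S.A d1 d2)
    (n1 : S.N d1 u2) (n2 : S.N d1 v2) (n3 : S.N u1 d2) (n4 : S.N u1 u2) (n5 : S.N u1 v2)
    (n6 : S.N v1 d2) (n7 : S.N v1 u2) (n8 : S.N v1 v2) : False := by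
  have := S.pdk ![d1, u1, v1, d2, u2, v2]
    ![1, -((√3 - 1) / 2), -((√3 - 1) / 2), -1, (√3 - 1) / 2, (√3 - 1) / 2] (by simp)
    (by
      intro j hj
      fin_cases j
      · exact absurd rfl hj
      · exact (A.ne h1).symm
      · exact (A.ne h2).symm
      · exact (A.ne h7).symm
      · exact n1.1.symm
      · exact n2.1.symm)
  simp [Fin.sum_univ_succ, S.k_self, S.k_adj h1, S.k_adj' h1, S.k_adj h2, S.k_adj' h2,
    S.k_adj h3, S.k_adj' h3, S.k_adj h4, S.k_adj' h4, S.k_adj h5, S.k_adj' h5,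
    S.k_adj h6, S.k_adj' h6, S.k_adj h7, S.k_adj' h7, S.k_non n1, S.k_non' n1,
    S.k_non n2, S.k_non' n2, S.k_non n3, S.k_non' n3, S.k_non n4, S.k_non' n4,
    S.k_non n5, S.k_non' n5, S.k_non n6, S.k_non' n6, S.k_non n7, S.k_non' n7,
    S.k_non n8, S.k_non' n8] at this
  nlinarith [sq3, r3_gt, r3_lt]

/-- mass of a finite set -/
noncomputable def m (F : Finset V) : ℝ := ∑ v ∈ F, S.y v

theorem m_nonneg (F : Finset V) : 0 ≤ S.m F := Finset.sum_nonneg fun v _ => (S.pos v).le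

theorem m_mono {F G : Finset V} (h : F ⊆ G) : S.m F ≤ S.m G :=
  Finset.sum_le_sum_of_subset_of_nonneg h fun v _ _ => (S.pos v).le

theorem m_pos {F : Finset V} (h : F.Nonempty) : 0 < S.m F :=
  Finset.sum_pos (fun v _ => S.pos v) h

theorem m_insert [DecidableEq V] {F : Finset V} {a : V} (h : a ∉ F) :
    S.m (insert a F) = S.y a + S.m F := Finset.sum_insert h

theorem m_union [DecidableEq V] {F G : Finset V} (h : Disjoint F G) :
    S.m (F ∪ G) = S.m F + S.m G := Finset.sum_union h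

theorem m_sing (a : V) : S.m {a} = S.y a := Finset.sum_singleton _ _

theorem eq_of {u : V} {F : Finset V} (h : ∀ w, w ∈ F ↔ S.A u w) :
    √3 * S.y u + S.m F = 1 := by
  classical
  rw [← S.eqn u]
  congr 1
  rw [← Finset.sum_filter]
  unfold m
  refine Finset.sum_congr ?_ fun _ _ => rfl
  ext w; simp [h w]

open scoped Classical in
/-- the neighbourhood -/
noncomputable def nb (u : V) : Finset V := univ.filter (fun w => S.A u w)

theorem mem_nb {u w : V} : w ∈ S.nb u ↔ S.A u w := by simp [nb]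

theorem eq_nb (u : V) : √3 * S.y u + S.m (S.nb u) = 1 := S.eq_of fun _ => S.mem_nb

theorem le_of {u : V} {F : Finset V} (h : ∀ w ∈ F, S.A u w) : √3 * S.y u + S.m F ≤ 1 := by
  rw [← S.eq_nb u]
  have := S.m_mono (F := F) (G := S.nb u) (fun w hw => S.mem_nb.mpr (h w hw))
  linarith

/-- induced path on four vertices -/
structure P4 (a b c d : V) : Prop where
  ab : S.A a b
  bc : S.A b c
  cd : S.A c d
  ac : S.N a c
  ad : S.N a d
  bd : S.N b d

variable {S}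

theorem P4.rev {a b c d : V} (h : S.P4 a b c d) : S.P4 d c b a :=
  ⟨S.symm _ _ h.cd, S.symm _ _ h.bc, S.symm _ _ h.ab, h.bd.symm, h.ad.symm, h.ac.symm⟩

theorem P4.trace {a b c d w : V} (h : S.P4 a b c d) (ha : w ≠ a) (hb : w ≠ b) (hc : w ≠ c)
    (hd : w ≠ d) :
    (¬ S.A w a ∧ ¬ S.A w b ∧ ¬ S.A w c ∧ ¬ S.A w d) ∨
    (S.A w a ∧ S.A w b ∧ ¬ S.A w c ∧ ¬ S.A w d) ∨
    (¬ S.A w a ∧ ¬ S.A w b ∧ S.A w c ∧ S.A w d) ∨
    (¬ S.A w a ∧ S.A w b ∧ S.A w c ∧ ¬ S.A w d) ∨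
    (S.A w a ∧ ¬ S.A w b ∧ ¬ S.A w c ∧ S.A w d) ∨
    (S.A w a ∧ S.A w b ∧ S.A w c ∧ S.A w d) := by
  have sy := S.symm
  by_cases wa : S.A w a <;> by_cases wb : S.A w b <;> by_cases wc : S.A w c <;>
    by_cases wd : S.A w d
  · simp [wa, wb, wc, wd]
  · exact (S.no_f1 h.ab h.bc h.cd h.ac h.ad h.bd wa wb wc ⟨hd, wd⟩).elim
  · exact (S.no_c4 wb h.bc h.cd (sy _ _ wd) ⟨hc, wc⟩ h.bd).elim
  · simp [wa, wb, wc, wd]
  · exact (S.no_c4 wa h.ab h.bc (sy _ _ wc) ⟨hb, wb⟩ h.ac).elim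
  · exact (S.no_c4 wa h.ab h.bc (sy _ _ wc) ⟨hb, wb⟩ h.ac).elim
  · simp [wa, wb, wc, wd]
  · exact (S.no_p5 wa h.ab h.bc h.cd ⟨hb, wb⟩ ⟨hc, wc⟩ ⟨hd, wd⟩ h.ac h.ad h.bd).elim
  · exact (S.no_f1 (sy _ _ h.cd) (sy _ _ h.bc) (sy _ _ h.ab) h.bd.symm h.ad.symm h.ac.symm
      wd wc wb ⟨ha, wa⟩).elim
  · simp [wa, wb, wc, wd]
  · exact (S.no_c4 wb h.bc h.cd (sy _ _ wd) ⟨hc, wc⟩ h.bd).elim
  · exact (S.no_claw (sy _ _ h.ab) h.bc (sy _ _ wb) h.ac ⟨ha.symm, fun h' => wa (sy _ _ h')⟩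
      ⟨hc.symm, fun h' => wc (sy _ _ h')⟩).elim
  · simp [wa, wb, wc, wd]
  · exact (S.no_claw (sy _ _ h.bc) h.cd (sy _ _ wc) h.bd ⟨hb.symm, fun h' => wb (sy _ _ h')⟩
      ⟨hd.symm, fun h' => wd (sy _ _ h')⟩).elim
  · exact (S.no_p5 (a := w) (sy _ _ wd |> fun h => sy _ _ h) (sy _ _ h.cd) (sy _ _ h.bc)
      (sy _ _ h.ab) ⟨hc, wc⟩ ⟨hb, wb⟩ ⟨ha, wa⟩ h.bd.symm h.ad.symm h.ac.symm).elim
  · simp [wa, wb, wc, wd]

/-- an induced path on three vertices extends to an induced path on four vertices -/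
theorem p3_ext {a b c : V} (h1 : S.A a b) (h2 : S.A b c) (n : S.N a c) :
    ∃ w, S.P4 w a b c ∨ S.P4 a b c w := by
  classical
  by_contra hcon
  push Not at hcon
  have sy := S.symm
  have hab := A.ne h1
  have hbc := A.ne h2
  -- the key function
  have key : ∀ w, w ≠ a → w ≠ b → w ≠ c →
      (if S.A a w then S.y w else 0) + (if S.A c w then S.y w else 0)
        - 2 * (if S.A b w then S.y w else 0) ≤ 0 := by
    intro w wa wb wc
    have hy := S.pos w
    by_cases qa : S.A a w <;> by_cases qc : S.A c w <;> by_cases qb : S.A b w <;>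
      simp only [qa, qb, qc, if_true, if_false]
    · linarith
    · exfalso
      exact S.no_c4 (sy _ _ qa) h1 h2 qc ⟨wb, fun h => qb (sy _ _ h)⟩ n
    · linarith
    · exfalso
      exact (hcon w).1 ⟨sy _ _ qa, h1, h2, ⟨wb, fun h => qb (sy _ _ h)⟩,
        ⟨wc, fun h => qc (sy _ _ h)⟩, n⟩
    · linarith
    · exfalso
      exact (hcon w).2 ⟨h1, h2, qc, n, ⟨wa.symm, qa⟩, ⟨wb.symm, qb⟩⟩
    · exfalso
      exact S.no_claw (sy _ _ h1) h2 qb n ⟨wa.symm, qa⟩ ⟨wc.symm, qc⟩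
    · linarith
  have hsum : ∑ w, ((if S.A a w then S.y w else 0) + (if S.A c w then S.y w else 0)
        - 2 * (if S.A b w then S.y w else 0)) ≤ -2 * S.y a + 2 * S.y b - 2 * S.y c := by
    have e1 : ∀ w, ((if S.A a w then S.y w else 0) + (if S.A c w then S.y w else 0)
        - 2 * (if S.A b w then S.y w else 0)) ≤
        (if w = a then -2 * S.y a else 0) + (if w = b then 2 * S.y b else 0)
          - (if w = c then 2 * S.y c else 0) := by
      intro w
      by_cases wa : w = a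
      · subst wa
        simp [S.irr, sy _ _ h1, n.1, hab, n.symm.2]
      · by_cases wb : w = b
        · subst wb
          simp [S.irr, h1, sy _ _ h2, hbc, wa]
          linarith
        · by_cases wc : w = c
          · subst wc
            simp [S.irr, h2, n.2, wa, wb]
          · simp only [wa, wb, wc, if_false]
            have := key w wa wb wc
            linarith
    refine (Finset.sum_le_sum fun w _ => e1 w).trans ?_
    rw [Finset.sum_sub_distrib, Finset.sum_add_distrib]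
    simp
  rw [Finset.sum_sub_distrib, Finset.sum_add_distrib, ← Finset.mul_sum] at hsum
  have ea := S.eqn a
  have eb := S.eqn b
  have ec := S.eqn c
  have ya := S.pos a
  have yb := S.pos b
  have yc := S.pos c
  nlinarith [r3_gt, r3_lt]

end Sys

end Pool.Agent.Lib_helper17.ED
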