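import Pool.Agent.Lib_helper17.ED.Form

/-!
Critical points of `√3 |x|^2 + x^T A x` with positive definite form: forbidden induced subgraphs.
-/

namespace Pool.Agent.Lib_helper17.ED

open Finset

open scoped Classical in
/-- the matrix `√3 I + A` -/
noncomputable def kk {V : Type*} (A : V → V → Prop) (u w : V) : ℝ :=
  if u = w then √3 else if A u w then 1 else 0

open scoped Classical in
/-- a critical system -/
structure Sys (V : Type*) [Fintype V] where
  A : V → V → Prop
  symm : ∀ u w, A u w → A w u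
  irr : ∀ u, ¬ A u u
  y : V → ℝ
  pos : ∀ v, 0 < y v
  eqn : ∀ u, √3 * y u + ∑ w, (if A u w then y w else 0) = 1
  pd : ∀ f : V → ℝ, f ≠ 0 → 0 < qf (kk A) f

namespace Sys

variable {V : Type*} [Fintype V] (S : Sys V)

/-- distinct and non-adjacent -/
def N (u w : V) : Prop := u ≠ w ∧ ¬ S.A u w

theorem N.symm {S : Sys V} {u w : V} (h : S.N u w) : S.N w u :=
  ⟨h.1.symm, fun h' => h.2 (S.symm _ _ h')⟩

theorem A.ne {S : Sys V} {u w : V} (h : S.A u w) : u ≠ w := by
  rintro rfl; exact S.irr _ h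

theorem k_self (u : V) : kk S.A u u = √3 := by simp [kk]

theorem k_adj {u w : V} (h : S.A u w) : kk S.A u w = 1 := by
  have := A.ne h
  simp [kk, this, h]

theorem k_adj' {u w : V} (h : S.A u w) : kk S.A w u = 1 := S.k_adj (S.symm _ _ h)

theorem k_non {u w : V} (h : S.N u w) : kk S.A u w = 0 := by simp [kk, h.1, h.2]

theorem k_non' {u w : V} (h : S.N u w) : kk S.A w u = 0 := S.k_non (N.symm h)

theorem sum_place {k : ℕ} (e : Fin k → V) (a : Fin k → ℝ) (g : V → ℝ) [DecidableEq V] :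
    ∑ u, (∑ i, if e i = u then a i else 0) * g u = ∑ i, a i * g (e i) := by
  simp only [Finset.sum_mul, ite_mul, zero_mul]
  rw [Finset.sum_comm]
  refine Finset.sum_congr rfl fun i _ => ?_
  simp

theorem pdk {k : ℕ} (e : Fin (k + 1) → V) (a : Fin (k + 1) → ℝ) (h0 : a 0 ≠ 0)
    (h : ∀ j, j ≠ 0 → e j ≠ e 0) : 0 < ∑ i, ∑ j, a i * a j * kk S.A (e i) (e j) := by
  classical
  have hf : (fun u => ∑ i, if e i = u then a i else 0) ≠ 0 := by
    intro hz
    have h1 := congrFun hz (e 0)
    simp only [Pi.zero_apply] at h1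
    rw [Finset.sum_eq_single 0] at h1
    · simp at h1; exact h0 h1
    · intro j _ hj
      simp [h j hj]
    · simp
  have h2 := S.pd _ hf
  have h3 : qf (kk S.A) (fun u => ∑ i, if e i = u then a i else 0)
      = ∑ i, ∑ j, a i * a j * kk S.A (e i) (e j) := by
    unfold qf
    have h4 : ∀ u, ∑ w, (∑ i, if e i = u then a i else 0) * (∑ i, if e i = w then a i else 0)
        * kk S.A u w = (∑ i, if e i = u then a i else 0) * ∑ j, a j * kk S.A u (e j) := by
      intro u
      rw [← sum_place e a (fun w => kk S.A u w), Finset.mul_sum]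
      refine Finset.sum_congr rfl fun w _ => ?_
      ring
    rw [Finset.sum_congr rfl fun u _ => h4 u, sum_place e a]
    refine Finset.sum_congr rfl fun i _ => ?_
    rw [Finset.mul_sum]
    refine Finset.sum_congr rfl fun j _ => ?_
    ring
  rwa [h3] at h2

theorem sq3 : √3 * √3 = (3 : ℝ) := Real.mul_self_sqrt (by norm_num)

theorem r3_gt : (1.732 : ℝ) < √3 := by
  rw [Real.lt_sqrt (by norm_num)]; norm_num

theorem r3_lt : √3 < (1.7321 : ℝ) := by
  rw [Real.sqrt_lt' (by norm_num)]; norm_num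

theorem no_claw {u a b c : V} (h1 : S.A u a) (h2 : S.A u b) (h3 : S.A u c)
    (n1 : S.N a b) (n2 : S.N a c) (n3 : S.N b c) : False := by
  have := S.pdk ![u, a, b, c] ![-√3, 1, 1, 1] (by simp)
    (by
      intro j hj
      fin_cases j
      · exact absurd rfl hj
      · exact (A.ne h1).symm
      · exact (A.ne h2).symm
      · exact (A.ne h3).symm)
  simp [Fin.sum_univ_succ, S.k_self, S.k_adj h1, S.k_adj' h1, S.k_adj h2, S.k_adj' h2,
    S.k_adj h3, S.k_adj' h3, S.k_non n1, S.k_non' n1, S.k_non n2, S.k_non' n2,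
    S.k_non n3, S.k_non' n3] at this
  nlinarith [sq3, r3_gt]

theorem no_c4 {a b c d : V} (h1 : S.A a b) (h2 : S.A b c) (h3 : S.A c d) (h4 : S.A d a)
    (n1 : S.N a c) (n2 : S.N b d) : False := by
  have := S.pdk ![a, b, c, d] ![1, -1, 1, -1] (by simp)
    (by
      intro j hj
      fin_cases j
      · exact absurd rfl hj
      · exact (A.ne h1).symm
      · exact n1.1.symm
      · exact (A.ne h4))
  simp [Fin.sum_univ_succ, S.k_self, S.k_adj h1, S.k_adj' h1, S.k_adj h2, S.k_adj' h2,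
    S.k_adj h3, S.k_adj' h3, S.k_adj h4, S.k_adj' h4, S.k_non n1, S.k_non' n1,
    S.k_non n2, S.k_non' n2] at this
  nlinarith [sq3, r3_lt]

theorem no_p5 {a b c d e : V} (h1 : S.A a b) (h2 : S.A b c) (h3 : S.A c d) (h4 : S.A d e)
    (n1 : S.N a c) (n2 : S.N a d) (n3 : S.N a e) (n4 : S.N b d) (n5 : S.N b e)
    (n6 : S.N c e) : False := by
  have := S.pdk ![a, b, c, d, e] ![1, -√3, 2, -√3, 1] (by simp)
    (by
      intro j hj
      fin_cases j
      · exact absurd rfl hj
      · exact (A.ne h1).symm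
      · exact n1.1.symm
      · exact n2.1.symm
      · exact n3.1.symm)
  simp [Fin.sum_univ_succ, S.k_self, S.k_adj h1, S.k_adj' h1, S.k_adj h2, S.k_adj' h2,
    S.k_adj h3, S.k_adj' h3, S.k_adj h4, S.k_adj' h4, S.k_non n1, S.k_non' n1,
    S.k_non n2, S.k_non' n2, S.k_non n3, S.k_non' n3, S.k_non n4, S.k_non' n4,
    S.k_non n5, S.k_non' n5, S.k_non n6, S.k_non' n6] at this
  nlinarith [sq3, r3_gt]

theorem no_f1 {a b c d w : V} (h1 : S.A a b) (h2 : S.A b c) (h3 : S.A c d)
    (n1 : S.N a c) (n2 : S.N a d) (n3 : S.N b d)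
    (w1 : S.A w a) (w2 : S.A w b) (w3 : S.A w c) (w4 : S.N w d) : False := by
  have := S.pdk ![a, b, c, d, w] ![1, -1, √3, -1, -1] (by simp)
    (by
      intro j hj
      fin_cases j
      · exact absurd rfl hj
      · exact (A.ne h1).symm
      · exact n1.1.symm
      · exact n2.1.symm
      · exact (A.ne w1))
  simp [Fin.sum_univ_succ, S.k_self, S.k_adj h1, S.k_adj' h1, S.k_adj h2, S.k_adj' h2,
    S.k_adj h3, S.k_adj' h3, S.k_adj w1, S.k_adj' w1, S.k_adj w2, S.k_adj' w2,
    S.k_adj w3, S.k_adj' w3, S.k_non n1, S.k_non' n1,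
    S.k_non n2, S.k_non' n2, S.k_non n3, S.k_non' n3, S.k_non w4, S.k_non' w4] at this
  nlinarith [sq3, r3_gt, r3_lt]

end Sys

end Pool.Agent.Lib_helper17.ED
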